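import Mathlib

namespace Pool.Agent.Helper822.KAM

/-- the exact linear identity behind the approximate inverse -/
theorem lin_id {w1 w2 w2i w1p b b2 s s1 s2 sp u u1 u2 up φ φp c c2 E' E'2 R R2 α αp β βp Y Y2 Z Z2 B e0 ze : ℝ}
    (hw : w2 * w2i = 1)
    (hφ : φ * (w1 * (u * s1 + u1 * s)) = 1)
    (hφp : φp * (w1p * (up * s2 + u2 * sp)) = 1)
    (hE : E' = -(w2 * u2) + w1 * u1 + b * u)
    (hE2 : E'2 = -(w2 * u) + w1p * up + b2 * u2)
    (hc : c = (b * s - w1 * s1) * φ)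
    (hc2 : c2 = (b2 * s2 - w1p * sp) * φp)
    (hY : Y = 1 / 2 * (w2 * s2 * φp - c)) (hY2 : Y2 = 1 / 2 * (w2 * s * φ - c2))
    (hZ : Z = w2 * s2 * φp + c) (hZ2 : Z2 = w2 * s * φ + c2)
    (hB : B = 1 / 2 * (βp + β))
    (hg : βp - β = u * R - u2 * R2)
    (ha : αp - α = -((R * Y2 + Y * R2) * w2i) + (Z * Y2 + Y * Z2) * w2i * B)
    (he0 : e0 = 1 / 2 * (φ * s * E' + φp * s2 * E'2))
    (hze : ze = Z * e0 + Y * (φ * s * E' - φp * s2 * E'2)) :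
    w2 * (-(αp * u2) + βp * φp * s2) - w1 * (-(α * u1) + β * φ * s1) + b * (α * u + β * φ * s)
      = R * (1 - e0) + ze * B + α * E' := by
  have J2 : φ * w2 * u2 * s - u * c + φ * s * E' = 1 := by
    linear_combination hφ - u * hc + φ * s * hE
  have J1 : φp * w2 * u * s2 - u2 * c2 + φp * s2 * E'2 = 1 := by
    linear_combination hφp - u2 * hc2 + φp * s2 * hE2
  subst hze he0
  linear_combination (-(w2 * u2)) * ha + (u2 * (R * Y2 + Y * R2) - u2 * (Z * Y2 + Y * Z2) * B) * hw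
    + Y * hg - β * hc - α * hE + (R / 2 - B * Z / 2 - B * Y) * J2 + (R / 2 - B * Z / 2 + B * Y) * J1
    + (-βp / 2 - β / 2) * hZ + (β - βp) * hY + (R - Z * B) * u2 * hY2
    + (R - Z * B) * u * hY + B * Y * (u * hZ - u2 * hZ2)
    - Z * hB

/-- second order Taylor formula for `A(s,τ) = τ/(1+ηsτ)` -/
theorem taylor_id {η s τ h k v v' : ℝ} (hv : v * (1 + η * (s * τ)) = 1)
    (hv' : v' * (1 + η * ((s + h) * (τ + k))) = 1) :
    (τ + k) * v' = τ * v + -(η * τ ^ 2 * v ^ 2) * h + v ^ 2 * k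
      + -(η * (τ * (1 + η * (s * τ)) * h * k + (k - η * τ ^ 2 * h) * (s * k + h * τ + h * k)) * v ^ 2 * v') := by
  obtain ⟨m, hm⟩ : ∃ m, m = 1 + η * (s * τ) := ⟨_, rfl⟩
  obtain ⟨m', hm'⟩ : ∃ m', m' = 1 + η * ((s + h) * (τ + k)) := ⟨_, rfl⟩
  rw [← hm] at hv ⊢
  rw [← hm'] at hv'
  have h1 : m ≠ 0 := right_ne_zero_of_mul_eq_one hv
  have h2 : m' ≠ 0 := right_ne_zero_of_mul_eq_one hv'
  have e1 : v = 1 / m := eq_one_div_of_mul_eq_one_left hv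
  have e2 : v' = 1 / m' := eq_one_div_of_mul_eq_one_left hv'
  rw [e1, e2]
  field_simp
  subst hm hm'
  ring

end Pool.Agent.Helper822.KAM
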