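import Mathlib

/-!
Functions on the circle with absolutely convergent, exponentially decaying Fourier series
(`BC r M f` : `f` is the sum of a Fourier series with `∑ ‖c k‖ e^{r|k|} ≤ M`).
-/

namespace Pool.Agent.Helper822.KAM

open Finset

/-- the weight `e^{r|k|}` -/
noncomputable def wt (r : ℝ) (k : ℤ) : ℝ := Real.exp (r * |(k : ℝ)|)

/-- the character `e^{ikθ}` -/
noncomputable def ex (k : ℤ) (θ : ℝ) : ℂ := Complex.exp (((k : ℝ) * θ : ℝ) * Complex.I)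

theorem wt_pos (r : ℝ) (k : ℤ) : 0 < wt r k := Real.exp_pos _

theorem one_le_wt {r : ℝ} (hr : 0 ≤ r) (k : ℤ) : 1 ≤ wt r k :=
  Real.one_le_exp (mul_nonneg hr (abs_nonneg _))

theorem wt_mono {r r' : ℝ} (h : r' ≤ r) (k : ℤ) : wt r' k ≤ wt r k :=
  Real.exp_le_exp.2 (mul_le_mul_of_nonneg_right h (abs_nonneg _))

theorem wt_add {r : ℝ} (hr : 0 ≤ r) (j k : ℤ) : wt r (j + k) ≤ wt r j * wt r k := by
  rw [wt, wt, wt, ← Real.exp_add, ← mul_add]
  apply Real.exp_le_exp.2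
  apply mul_le_mul_of_nonneg_left _ hr
  push_cast
  exact abs_add_le _ _

theorem wt_neg (r : ℝ) (k : ℤ) : wt r (-k) = wt r k := by
  simp [wt]

theorem wt_zero (r : ℝ) : wt r 0 = 1 := by simp [wt]

theorem norm_ex (k : ℤ) (θ : ℝ) : ‖ex k θ‖ = 1 := Complex.norm_exp_ofReal_mul_I _

theorem ex_add (j k : ℤ) (θ : ℝ) : ex (j + k) θ = ex j θ * ex k θ := by
  rw [ex, ex, ex, ← Complex.exp_add]
  congr 1
  push_cast
  ring

theorem ex_shift (k : ℤ) (θ ω : ℝ) : ex k (θ + ω) = ex k ω * ex k θ := by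
  rw [ex, ex, ex, ← Complex.exp_add]
  congr 1
  push_cast
  ring

theorem ex_neg (k : ℤ) (θ : ℝ) : ex k (-θ) = ex (-k) θ := by
  rw [ex, ex]
  congr 1
  push_cast
  ring

theorem ex_zero (θ : ℝ) : ex 0 θ = 1 := by simp [ex]

theorem conj_ex (k : ℤ) (θ : ℝ) : (starRingEnd ℂ) (ex k θ) = ex (-k) θ := by
  rw [ex, ex, ← Complex.exp_conj]
  congr 1
  simp

theorem ex_hasDerivAt (k : ℤ) (θ : ℝ) : HasDerivAt (ex k) (((k : ℂ) * Complex.I) * ex k θ) θ := by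
  have h1 : HasDerivAt (fun t : ℝ => (((k : ℝ) * t : ℝ) : ℂ) * Complex.I) ((k : ℂ) * Complex.I) θ := by
    have h := (((hasDerivAt_id θ).const_mul (k : ℝ)).ofReal_comp).mul_const Complex.I
    simpa using h
  have h2 := h1.cexp
  rw [mul_comm]
  exact h2

theorem continuous_ex (k : ℤ) : Continuous (ex k) :=
  continuous_iff_continuousAt.2 fun θ => (ex_hasDerivAt k θ).continuousAt

/-- representation of `f` by a Fourier series with weighted norm at most `M` -/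
def Rep (r M : ℝ) (c : ℤ → ℂ) (f : ℝ → ℂ) : Prop :=
  Summable (fun k => ‖c k‖ * wt r k) ∧ ∑' k, ‖c k‖ * wt r k ≤ M ∧
    ∀ θ, HasSum (fun k => c k * ex k θ) (f θ)

/-- `f` has a Fourier series with weighted norm at most `M` -/
def BC (r M : ℝ) (f : ℝ → ℂ) : Prop := ∃ c : ℤ → ℂ, Rep r M c f

/-- the same for real functions -/
def Bd (r M : ℝ) (f : ℝ → ℝ) : Prop := BC r M (fun θ => (f θ : ℂ))

theorem Rep.nonneg {r M : ℝ} {c : ℤ → ℂ} {f : ℝ → ℂ} (h : Rep r M c f) : 0 ≤ M :=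
  le_trans (tsum_nonneg fun k => mul_nonneg (norm_nonneg _) (wt_pos r k).le) h.2.1

theorem Rep.mono {r r' M M' : ℝ} {c : ℤ → ℂ} {f : ℝ → ℂ} (h : Rep r M c f) (hr : r' ≤ r)
    (hM : M ≤ M') : Rep r' M' c f := by
  obtain ⟨h1, h2, h3⟩ := h
  have hle : ∀ k, ‖c k‖ * wt r' k ≤ ‖c k‖ * wt r k := fun k =>
    mul_le_mul_of_nonneg_left (wt_mono hr k) (norm_nonneg _)
  have hs : Summable (fun k => ‖c k‖ * wt r' k) :=
    Summable.of_nonneg_of_le (fun k => mul_nonneg (norm_nonneg _) (wt_pos r' k).le) hle h1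
  exact ⟨hs, (hs.tsum_le_tsum hle h1).trans (h2.trans hM), h3⟩

theorem Rep.add {r M N : ℝ} {c d : ℤ → ℂ} {f g : ℝ → ℂ} (h : Rep r M c f) (h' : Rep r N d g) :
    Rep r (M + N) (fun k => c k + d k) (fun θ => f θ + g θ) := by
  obtain ⟨h1, h2, h3⟩ := h
  obtain ⟨h1', h2', h3'⟩ := h'
  have hle : ∀ k, ‖c k + d k‖ * wt r k ≤ ‖c k‖ * wt r k + ‖d k‖ * wt r k := fun k => by
    rw [← add_mul]
    exact mul_le_mul_of_nonneg_right (norm_add_le _ _) (wt_pos r k).le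
  have hs : Summable (fun k => ‖c k + d k‖ * wt r k) :=
    Summable.of_nonneg_of_le (fun k => mul_nonneg (norm_nonneg _) (wt_pos r k).le) hle (h1.add h1')
  refine ⟨hs, ?_, fun θ => ?_⟩
  · refine (hs.tsum_le_tsum hle (h1.add h1')).trans ?_
    rw [h1.tsum_add h1']
    exact add_le_add h2 h2'
  · have := (h3 θ).add (h3' θ)
    simpa only [add_mul] using this

theorem Rep.smul {r M : ℝ} {c : ℤ → ℂ} {f : ℝ → ℂ} (h : Rep r M c f) (a : ℂ) :
    Rep r (‖a‖ * M) (fun k => a * c k) (fun θ => a * f θ) := by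
  obtain ⟨h1, h2, h3⟩ := h
  have he : ∀ k, ‖a * c k‖ * wt r k = ‖a‖ * (‖c k‖ * wt r k) := fun k => by
    rw [norm_mul, mul_assoc]
  refine ⟨?_, ?_, fun θ => ?_⟩
  · simp only [he]; exact h1.mul_left _
  · simp only [he]; rw [tsum_mul_left]
    exact mul_le_mul_of_nonneg_left h2 (norm_nonneg _)
  · have := (h3 θ).mul_left a
    simpa only [mul_assoc] using this

theorem Rep.const (r : ℝ) (a : ℂ) : Rep r ‖a‖ (fun k => if k = 0 then a else 0) (fun _ => a) := by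
  have he : (fun k : ℤ => ‖(if k = 0 then a else 0 : ℂ)‖ * wt r k) = fun k => if k = 0 then ‖a‖ else 0 := by
    funext k
    by_cases hk : k = 0
    · simp [hk, wt_zero]
    · simp [hk]
  refine ⟨?_, ?_, fun θ => ?_⟩
  · rw [he]
    exact (hasSum_ite_eq 0 ‖a‖).summable
  · rw [he, tsum_ite_eq]
  · have he2 : (fun k : ℤ => (if k = 0 then a else 0 : ℂ) * ex k θ) = fun k => if k = 0 then a else 0 := by
      funext k
      by_cases hk : k = 0
      · simp [hk, ex_zero]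
      · simp [hk]
    rw [he2]
    exact hasSum_ite_eq 0 a

theorem Rep.shift {r M : ℝ} {c : ℤ → ℂ} {f : ℝ → ℂ} (h : Rep r M c f) (ω : ℝ) :
    Rep r M (fun k => c k * ex k ω) (fun θ => f (θ + ω)) := by
  obtain ⟨h1, h2, h3⟩ := h
  have he : (fun k => ‖c k * ex k ω‖ * wt r k) = fun k => ‖c k‖ * wt r k := by
    funext k; rw [norm_mul, norm_ex, mul_one]
  refine ⟨by rw [he]; exact h1, by rw [he]; exact h2, fun θ => ?_⟩
  have := h3 (θ + ω)
  simpa only [ex_shift, mul_assoc] using this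

theorem Rep.refl {r M : ℝ} {c : ℤ → ℂ} {f : ℝ → ℂ} (h : Rep r M c f) :
    Rep r M (fun k => c (-k)) (fun θ => f (-θ)) := by
  obtain ⟨h1, h2, h3⟩ := h
  have he : (fun k => ‖c (-k)‖ * wt r k) = (fun k => ‖c k‖ * wt r k) ∘ (Equiv.neg ℤ) := by
    funext k; simp [wt_neg]
  refine ⟨?_, ?_, fun θ => ?_⟩
  · rw [he]; exact (Equiv.neg ℤ).summable_iff.2 h1
  · rw [he]
    have := (Equiv.neg ℤ).tsum_eq (fun k => ‖c k‖ * wt r k)
    exact (le_of_eq this).trans h2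
  · have h4 := (Equiv.neg ℤ).hasSum_iff.2 (h3 (-θ))
    have he2 : (fun k => c (-k) * ex k θ) = (fun k => c k * ex k (-θ)) ∘ (Equiv.neg ℤ) := by
      funext k; simp [ex_neg]
    rw [he2]; exact h4

theorem Rep.conj {r M : ℝ} {c : ℤ → ℂ} {f : ℝ → ℂ} (h : Rep r M c f) :
    Rep r M (fun k => (starRingEnd ℂ) (c (-k))) (fun θ => (starRingEnd ℂ) (f θ)) := by
  obtain ⟨h1, h2, h3⟩ := h
  have he : (fun k => ‖(starRingEnd ℂ) (c (-k))‖ * wt r k) = (fun k => ‖c k‖ * wt r k) ∘ (Equiv.neg ℤ) := by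
    funext k; simp [wt_neg]
  refine ⟨?_, ?_, fun θ => ?_⟩
  · rw [he]; exact (Equiv.neg ℤ).summable_iff.2 h1
  · rw [he]
    have := (Equiv.neg ℤ).tsum_eq (fun k => ‖c k‖ * wt r k)
    exact (le_of_eq this).trans h2
  · have h4 : HasSum (fun k => (starRingEnd ℂ) (c k * ex k θ)) ((starRingEnd ℂ) (f θ)) :=
      Complex.hasSum_conj'.2 (by simpa using h3 θ)
    have h5 := (Equiv.neg ℤ).hasSum_iff.2 h4
    have he2 : (fun k => (starRingEnd ℂ) (c (-k)) * ex k θ) = (fun k => (starRingEnd ℂ) (c k * ex k θ)) ∘ (Equiv.neg ℤ) := by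
      funext k; simp [conj_ex]
    rw [he2]; exact h5

theorem Rep.norm_le {r M : ℝ} (hr : 0 ≤ r) {c : ℤ → ℂ} {f : ℝ → ℂ} (h : Rep r M c f) (θ : ℝ) :
    ‖f θ‖ ≤ M := by
  obtain ⟨h1, h2, h3⟩ := h
  have hle : ∀ k, ‖c k * ex k θ‖ ≤ ‖c k‖ * wt r k := fun k => by
    rw [norm_mul, norm_ex]
    exact mul_le_mul_of_nonneg_left (one_le_wt hr k) (norm_nonneg _)
  have hs : Summable (fun k => ‖c k * ex k θ‖) :=
    Summable.of_nonneg_of_le (fun k => norm_nonneg _) hle h1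
  rw [← (h3 θ).tsum_eq]
  exact (norm_tsum_le_tsum_norm hs).trans ((hs.tsum_le_tsum hle h1).trans h2)


end Pool.Agent.Helper822.KAM
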