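import Pool.Agent.Helper822.KAM.Lib

namespace Pool.Agent.Helper822.KAM

/-- bookkeeping of bounds by monomials `L^n e^j` -/
def Bn (L e r : ℝ) (n j : ℕ) (f : ℝ → ℝ) : Prop := Bd r (L ^ n * e ^ j) f

variable {L e r r' : ℝ} {m n i j : ℕ} {f g : ℝ → ℝ}

theorem Bn.bd (h : Bn L e r n j f) : Bd r (L ^ n * e ^ j) f := h

theorem Bn.of (h : Bd r L f) : Bn L e r 1 0 f := by
  unfold Bn; rwa [pow_one, pow_zero, mul_one]

theorem Bn.ofe (h : Bd r e f) : Bn L e r 0 1 f := by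
  unfold Bn; rwa [pow_one, pow_zero, one_mul]

theorem Bn.congr (h : Bn L e r n j f) (he : ∀ θ, f θ = g θ) : Bn L e r n j g := Bd.congr h he

theorem Bn.up (hL : 4 ≤ L) (he0 : 0 ≤ e) (h : Bn L e r n j f) (hnm : n ≤ m) : Bn L e r m j f :=
  Bd.mono h le_rfl (mul_le_mul_of_nonneg_right (pow_le_pow_right₀ (by linarith) hnm) (pow_nonneg he0 _))

theorem Bn.low (h : Bn L e r n j f) (hr : r' ≤ r) : Bn L e r' n j f := Bd.mono h hr le_rfl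

theorem Bn.dn (hL : 4 ≤ L) (he0 : 0 ≤ e) (he1 : e ≤ 1) (h : Bn L e r n j f) (hij : i ≤ j) : Bn L e r n i f :=
  Bd.mono h le_rfl (mul_le_mul_of_nonneg_left (pow_le_pow_of_le_one he0 he1 hij)
    (pow_nonneg (by linarith) _))

theorem Bn.mul (hr : 0 ≤ r) (h : Bn L e r m i f) (h' : Bn L e r n j g) :
    Bn L e r (m + n) (i + j) (f * g) := by
  have := Bd.mul hr h h'
  unfold Bn
  refine this.mono le_rfl (le_of_eq ?_)
  rw [pow_add, pow_add]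
  ring

theorem pow_sum_le (hL : 4 ≤ L) : L ^ m + L ^ n ≤ L ^ (max m n + 1) := by
  have h1 : L ^ m ≤ L ^ (max m n) := pow_le_pow_right₀ (by linarith) (le_max_left _ _)
  have h2 : L ^ n ≤ L ^ (max m n) := pow_le_pow_right₀ (by linarith) (le_max_right _ _)
  have h3 : 0 ≤ L ^ (max m n) := pow_nonneg (by linarith) _
  rw [pow_succ]
  nlinarith

theorem Bn.add (hL : 4 ≤ L) (he0 : 0 ≤ e) (h : Bn L e r m i f) (h' : Bn L e r n i g) :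
    Bn L e r (max m n + 1) i (f + g) := by
  refine (Bd.add h h').mono le_rfl ?_
  rw [← add_mul]
  exact mul_le_mul_of_nonneg_right (pow_sum_le hL) (pow_nonneg he0 _)

theorem Bn.neg (h : Bn L e r m i f) : Bn L e r m i (-f) := Bd.neg h

theorem Bn.sub (hL : 4 ≤ L) (he0 : 0 ≤ e) (h : Bn L e r m i f) (h' : Bn L e r n i g) :
    Bn L e r (max m n + 1) i (f - g) := by
  rw [sub_eq_add_neg]; exact h.add hL he0 h'.neg

theorem Bn.half (hL : 4 ≤ L) (he0 : 0 ≤ e) (h : Bn L e r m i f) :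
    Bn L e r m i (fun θ => 1 / 2 * f θ) := by
  refine (Bd.smul h (1 / 2)).mono le_rfl ?_
  have : 0 ≤ L ^ m * e ^ i := by have := pow_nonneg he0 i; have := pow_nonneg (by linarith : 0 ≤ L) m; positivity
  rw [abs_of_pos (by norm_num : (0:ℝ) < 1 / 2)]
  linarith

theorem Bn.const {a : ℝ} (h : |a| ≤ L ^ n * e ^ j) : Bn L e r n j (fun _ => a) :=
  (Bd.const r a).mono le_rfl h

theorem Bn.shift (h : Bn L e r m i f) (ω : ℝ) : Bn L e r m i (fun θ => f (θ + ω)) := Bd.shift h ω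

theorem Bn.refl (h : Bn L e r m i f) : Bn L e r m i (fun θ => f (-θ)) := Bd.refl h

theorem Bn.refl1 (h : Bn L e r m i f) (ω : ℝ) : Bn L e r m i (fun θ => f (-θ - ω)) := Bd.refl1 h ω

/-- system of functions attached to an approximate solution -/
structure Sys where
  η : ℝ
  k : ℝ
  ω : ℝ
  s : ℝ → ℝ
  u : ℝ → ℝ
  v1 : ℝ → ℝ
  v2 : ℝ → ℝ
  φ : ℝ → ℝ

namespace Sys

variable (S : Sys)

def s1 : ℝ → ℝ := fun θ => S.s (-θ)
def s2 : ℝ → ℝ := fun θ => S.s (-θ - S.ω)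
def u1 : ℝ → ℝ := fun θ => S.u (-θ)
def u2 : ℝ → ℝ := fun θ => S.u (-θ - S.ω)
def w1 : ℝ → ℝ := S.v1 * S.v1
def w2 : ℝ → ℝ := S.v2 * S.v2
def m2 : ℝ → ℝ := (fun _ => 1) + (fun _ => S.η) * (S.s * S.s2)
def w2i : ℝ → ℝ := S.m2 * S.m2
def b : ℝ → ℝ := -((fun _ => S.η) * (S.s2 * S.s2) * S.w2) + (fun _ => S.η) * (S.s1 * S.s1) * S.w1 - (fun _ => S.k)
def c : ℝ → ℝ := (S.b * S.s - S.w1 * S.s1) * S.φ
def φp : ℝ → ℝ := fun θ => S.φ (θ + S.ω)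
noncomputable def Y : ℝ → ℝ := fun θ => 1 / 2 * (S.w2 * S.s2 * S.φp - S.c) θ
def Z : ℝ → ℝ := S.w2 * S.s2 * S.φp + S.c
noncomputable def Y2 : ℝ → ℝ := fun θ => S.Y (-θ - S.ω)
def Z2 : ℝ → ℝ := fun θ => S.Z (-θ - S.ω)
noncomputable def T : ℝ → ℝ := (S.Z * S.Y2 + S.Y * S.Z2) * S.w2i
/-- the residual -/
def E : ℝ → ℝ := S.s2 * S.v2 - S.s1 * S.v1 - (fun _ => S.k) * S.s
/-- right hand side of the second cohomological equation -/
noncomputable def af (ζ ζ2 B : ℝ → ℝ) : ℝ → ℝ := -((ζ * S.Y2 + S.Y * ζ2) * S.w2i) + S.T * B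

/-- the conditions under which a Newton step can be made -/
structure Valid (S : Sys) (r L : ℝ) : Prop where
  der : ∀ θ, HasDerivAt S.s (S.u θ) θ
  bs : Bd r L S.s
  bu : Bd r L S.u
  bv1 : Bd r L S.v1
  bv2 : Bd r L S.v2
  bφ : Bd r L S.φ
  hv1 : ∀ θ, S.v1 θ * (1 + S.η * (S.s θ * S.s1 θ)) = 1
  hv2 : ∀ θ, S.v2 θ * (1 + S.η * (S.s θ * S.s2 θ)) = 1
  hφ : ∀ θ, S.φ θ * (S.w1 θ * (S.u θ * S.s1 θ + S.u1 θ * S.s θ)) = 1
  havg : ∀ β : ℝ → ℝ, Bd 0 (L ^ 3) β → (∀ θ, β (θ + S.ω) - β θ = S.u θ * S.s θ - S.u2 θ * S.s2 θ) →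
    1 / 2 ≤ |avg (S.af S.s S.s2 (fun θ => 1 / 2 * (β (θ + S.ω) + β θ)))|

end Sys

end Pool.Agent.Helper822.KAM
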