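import Pool.Agent.Helper822.KAM.Bn

namespace Pool.Agent.Helper822.KAM

/-- `f` is bounded and `f` is `t`-close to the bounded function `f0` -/
def Cl (K t r : ℝ) (n : ℕ) (f f0 : ℝ → ℝ) : Prop :=
  Bd r (K ^ n) f0 ∧ Bd r (K ^ n * t) (f - f0)

variable {K t r : ℝ} {m n : ℕ} {f g f0 g0 : ℝ → ℝ}

theorem Cl.congr (h : Cl K t r n f f0) {g0 : ℝ → ℝ} (h0 : ∀ θ, f0 θ = g0 θ) : Cl K t r n f g0 := by
  have : f0 = g0 := funext h0
  rwa [this] at h

theorem Cl.bd (hK : 4 ≤ K) (ht1 : t ≤ 1) (h : Cl K t r n f f0) : Bd r (K ^ (n + 1)) f := by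
  have h1 := h.1.add h.2
  have hp : 0 ≤ K ^ n := pow_nonneg (by linarith) _
  refine (h1.mono le_rfl ?_).congr fun θ => by simp only [Pi.add_apply, Pi.sub_apply]; ring
  rw [pow_succ]
  nlinarith

theorem Cl.up (hK : 4 ≤ K) (ht0 : 0 ≤ t) (h : Cl K t r n f f0) (hnm : n ≤ m) : Cl K t r m f f0 := by
  have hp : K ^ n ≤ K ^ m := pow_le_pow_right₀ (by linarith) hnm
  exact ⟨h.1.mono le_rfl hp, h.2.mono le_rfl (mul_le_mul_of_nonneg_right hp ht0)⟩

theorem Cl.add (hK : 4 ≤ K) (ht0 : 0 ≤ t) (h : Cl K t r m f f0) (h' : Cl K t r n g g0) :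
    Cl K t r (max m n + 1) (f + g) (f0 + g0) := by
  have hp : K ^ m + K ^ n ≤ K ^ (max m n + 1) := pow_sum_le hK
  refine ⟨(h.1.add h'.1).mono le_rfl hp, ?_⟩
  refine ((h.2.add h'.2).mono le_rfl ?_).congr fun θ => by
    simp only [Pi.add_apply, Pi.sub_apply]; ring
  rw [← add_mul]
  exact mul_le_mul_of_nonneg_right hp ht0

theorem Cl.neg (h : Cl K t r m f f0) : Cl K t r m (-f) (-f0) := by
  refine ⟨h.1.neg, ?_⟩
  refine h.2.neg.congr fun θ => by simp only [Pi.neg_apply, Pi.sub_apply]; ring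

theorem Cl.sub (hK : 4 ≤ K) (ht0 : 0 ≤ t) (h : Cl K t r m f f0) (h' : Cl K t r n g g0) :
    Cl K t r (max m n + 1) (f - g) (f0 - g0) := by
  rw [sub_eq_add_neg, sub_eq_add_neg]; exact h.add hK ht0 h'.neg

theorem Cl.mul (hK : 4 ≤ K) (ht0 : 0 ≤ t) (ht1 : t ≤ 1) (hr : 0 ≤ r) (h : Cl K t r m f f0)
    (h' : Cl K t r n g g0) : Cl K t r (m + n + 2) (f * g) (f0 * g0) := by
  have hm : 0 ≤ K ^ m := pow_nonneg (by linarith) _
  have hn : 0 ≤ K ^ n := pow_nonneg (by linarith) _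
  constructor
  · refine (h.1.mul hr h'.1).mono le_rfl ?_
    rw [← pow_add]
    exact pow_le_pow_right₀ (by linarith) (by omega)
  · have h1 := (h.2.mul hr (h'.bd hK ht1)).add (h.1.mul hr h'.2)
    refine (h1.mono le_rfl ?_).congr fun θ => by
      simp only [Pi.add_apply, Pi.sub_apply, Pi.mul_apply]; ring
    have e : K ^ (m + n + 2) = K ^ m * K ^ n * K * K := by rw [pow_add, pow_add]; ring
    rw [e, pow_succ]
    have h2 : 0 ≤ K ^ m * K ^ n * t := by positivity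
    nlinarith [mul_nonneg h2 (by linarith : 0 ≤ K), mul_nonneg h2 (by nlinarith : 0 ≤ K * K - K - 1)]

theorem Cl.const {a b : ℝ} (h1 : |b| ≤ K ^ n) (h2 : |a - b| ≤ K ^ n * t) :
    Cl K t r n (fun _ => a) (fun _ => b) := by
  refine ⟨(Bd.const r b).mono le_rfl h1, ?_⟩
  exact ((Bd.const r (a - b)).mono le_rfl h2).congr fun θ => rfl

theorem Cl.refl (h : Cl K t r m f f0) : Cl K t r m (fun θ => f (-θ)) (fun θ => f0 (-θ)) :=
  ⟨h.1.refl, h.2.refl⟩

theorem Cl.refl1 (h : Cl K t r m f f0) (ω : ℝ) :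
    Cl K t r m (fun θ => f (-θ - ω)) (fun θ => f0 (-θ - ω)) :=
  ⟨h.1.refl1 ω, h.2.refl1 ω⟩

theorem Cl.shift (h : Cl K t r m f f0) (ω : ℝ) :
    Cl K t r m (fun θ => f (θ + ω)) (fun θ => f0 (θ + ω)) :=
  ⟨h.1.shift ω, h.2.shift ω⟩

theorem Cl.half (hK : 4 ≤ K) (ht0 : 0 ≤ t) (h : Cl K t r m f f0) :
    Cl K t r m (fun θ => 1 / 2 * f θ) (fun θ => 1 / 2 * f0 θ) := by
  have hm : 0 ≤ K ^ m := pow_nonneg (by linarith) _
  refine ⟨(h.1.smul (1 / 2)).mono le_rfl ?_, ?_⟩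
  · rw [abs_of_pos (by norm_num : (0:ℝ) < 1 / 2)]; linarith
  · refine ((h.2.smul (1 / 2)).mono le_rfl ?_).congr fun θ => by
      simp only [Pi.sub_apply]; ring
    have : 0 ≤ K ^ m * t := by positivity
    rw [abs_of_pos (by norm_num : (0:ℝ) < 1 / 2)]; linarith

theorem Cl.abs_le (hr : 0 ≤ r) (h : Cl K t r n f f0) (θ : ℝ) : |f θ - f0 θ| ≤ K ^ n * t := by
  have := h.2.abs_le hr θ
  simpa using this

/-- inverse of a function close to `1` -/
theorem Cl.inv_one (hK : 4 ≤ K) (hr : 0 ≤ r) (h : Bd r (K ^ n * t) (fun θ => f θ - 1))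
    (hs : K ^ n * t ≤ 1 / 2) : Cl K t r (n + 1) (fun θ => 1 / f θ) (fun _ => 1) := by
  constructor
  · refine (Bd.const r 1).mono le_rfl ?_
    rw [abs_one]
    exact one_le_pow₀ (by linarith)
  · have h0 := h.nonneg
    refine ((h.inv hr hs).mono le_rfl ?_).congr fun θ => by
      simp only [Pi.sub_apply]
      rw [add_sub_cancel]
    rw [pow_succ]
    nlinarith

/-- the rotation number -/
noncomputable def om : ℝ := 2 * Real.pi * (√2 - 1)
noncomputable def al : ℝ := om / 4 + Real.pi / 4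
noncomputable def ka : ℝ := 2 * Real.sin (om / 2)
noncomputable def s0 : ℝ → ℝ := fun θ => Real.cos (θ + al)
noncomputable def u0 : ℝ → ℝ := fun θ => -Real.sin (θ + al)
noncomputable def sg : ℝ := Real.sin (2 * al)

theorem sqrt2_bounds : 1.41 < √2 ∧ √2 < 1.42 := by
  constructor
  · exact Real.lt_sqrt_of_sq_lt (by norm_num)
  · rw [Real.sqrt_lt' (by norm_num)]; norm_num

theorem om_bounds : 0 < om ∧ om < Real.pi := by
  obtain ⟨h1, h2⟩ := sqrt2_bounds
  have hpi := Real.pi_pos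
  unfold om
  constructor <;> nlinarith

theorem sg_eq : sg = Real.cos (om / 2) := by
  rw [sg, al, show 2 * (om / 4 + Real.pi / 4) = om / 2 + Real.pi / 2 by ring, Real.sin_add_pi_div_two]

theorem sg_pos : 0 < sg := by
  rw [sg_eq]
  obtain ⟨h1, h2⟩ := om_bounds
  apply Real.cos_pos_of_mem_Ioo
  constructor <;> linarith

theorem sg_le : sg ≤ 1 := Real.sin_le_one _

theorem ka_abs : |ka| ≤ 2 := by
  rw [ka, abs_mul, abs_two]
  have := Real.abs_sin_le_one (om / 2)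
  linarith

/-- the linear relation satisfied by `s0` -/
theorem s0_rel (θ : ℝ) : s0 (-θ - om) - s0 (-θ) = ka * s0 θ := by
  simp only [s0, ka]
  have h1 : -θ - om + al = -(θ + om - al) := by ring
  have h2 : -θ + al = -(θ - al) := by ring
  rw [h1, h2, Real.cos_neg, Real.cos_neg, Real.cos_sub_cos]
  have e1 : (θ + om - al + (θ - al)) / 2 = θ + al - Real.pi / 2 := by unfold al; ring
  have e2 : (θ + om - al - (θ - al)) / 2 = om / 2 := by ring
  rw [e1, e2, Real.sin_sub_pi_div_two]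
  ring

theorem u0s0 (θ : ℝ) : u0 θ * s0 (-θ) + u0 (-θ) * s0 θ = -sg := by
  simp only [u0, s0, sg]
  have h2 : -θ + al = -(θ - al) := by ring
  rw [h2, Real.cos_neg, Real.sin_neg]
  have h3 := Real.sin_sub (θ + al) (θ - al)
  rw [show θ + al - (θ - al) = 2 * al by ring] at h3
  rw [h3]
  ring

theorem avg_cos_sq : avg (fun θ => s0 θ * s0 θ) = 1 / 2 := by
  have hpi := Real.pi_pos
  have h1 : ∫ θ in (0:ℝ)..(2 * Real.pi), s0 θ * s0 θ = Real.pi := by
    have e : ∀ θ, s0 θ * s0 θ = (fun x => Real.cos x ^ 2) (θ + al) := fun θ => by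
      simp only [s0]; ring
    simp only [e]
    rw [intervalIntegral.integral_comp_add_right (fun x => Real.cos x ^ 2) al, integral_cos_sq]
    rw [show 2 * Real.pi + al = al + 2 * Real.pi by ring, Real.cos_add_two_pi, Real.sin_add_two_pi, zero_add]
    ring
  rw [avg, h1]
  field_simp

theorem Rep.ex' (r : ℝ) (j : ℤ) : Rep r (wt r j) (fun k => if k = j then 1 else 0) (ex j) := by
  have he : (fun k : ℤ => ‖(if k = j then 1 else 0 : ℂ)‖ * wt r k) = fun k => if k = j then wt r j else 0 := by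
    funext k
    by_cases hk : k = j
    · simp [hk]
    · simp [hk]
  refine ⟨?_, ?_, fun θ => ?_⟩
  · rw [he]; exact (hasSum_ite_eq j (wt r j)).summable
  · rw [he, tsum_ite_eq]
  · have he2 : (fun k : ℤ => (if k = j then 1 else 0 : ℂ) * ex k θ) = fun k => if k = j then ex j θ else 0 := by
      funext k
      by_cases hk : k = j
      · simp [hk]
      · simp [hk]
    rw [he2]
    exact hasSum_ite_eq j (ex j θ)

theorem Bd_cos (hr1 : r ≤ 1) (a : ℝ) : Bd r 3 (fun θ => Real.cos (θ + a)) := by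
  have h1 := ((Rep.ex' r 1).shift a).add ((Rep.ex' r (-1)).shift a)
  have h2 := h1.smul (1 / 2)
  have h3 : ∀ θ, (1 / 2 : ℂ) * (ex 1 (θ + a) + ex (-1) (θ + a)) = ((Real.cos (θ + a) : ℝ) : ℂ) := fun θ => by
    rw [ex, ex, Complex.ofReal_cos, Complex.cos]
    push_cast
    ring_nf
  refine (h2.mono le_rfl ?_).toBd h3
  have hw : wt r 1 ≤ 3 := by
    unfold wt
    have : r * |((1:ℤ) : ℝ)| ≤ 1 := by simpa using hr1
    have h5 := Real.exp_le_exp.2 this
    have h6 := Real.exp_one_lt_d9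
    linarith
  have hw' : wt r (-1) = wt r 1 := wt_neg r 1
  rw [hw', norm_div, norm_one, Complex.norm_ofNat]
  linarith

theorem Bd_s0 (hr1 : r ≤ 1) : Bd r 3 s0 := Bd_cos hr1 al

theorem Bd_u0 (hr1 : r ≤ 1) : Bd r 3 u0 :=
  (Bd_cos hr1 (al + Real.pi / 2)).congr fun θ => by
    rw [u0, ← add_assoc, Real.cos_add_pi_div_two]

end Pool.Agent.Helper822.KAM
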