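import Pool.Agent.Helper822.KAM.Close

namespace Pool.Agent.Helper822.KAM

/-- the system attached to `s`, with the inverses filled in -/
noncomputable def mk (η k : ℝ) (s u : ℝ → ℝ) : Sys where
  η := η
  k := k
  ω := om
  s := s
  u := u
  v1 := fun θ => 1 / (1 + η * (s θ * s (-θ)))
  v2 := fun θ => 1 / (1 + η * (s θ * s (-θ - om)))
  φ := fun θ => 1 / ((1 / (1 + η * (s θ * s (-θ))) * (1 / (1 + η * (s θ * s (-θ)))))
    * (u θ * s (-θ) + u (-θ) * s θ))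

theorem abs_pos_of_close {x M : ℝ} (h : |x - 1| ≤ M) (hM : M ≤ 1 / 2) : x ≠ 0 := by
  intro h0
  rw [h0, zero_sub, abs_neg, abs_one] at h
  linarith

set_option maxHeartbeats 4000000 in
theorem valid_of_close : ∃ K t0 : ℝ, 4 ≤ K ∧ 0 < t0 ∧ t0 ≤ 1 ∧ ∀ (η lam r : ℝ) (s u : ℝ → ℝ),
    0 ≤ η → η ≤ t0 → |lam| ≤ t0 → 0 ≤ r → r ≤ 1 → (∀ θ, HasDerivAt s (u θ) θ) →
    Bd r t0 (s - s0) → Bd r t0 (u - u0) → (mk η (ka + lam) s u).Valid r K ∧ |ka + lam| ≤ K := by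
  have hsg := sg_pos
  have hsg1 := sg_le
  obtain ⟨K, hKdef⟩ : ∃ K : ℝ, K = 4 + 2 / sg := ⟨_, rfl⟩
  have h2sg : 0 < 2 / sg := by positivity
  have hK : 4 ≤ K := by linarith
  have hK2 : 1 / sg ≤ K := by
    have : 1 / sg ≤ 2 / sg := div_le_div_of_nonneg_right (by norm_num) hsg.le
    linarith
  obtain ⟨t, htdef⟩ : ∃ t : ℝ, t = 1 / (4 * K ^ 300) := ⟨_, rfl⟩
  have hK300 : 1 ≤ K ^ 300 := one_le_pow₀ (by linarith)
  have ht0' : 0 < t := by rw [htdef]; positivity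
  have ht0 : 0 ≤ t := ht0'.le
  have ht1 : t ≤ 1 := by
    rw [htdef, div_le_one (by positivity)]; linarith
  have hsmall : ∀ n : ℕ, n ≤ 300 → K ^ n * t ≤ 1 / 4 := fun n hn => by
    have h1 : K ^ n ≤ K ^ 300 := pow_le_pow_right₀ (by linarith) hn
    calc K ^ n * t ≤ K ^ 300 * t := mul_le_mul_of_nonneg_right h1 ht0
      _ = 1 / 4 := by rw [htdef]; field_simp
  have hsmall2 : ∀ n : ℕ, n ≤ 300 → K ^ n * t ≤ 1 / 2 := fun n hn => (hsmall n hn).trans (by norm_num)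
  have hone : ∀ n : ℕ, 1 ≤ K ^ n := fun n => one_le_pow₀ (by linarith)
  refine ⟨K ^ 32, t, ?_, ht0', ht1, ?_⟩
  · calc (4:ℝ) ≤ K := hK
      _ = K ^ 1 := (pow_one K).symm
      _ ≤ K ^ 32 := pow_le_pow_right₀ (by linarith) (by norm_num)
  intro η lam r s u hη0 hη1 hlam hr hr1 hsu hs hu
  obtain ⟨S, hS⟩ : ∃ S : Sys, S = mk η (ka + lam) s u := ⟨_, rfl⟩
  rw [← hS]
  have Sη : S.η = η := by rw [hS]; rfl
  have Sk : S.k = ka + lam := by rw [hS]; rfl
  have Sω : S.ω = om := by rw [hS]; rfl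
  have Ss : S.s = s := by rw [hS]; rfl
  have Su : S.u = u := by rw [hS]; rfl
  have Sv1 : S.v1 = fun θ => 1 / (1 + S.η * (S.s θ * S.s1 θ)) := by rw [hS]; rfl
  have Sv2 : S.v2 = fun θ => 1 / (1 + S.η * (S.s θ * S.s2 θ)) := by rw [hS]; rfl
  have Sφ : S.φ = fun θ => 1 / (S.w1 θ * (S.u θ * S.s1 θ + S.u1 θ * S.s θ)) := by rw [hS]; rfl
  have k3 : (3:ℝ) ≤ K ^ 1 := by rw [pow_one]; linarith
  have cs : Cl K t r 1 S.s s0 := by
    rw [Ss]
    exact ⟨(Bd_s0 hr1).mono le_rfl k3, hs.mono le_rfl (le_mul_of_one_le_left ht0 (hone 1))⟩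
  have cu : Cl K t r 1 S.u u0 := by
    rw [Su]
    exact ⟨(Bd_u0 hr1).mono le_rfl k3, hu.mono le_rfl (le_mul_of_one_le_left ht0 (hone 1))⟩
  have cs1 : Cl K t r 1 S.s1 (fun θ => s0 (-θ)) := cs.refl
  have cs2 : Cl K t r 1 S.s2 (fun θ => s0 (-θ - om)) := by
    have := cs.refl1 S.ω
    rw [Sω] at this
    have e : S.s2 = fun θ => S.s (-θ - om) := by rw [← Sω]; rfl
    rw [e]; exact this
  have cu1 : Cl K t r 1 S.u1 (fun θ => u0 (-θ)) := cu.refl
  have cη : Cl K t r 0 (fun _ => S.η) (fun _ => 0) := by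
    refine Cl.const ?_ ?_
    · rw [abs_zero]; positivity
    · rw [sub_zero, Sη, abs_of_nonneg hη0, pow_zero, one_mul]; exact hη1
  have cone : Cl K t r 0 (fun _ => (1:ℝ)) (fun _ => 1) := by
    refine Cl.const ?_ ?_
    · rw [abs_one, pow_zero]
    · rw [sub_self, abs_zero]; positivity
  have ck : Cl K t r 1 (fun _ => S.k) (fun _ => ka) := by
    refine Cl.const ?_ ?_
    · rw [pow_one]; exact ka_abs.trans (by linarith)
    · rw [Sk, add_sub_cancel_left]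
      exact hlam.trans (le_mul_of_one_le_left ht0 (hone 1))
  have cm1 : Cl K t r 7 ((fun _ => (1:ℝ)) + (fun _ => S.η) * (S.s * S.s1)) _ :=
    (cone.add hK ht0 (cη.mul hK ht0 ht1 hr (cs.mul hK ht0 ht1 hr cs1))).up hK ht0 (by norm_num)
  have cm2 : Cl K t r 7 S.m2 _ :=
    (cone.add hK ht0 (cη.mul hK ht0 ht1 hr (cs.mul hK ht0 ht1 hr cs2))).up hK ht0 (by norm_num)
  have dm1 : Bd r (K ^ 7 * t) (fun θ => (1 + S.η * (S.s θ * S.s1 θ)) - 1) :=
    cm1.2.congr fun θ => by simp only [Pi.sub_apply, Pi.add_apply, Pi.mul_apply]; ring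
  have dm2 : Bd r (K ^ 7 * t) (fun θ => (1 + S.η * (S.s θ * S.s2 θ)) - 1) :=
    cm2.2.congr fun θ => by simp only [Sys.m2, Pi.sub_apply, Pi.add_apply, Pi.mul_apply]; ring
  have cv1 : Cl K t r 8 S.v1 (fun _ => 1) := by
    rw [Sv1]; exact Cl.inv_one hK hr dm1 (hsmall2 7 (by norm_num))
  have cv2 : Cl K t r 8 S.v2 (fun _ => 1) := by
    rw [Sv2]; exact Cl.inv_one hK hr dm2 (hsmall2 7 (by norm_num))
  have hv1 : ∀ θ, S.v1 θ * (1 + S.η * (S.s θ * S.s1 θ)) = 1 := fun θ => by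
    rw [Sv1]
    exact one_div_mul_cancel (abs_pos_of_close (dm1.abs_le hr θ) (hsmall2 7 (by norm_num)))
  have hv2 : ∀ θ, S.v2 θ * (1 + S.η * (S.s θ * S.s2 θ)) = 1 := fun θ => by
    rw [Sv2]
    exact one_div_mul_cancel (abs_pos_of_close (dm2.abs_le hr θ) (hsmall2 7 (by norm_num)))
  have cw1 : Cl K t r 18 S.w1 (fun _ => 1) :=
    (cv1.mul hK ht0 ht1 hr cv1).congr fun θ => by simp
  have cw2 : Cl K t r 18 S.w2 (fun _ => 1) :=
    (cv2.mul hK ht0 ht1 hr cv2).congr fun θ => by simp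
  have cw2i : Cl K t r 16 S.w2i (fun _ => 1) :=
    (cm2.mul hK ht0 ht1 hr cm2).congr fun θ => by
      simp only [Pi.add_apply, Pi.mul_apply]; ring
  -- the function d
  have cd : Cl K t r 25 (S.w1 * (S.u * S.s1 + S.u1 * S.s)) (fun _ => -sg) :=
    (cw1.mul hK ht0 ht1 hr ((cu.mul hK ht0 ht1 hr cs1).add hK ht0 (cu1.mul hK ht0 ht1 hr cs))).congr
      fun θ => by
        simp only [Pi.add_apply, Pi.mul_apply]
        rw [u0s0, one_mul]
  have df : Bd r (K ^ 26 * t) (fun θ => (-1 / sg * (S.w1 θ * (S.u θ * S.s1 θ + S.u1 θ * S.s θ))) - 1) := by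
    have h1 := cd.2.smul (-1 / sg)
    refine (h1.mono le_rfl ?_).congr fun θ => ?_
    · rw [neg_div, abs_neg, abs_of_pos (by positivity : 0 < 1 / sg)]
      have h0 : 0 ≤ K ^ 25 * t := by positivity
      calc 1 / sg * (K ^ 25 * t) ≤ K * (K ^ 25 * t) := mul_le_mul_of_nonneg_right hK2 h0
        _ = K ^ 26 * t := by ring
    · simp only [Pi.sub_apply, Pi.add_apply, Pi.mul_apply]
      field_simp
      ring
  have hd0 : ∀ θ, S.w1 θ * (S.u θ * S.s1 θ + S.u1 θ * S.s θ) ≠ 0 := fun θ h0 => by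
    have := abs_pos_of_close (df.abs_le hr θ) (hsmall2 26 (by norm_num))
    rw [h0, mul_zero] at this
    exact this rfl
  have hφ : ∀ θ, S.φ θ * (S.w1 θ * (S.u θ * S.s1 θ + S.u1 θ * S.s θ)) = 1 := fun θ => by
    rw [Sφ]; exact one_div_mul_cancel (hd0 θ)
  have cφ : Cl K t r 30 S.φ (fun _ => -1 / sg) := by
    have c0 : Cl K t r 1 (fun _ => -1 / sg) (fun _ => -1 / sg) := by
      refine Cl.const ?_ ?_
      · rw [neg_div, abs_neg, abs_of_pos (by positivity : 0 < 1 / sg), pow_one]; exact hK2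
      · rw [sub_self, abs_zero]; positivity
    have c1 := c0.mul hK ht0 ht1 hr (Cl.inv_one hK hr df (hsmall2 26 (by norm_num)))
    have e : S.φ = (fun _ => -1 / sg) * fun θ => 1 / (-1 / sg * (S.w1 θ * (S.u θ * S.s1 θ + S.u1 θ * S.s θ))) := by
      funext θ
      rw [Sφ]
      simp only [Pi.mul_apply]
      have := hd0 θ
      field_simp
    rw [e]
    exact c1.congr fun θ => by simp
  have cφp : Cl K t r 30 S.φp (fun _ => -1 / sg) := cφ.shift S.ω
  have cb : Cl K t r 28 S.b (fun _ => -ka) :=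
    ((((((cη.mul hK ht0 ht1 hr (cs2.mul hK ht0 ht1 hr cs2)).mul hK ht0 ht1 hr cw2).neg).add hK ht0
      ((cη.mul hK ht0 ht1 hr (cs1.mul hK ht0 ht1 hr cs1)).mul hK ht0 ht1 hr cw1)).sub hK ht0 ck).up hK ht0
      (by norm_num)).congr fun θ => by
        simp only [Pi.add_apply, Pi.mul_apply, Pi.sub_apply, Pi.neg_apply]; ring
  have cc : Cl K t r 64 S.c (fun θ => 1 / sg * s0 (-θ - om)) :=
    (((((cb.mul hK ht0 ht1 hr cs).sub hK ht0 (cw1.mul hK ht0 ht1 hr cs1)).mul hK ht0 ht1 hr cφ)).up hK ht0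
      (by norm_num)).congr fun θ => by
        simp only [Pi.mul_apply, Pi.sub_apply]
        linear_combination (-1 / sg) * s0_rel θ
  have cws : Cl K t r 53 (S.w2 * S.s2 * S.φp) (fun θ => -1 / sg * s0 (-θ - om)) :=
    ((cw2.mul hK ht0 ht1 hr cs2).mul hK ht0 ht1 hr cφp).congr fun θ => by
      simp only [Pi.mul_apply]; ring
  have cY : Cl K t r 65 S.Y (fun θ => -1 / sg * s0 (-θ - om)) :=
    (((cws.sub hK ht0 cc).half hK ht0).up hK ht0 (by norm_num)).congr fun θ => by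
      simp only [Pi.sub_apply]; ring
  have cZ : Cl K t r 65 S.Z (fun _ => 0) :=
    ((cws.add hK ht0 cc).up hK ht0 (by norm_num)).congr fun θ => by
      simp only [Pi.add_apply]; ring
  have cY2 : Cl K t r 65 S.Y2 (fun θ => -1 / sg * s0 θ) := by
    have := cY.refl1 S.ω
    have e : (fun θ => -1 / sg * s0 (-(-θ - S.ω) - om)) = fun θ => -1 / sg * s0 θ := by
      funext θ; rw [Sω]; congr 2; ring
    rw [e] at this
    exact this
  have cZ2 : Cl K t r 65 S.Z2 (fun _ => 0) := cZ.refl1 S.ω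
  have cT : Cl K t r 151 S.T (fun _ => 0) :=
    (((cZ.mul hK ht0 ht1 hr cY2).add hK ht0 (cY.mul hK ht0 ht1 hr cZ2)).mul hK ht0 ht1 hr cw2i).congr
      fun θ => by simp only [Pi.add_apply, Pi.mul_apply]; ring
  have ca1 : Cl K t r 87 (-((S.s * S.Y2 + S.Y * S.s2) * S.w2i))
      (fun θ => 1 / sg * (s0 θ * s0 θ + s0 (-θ - om) * s0 (-θ - om))) :=
    ((((cs.mul hK ht0 ht1 hr cY2).add hK ht0 (cY.mul hK ht0 ht1 hr cs2)).mul hK ht0 ht1 hr cw2i).neg).congr
      fun θ => by simp only [Pi.add_apply, Pi.mul_apply, Pi.neg_apply]; ring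
  have hKK : ∀ n : ℕ, n ≤ 32 → K ^ n ≤ K ^ 32 := fun n hn => pow_le_pow_right₀ (by linarith) hn
  refine ⟨⟨?_, ?_, ?_, ?_, ?_, ?_, hv1, hv2, hφ, ?_⟩, ?_⟩
  · rw [Ss, Su]; exact hsu
  · exact (cs.bd hK ht1).mono le_rfl (hKK _ (by norm_num))
  · exact (cu.bd hK ht1).mono le_rfl (hKK _ (by norm_num))
  · exact (cv1.bd hK ht1).mono le_rfl (hKK _ (by norm_num))
  · exact (cv2.bd hK ht1).mono le_rfl (hKK _ (by norm_num))
  · exact (cφ.bd hK ht1).mono le_rfl (hKK _ (by norm_num))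
  · intro β hβ hβ2
    obtain ⟨Bs, hBs⟩ : ∃ Bs : ℝ → ℝ, Bs = fun θ => 1 / 2 * (β (θ + S.ω) + β θ) := ⟨_, rfl⟩
    rw [← hBs]
    have bBs : Bd 0 (K ^ 96) Bs := by
      have h1 := (((hβ.shift S.ω).add hβ).smul (1 / 2))
      rw [hBs]
      refine (h1.mono le_rfl ?_).congr fun θ => rfl
      rw [abs_of_pos (by norm_num : (0:ℝ) < 1 / 2)]
      have : (K ^ 32) ^ 3 = K ^ 96 := by ring
      rw [this]; linarith
    have bT : Bd 0 (K ^ 151 * t) S.T := (cT.2.mono hr le_rfl).congr fun θ => by simp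
    have bTB : Bd 0 (K ^ 151 * t * K ^ 96) (S.T * Bs) := bT.mul le_rfl bBs
    have c0 : Continuous s0 := (Bd_s0 (r := 0) (by norm_num)).cont le_rfl
    have cg : Continuous (fun θ => s0 θ * s0 θ) := c0.mul c0
    have bg : Bd 0 9 (fun θ => s0 θ * s0 θ) := by
      have := (Bd_s0 (r := 0) (by norm_num)).mul le_rfl (Bd_s0 (r := 0) (by norm_num))
      exact this.mono le_rfl (by norm_num)
    have cg2 : Continuous (fun θ => s0 (-θ - om) * s0 (-θ - om)) := (bg.refl1 om).cont le_rfl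
    have avg0 : avg (fun θ => 1 / sg * (s0 θ * s0 θ + s0 (-θ - om) * s0 (-θ - om))) = 1 / sg := by
      rw [avg_smul]
      have : avg (fun θ => s0 θ * s0 θ + s0 (-θ - om) * s0 (-θ - om)) = 1 := by
        have h1 := avg_add cg cg2
        have h2 := bg.avg_refl1 le_rfl om
        rw [h2, avg_cos_sq] at h1
        have h3 : avg (fun θ => s0 θ * s0 θ + s0 (-θ - om) * s0 (-θ - om)) = 1 / 2 + 1 / 2 := h1
        rw [h3]; norm_num
      rw [this, mul_one]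
    have bdiff := (ca1.2.mono hr le_rfl).add bTB
    have havg1 : |avg ((-((S.s * S.Y2 + S.Y * S.s2) * S.w2i) -
        fun θ => 1 / sg * (s0 θ * s0 θ + s0 (-θ - om) * s0 (-θ - om))) + S.T * Bs)| ≤ 1 / 2 := by
      refine (abs_avg_le fun θ => bdiff.abs_le le_rfl θ).trans ?_
      have h1 := hsmall 87 (by norm_num)
      have h2 := hsmall 247 (by norm_num)
      have h3 : K ^ 151 * t * K ^ 96 = K ^ 247 * t := by ring
      rw [h3]; linarith
    have hdec : S.af S.s S.s2 Bs = ((-((S.s * S.Y2 + S.Y * S.s2) * S.w2i) -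
        fun θ => 1 / sg * (s0 θ * s0 θ + s0 (-θ - om) * s0 (-θ - om))) + S.T * Bs)
        + fun θ => 1 / sg * (s0 θ * s0 θ + s0 (-θ - om) * s0 (-θ - om)) := by
      funext θ
      simp only [Sys.af, Pi.add_apply, Pi.mul_apply, Pi.neg_apply, Pi.sub_apply]
      ring
    have cD := bdiff.cont le_rfl
    have cF : Continuous (fun θ => 1 / sg * (s0 θ * s0 θ + s0 (-θ - om) * s0 (-θ - om))) :=
      continuous_const.mul (cg.add cg2)
    rw [hdec, avg_add cD cF, avg0]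
    have h1sg : 1 ≤ 1 / sg := by rw [le_div_iff₀ hsg]; linarith
    have h5 := (abs_le.1 havg1).1
    rw [abs_of_nonneg (by linarith)]
    linarith
  · have h1 := abs_add_le ka lam
    have h2 := ka_abs
    have h3 : (4:ℝ) ≤ K ^ 32 := by
      calc (4:ℝ) ≤ K := hK
        _ = K ^ 1 := (pow_one K).symm
        _ ≤ K ^ 32 := pow_le_pow_right₀ (by linarith) (by norm_num)
    linarith

end Pool.Agent.Helper822.KAM
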