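import Mathlib

namespace Pool.Agent.Helper822.KAM

/-- small divisors for the rotation by `2π(√2-1)` -/
theorem kam_small_div (k : ℤ) (hk : k ≠ 0) :
    1 / |(k : ℝ)| ≤ ‖Complex.exp (((k : ℝ) * (2 * Real.pi * (Real.sqrt 2 - 1)) : ℝ) * Complex.I) - 1‖ := by
  set s := Real.sqrt 2 with hs
  have hs2 : s ^ 2 = 2 := Real.sq_sqrt (by norm_num)
  have hs0 : 0 ≤ s := Real.sqrt_nonneg 2
  have hs1 : s < 1.42 := by
    by_contra h
    push Not at h
    nlinarith
  have hk1 : 1 ≤ |(k : ℝ)| := by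
    have : 1 ≤ |k| := Int.one_le_abs hk
    exact_mod_cast this
  rw [mul_comm _ Complex.I, Complex.norm_exp_I_mul_ofReal_sub_one]
  set m := round ((k : ℝ) * s) with hm
  have hr := abs_sub_round ((k : ℝ) * s)
  rw [← hm] at hr
  set y := (k : ℝ) * s - m with hy
  have hpi := Real.pi_pos
  have hsin : |Real.sin ((k : ℝ) * (2 * Real.pi * (s - 1)) / 2)| = |Real.sin (Real.pi * y)| := by
    have e : (k : ℝ) * (2 * Real.pi * (s - 1)) / 2 = Real.pi * y + ((m - k : ℤ) : ℝ) * Real.pi := by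
      rw [hy]; push_cast; ring
    rw [e, Real.sin_add_int_mul_pi, abs_mul, abs_zpow, abs_neg, abs_one, one_zpow, one_mul]
  have hjord : 2 * |y| ≤ |Real.sin (Real.pi * y)| := by
    have h1 : |Real.pi * y| ≤ Real.pi / 2 := by
      rw [abs_mul, abs_of_pos hpi]
      nlinarith
    have h2 := Real.mul_abs_le_abs_sin h1
    rw [abs_mul, abs_of_pos hpi] at h2
    have e : 2 / Real.pi * (Real.pi * |y|) = 2 * |y| := by field_simp
    rw [e] at h2
    exact h2
  rw [norm_mul, Real.norm_eq_abs, Real.norm_eq_abs, hsin, abs_of_pos (by norm_num : (0 : ℝ) < 2)]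
  have hprod : 1 ≤ |y| * |(k : ℝ) * s + m| := by
    rw [← abs_mul]
    have e : y * ((k : ℝ) * s + m) = ((2 * k ^ 2 - m ^ 2 : ℤ) : ℝ) := by
      rw [hy]; push_cast
      linear_combination ((k : ℝ) ^ 2) * hs2
    rw [e, ← Int.cast_abs]
    have hne : (2 * k ^ 2 - m ^ 2 : ℤ) ≠ 0 := by
      intro h0
      have h1 : ((k : ℝ) * s - m) * ((k : ℝ) * s + m) = 0 := by
        have : ((k : ℝ) * s - m) * ((k : ℝ) * s + m) = ((2 * k ^ 2 - m ^ 2 : ℤ) : ℝ) := e
        rw [this, h0]; simp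
      have hkR : (k : ℝ) ≠ 0 := by exact_mod_cast hk
      have hirr : Irrational s := irrational_sqrt_two
      rcases mul_eq_zero.1 h1 with h | h
      · apply hirr
        refine ⟨(m : ℚ) / k, ?_⟩
        push_cast
        rw [div_eq_iff hkR]
        linarith
      · apply hirr
        refine ⟨-(m : ℚ) / k, ?_⟩
        push_cast
        rw [div_eq_iff hkR]
        linarith
    have : 1 ≤ |(2 * k ^ 2 - m ^ 2 : ℤ)| := Int.one_le_abs hne
    exact_mod_cast this
  have hup : |(k : ℝ) * s + m| ≤ 3.34 * |(k : ℝ)| := by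
    have e : (k : ℝ) * s + m = 2 * ((k : ℝ) * s) - y := by rw [hy]; ring
    rw [e]
    calc |2 * ((k : ℝ) * s) - y| ≤ |2 * ((k : ℝ) * s)| + |y| := abs_sub _ _
      _ ≤ 2 * (|(k : ℝ)| * 1.42) + 1 / 2 := by
          apply add_le_add _ hr
          rw [abs_mul, abs_mul, abs_of_nonneg hs0, abs_of_pos (by norm_num : (0 : ℝ) < 2)]
          nlinarith
      _ ≤ 3.34 * |(k : ℝ)| := by linarith
  have hy0 : 0 ≤ |y| := abs_nonneg y
  rw [div_le_iff₀ (by linarith)]
  have h3 : 1 ≤ |y| * (3.34 * |(k : ℝ)|) :=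
    hprod.trans (mul_le_mul_of_nonneg_left hup hy0)
  have h4 : |y| * (3.34 * |(k : ℝ)|) ≤ 2 * |Real.sin (Real.pi * y)| * |(k : ℝ)| := by
    have : 3.34 * |y| ≤ 2 * |Real.sin (Real.pi * y)| := by linarith
    nlinarith
  linarith

end Pool.Agent.Helper822.KAM
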