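import Mathlib

open Real Set MeasureTheory

namespace Pool.Agent.Helper822.KAM.Geo

/-- direction `(cos θ, sin θ)` -/
noncomputable def dir (θ : ℝ) : EuclideanSpace ℝ (Fin 2) := !₂[cos θ, sin θ]

/-- length of `K ∩ ℓ(x,θ)` -/
noncomputable def chord (K : Set (EuclideanSpace ℝ (Fin 2))) (x : EuclideanSpace ℝ (Fin 2)) (θ : ℝ) :
    ENNReal := volume {r : ℝ | x + r • dir θ ∈ K}

/-- closed curve `(X,Y)` with velocity `(X',Y')`, injective on a period, every tangent line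
supports the whole curve and touches it only at the point of tangency. -/
structure Oval (X Y X' Y' : ℝ → ℝ) : Prop where
  dX : ∀ θ, HasDerivAt X (X' θ) θ
  dY : ∀ θ, HasDerivAt Y (Y' θ) θ
  perX : ∀ θ, X (θ + 2 * π) = X θ
  perY : ∀ θ, Y (θ + 2 * π) = Y θ
  inj : ∀ θ φ, X φ = X θ → Y φ = Y θ → cos (φ - θ) = 1
  supp : ∀ θ, ∃ m n : ℝ, m * X' θ + n * Y' θ = 0 ∧
    ∀ φ, cos (φ - θ) ≠ 1 → 0 < m * (X φ - X θ) + n * (Y φ - Y θ)
  reg : ∀ θ, X' θ ≠ 0 ∨ Y' θ ≠ 0

/-- region bounded by the oval -/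
def body (X Y : ℝ → ℝ) : Set (EuclideanSpace ℝ (Fin 2)) :=
  convexHull ℝ (range fun θ => (!₂[X θ, Y θ] : EuclideanSpace ℝ (Fin 2)))

lemma isLin (m n : ℝ) : IsLinearMap ℝ (fun z : EuclideanSpace ℝ (Fin 2) => m * z 0 + n * z 1) := by
  constructor
  · intro x y; simp only [PiLp.add_apply]; ring
  · intro a x; simp only [PiLp.smul_apply, smul_eq_mul]; ring

lemma body_lt {X Y : ℝ → ℝ} {m n k : ℝ} (h : ∀ θ, k < m * X θ + n * Y θ)
    {z : EuclideanSpace ℝ (Fin 2)} (hz : z ∈ body X Y) : k < m * z 0 + n * z 1 := by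
  refine convexHull_min ?_ (convex_halfSpace_gt (isLin m n) k) hz
  rintro _ ⟨θ, rfl⟩
  simpa using h θ

lemma body_le {X Y : ℝ → ℝ} {m n k : ℝ} (h : ∀ θ, k ≤ m * X θ + n * Y θ)
    {z : EuclideanSpace ℝ (Fin 2)} (hz : z ∈ body X Y) : k ≤ m * z 0 + n * z 1 := by
  refine convexHull_min ?_ (convex_halfSpace_ge (isLin m n) k) hz
  rintro _ ⟨θ, rfl⟩
  simpa using h θ

lemma mem_body (X Y : ℝ → ℝ) (θ : ℝ) :
    (!₂[X θ, Y θ] : EuclideanSpace ℝ (Fin 2)) ∈ body X Y :=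
  subset_convexHull ℝ _ ⟨θ, rfl⟩

lemma body_eq {X Y : ℝ → ℝ} {m n : ℝ} {w : EuclideanSpace ℝ (Fin 2)}
    (h : ∀ θ, m * w 0 + n * w 1 < m * X θ + n * Y θ ∨ (!₂[X θ, Y θ] : EuclideanSpace ℝ (Fin 2)) = w)
    {z : EuclideanSpace ℝ (Fin 2)} (hz : z ∈ body X Y) :
    m * w 0 + n * w 1 < m * z 0 + n * z 1 ∨ z = w := by
  have hc : Convex ℝ {z : EuclideanSpace ℝ (Fin 2) |
      m * w 0 + n * w 1 < m * z 0 + n * z 1 ∨ z = w} := by
    intro x hx y hy a b ha hb hab
    simp only [mem_ofPred_eq] at hx hy ⊢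
    have e : m * (a • x + b • y) 0 + n * (a • x + b • y) 1
        = a * (m * x 0 + n * x 1) + b * (m * y 0 + n * y 1) := by
      simp only [PiLp.add_apply, PiLp.smul_apply, smul_eq_mul]; ring
    have e2 : m * w 0 + n * w 1 = a * (m * w 0 + n * w 1) + b * (m * w 0 + n * w 1) := by
      rw [← add_mul, hab, one_mul]
    rcases hx with hx | rfl
    · rcases hy with hy | rfl
      · left
        rw [e, e2]
        rcases ha.eq_or_lt with h0 | h0
        · have : b = 1 := by linarith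
          subst h0; subst this; simpa using hy
        · have h1 := mul_lt_mul_of_pos_left hx h0
          have h2 := mul_le_mul_of_nonneg_left hy.le hb
          linarith
      · rcases ha.eq_or_lt with h0 | h0
        · right
          have : b = 1 := by linarith
          subst h0; subst this; simp
        · left
          rw [e]
          have h1 := mul_lt_mul_of_pos_left hx h0
          linarith [e2]
    · rcases hy with hy | rfl
      · rcases hb.eq_or_lt with h0 | h0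
        · right
          have : a = 1 := by linarith
          subst h0; subst this; simp
        · left
          rw [e]
          have h1 := mul_lt_mul_of_pos_left hy h0
          linarith [e2]
      · right
        rw [← add_smul, hab, one_smul]
  refine convexHull_min ?_ hc hz
  rintro _ ⟨θ, rfl⟩
  rcases h θ with h1 | h1
  · left; simpa using h1
  · right; exact h1

lemma coord0 (p1 p2 r t : ℝ) : (!₂[p1, p2] + r • dir t : EuclideanSpace ℝ (Fin 2)) 0
    = p1 + r * cos t := by simp [dir]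
lemma coord1 (p1 p2 r t : ℝ) : (!₂[p1, p2] + r • dir t : EuclideanSpace ℝ (Fin 2)) 1
    = p2 + r * sin t := by simp [dir]

/-- the line misses the body -/
lemma chord_zero_of_strict {X Y : ℝ → ℝ} (p1 p2 t m n : ℝ)
    (h : ∀ θ, 0 < m * (X θ - p1) + n * (Y θ - p2)) (hmn : m * cos t + n * sin t = 0) :
    chord (body X Y) !₂[p1, p2] t = 0 := by
  unfold chord
  have : {r : ℝ | (!₂[p1, p2] + r • dir t : EuclideanSpace ℝ (Fin 2)) ∈ body X Y} = ∅ := by
    ext r
    simp only [mem_ofPred_eq, mem_empty_iff_false, iff_false]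
    intro hr
    have := body_lt (m := m) (n := n) (k := m * p1 + n * p2) (fun θ => by linarith [h θ]) hr
    rw [coord0, coord1] at this
    have e : m * (p1 + r * cos t) + n * (p2 + r * sin t)
      = m * p1 + n * p2 + r * (m * cos t + n * sin t) := by ring
    rw [e, hmn] at this
    linarith
  rw [this, measure_empty]

/-- the line touches the body at the point with parameter `θ₁` -/
lemma chord_zero_of_touch {X Y X' Y' : ℝ → ℝ} (hK : Oval X Y X' Y') (p1 p2 t θ₁ k : ℝ)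
    (ht : 0 < sin t) (h1 : X θ₁ = p1 + k * cos t) (h2 : Y θ₁ = p2 + k * sin t)
    (hpar : X' θ₁ * sin t = Y' θ₁ * cos t) :
    chord (body X Y) !₂[p1, p2] t = 0 := by
  obtain ⟨m, n, hmn, hs⟩ := hK.supp θ₁
  have hm : m * cos t + n * sin t = 0 := by
    have hY : Y' θ₁ ≠ 0 := by
      intro h0
      rw [h0, zero_mul] at hpar
      rcases mul_eq_zero.1 hpar with h | h
      · rcases hK.reg θ₁ with h' | h'
        · exact h' h
        · exact h' h0
      · exact ht.ne' h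
    have : Y' θ₁ * (m * cos t + n * sin t) = 0 := by
      calc Y' θ₁ * (m * cos t + n * sin t) = m * (Y' θ₁ * cos t) + n * Y' θ₁ * sin t := by ring
        _ = m * (X' θ₁ * sin t) + n * Y' θ₁ * sin t := by rw [hpar]
        _ = (m * X' θ₁ + n * Y' θ₁) * sin t := by ring
        _ = 0 := by rw [hmn, zero_mul]
    exact (mul_eq_zero.1 this).resolve_left hY
  have hsub : {r : ℝ | (!₂[p1, p2] + r • dir t : EuclideanSpace ℝ (Fin 2)) ∈ body X Y} ⊆ {k} := by
    intro r hr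
    have := body_eq (m := m) (n := n) (w := !₂[X θ₁, Y θ₁]) (fun φ => by
      by_cases hc : cos (φ - θ₁) = 1
      · right
        obtain ⟨j, hj⟩ := (Real.cos_eq_one_iff _).1 hc
        have pX : Function.Periodic X (2 * π) := hK.perX
        have pY : Function.Periodic Y (2 * π) := hK.perY
        have e : φ = θ₁ + j * (2 * π) := by linarith
        have eX : X φ = X θ₁ := by rw [e]; exact (pX.int_mul j) θ₁
        have eY : Y φ = Y θ₁ := by rw [e]; exact (pY.int_mul j) θ₁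
        rw [eX, eY]
      · left
        have := hs φ hc
        simp
        linarith) hr
    rw [coord0, coord1] at this
    rcases this with h | h
    · exfalso
      simp only [Matrix.cons_val_zero, Matrix.cons_val_one] at h
      rw [h1, h2] at h
      have e : m * (p1 + r * cos t) + n * (p2 + r * sin t)
        = m * (p1 + k * cos t) + n * (p2 + k * sin t) + (r - k) * (m * cos t + n * sin t) := by ring
      rw [e, hm] at h
      linarith
    · have h' := congrArg (fun z : EuclideanSpace ℝ (Fin 2) => z 1) h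
      simp only [coord1] at h'
      have h'' : p2 + r * sin t = Y θ₁ := by simpa using h'
      rw [h2] at h''
      have : (r - k) * sin t = 0 := by linarith
      rcases mul_eq_zero.1 this with h | h
      · rw [mem_singleton_iff]; linarith
      · exact absurd h ht.ne'
  unfold chord
  exact measure_mono_null hsub (by simp)

/-- the line crosses the oval at the parameters `θ₁, θ₂` -/
lemma chord_cross {X Y X' Y' : ℝ → ℝ} (hK : Oval X Y X' Y') (p1 p2 t θ₁ θ₂ k₁ k₂ : ℝ)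
    (h11 : X θ₁ = p1 + k₁ * cos t) (h12 : Y θ₁ = p2 + k₁ * sin t)
    (h21 : X θ₂ = p1 + k₂ * cos t) (h22 : Y θ₂ = p2 + k₂ * sin t)
    (hne : cos (θ₂ - θ₁) ≠ 1) :
    chord (body X Y) !₂[p1, p2] t = ENNReal.ofReal |k₂ - k₁| := by
  have key : ∀ θ θ' κ κ' : ℝ, X θ = p1 + κ * cos t → Y θ = p2 + κ * sin t →
      X θ' = p1 + κ' * cos t → Y θ' = p2 + κ' * sin t → cos (θ' - θ) ≠ 1 →
      ∀ r : ℝ, (!₂[p1, p2] + r • dir t : EuclideanSpace ℝ (Fin 2)) ∈ body X Y →
        0 ≤ (r - κ) * (κ' - κ) := by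
    intro θ θ' κ κ' e1 e2 e3 e4 hc r hr
    obtain ⟨m, n, -, hs⟩ := hK.supp θ
    have hle : ∀ φ, m * X θ + n * Y θ ≤ m * X φ + n * Y φ := by
      intro φ
      by_cases hc : cos (φ - θ) = 1
      · obtain ⟨j, hj⟩ := (Real.cos_eq_one_iff _).1 hc
        have pX : Function.Periodic X (2 * π) := hK.perX
        have pY : Function.Periodic Y (2 * π) := hK.perY
        have e : φ = θ + j * (2 * π) := by linarith
        have eX : X φ = X θ := by rw [e]; exact (pX.int_mul j) θ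
        have eY : Y φ = Y θ := by rw [e]; exact (pY.int_mul j) θ
        rw [eX, eY]
      · have := hs φ hc
        linarith
    have h1 := body_le hle hr
    rw [coord0, coord1, e1, e2] at h1
    have h2 := hs θ' hc
    rw [e1, e2, e3, e4] at h2
    have h1' : 0 ≤ (r - κ) * (m * cos t + n * sin t) := by linarith
    have h2' : 0 < (κ' - κ) * (m * cos t + n * sin t) := by linarith
    by_contra hcon
    push Not at hcon
    have h3 : 0 ≤ ((r - κ) * (m * cos t + n * sin t)) * ((κ' - κ) * (m * cos t + n * sin t)) :=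
      mul_nonneg h1' h2'.le
    have h4 : 0 < (m * cos t + n * sin t) ^ 2 := by
      have : m * cos t + n * sin t ≠ 0 := by
        intro h; rw [h, mul_zero] at h2'; exact lt_irrefl _ h2'
      positivity
    have h5 : ((r - κ) * (m * cos t + n * sin t)) * ((κ' - κ) * (m * cos t + n * sin t))
      = ((r - κ) * (κ' - κ)) * (m * cos t + n * sin t) ^ 2 := by ring
    rw [h5] at h3
    have := mul_neg_of_neg_of_pos hcon h4
    linarith
  have hset : {r : ℝ | (!₂[p1, p2] + r • dir t : EuclideanSpace ℝ (Fin 2)) ∈ body X Y}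
      = uIcc k₁ k₂ := by
    apply Subset.antisymm
    · intro r hr
      have a1 := key θ₁ θ₂ k₁ k₂ h11 h12 h21 h22 hne r hr
      have a2 := key θ₂ θ₁ k₂ k₁ h21 h22 h11 h12 (by
        rw [← neg_sub, Real.cos_neg]; exact hne) r hr
      rw [mem_uIcc]
      rcases lt_trichotomy k₁ k₂ with h | h | h
      · left
        constructor <;> nlinarith
      · exfalso
        apply hne
        apply hK.inj
        · rw [h11, h21, h]
        · rw [h12, h22, h]
      · right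
        constructor <;> nlinarith
    · have hconv : Convex ℝ {r : ℝ | (!₂[p1, p2] + r • dir t : EuclideanSpace ℝ (Fin 2)) ∈ body X Y} := by
        intro x hx y hy a b ha hb hab
        have hz := (convex_convexHull ℝ (range fun θ => (!₂[X θ, Y θ] : EuclideanSpace ℝ (Fin 2))))
          hx hy ha hb hab
        have e : a • (!₂[p1, p2] + x • dir t : EuclideanSpace ℝ (Fin 2))
            + b • (!₂[p1, p2] + y • dir t) = !₂[p1, p2] + (a • x + b • y) • dir t := by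
          rw [smul_add, smul_add, add_smul]
          have : (a • (!₂[p1, p2] : EuclideanSpace ℝ (Fin 2)) + b • !₂[p1, p2]) = !₂[p1, p2] := by
            rw [← add_smul, hab, one_smul]
          rw [smul_eq_mul, smul_eq_mul, mul_smul, mul_smul]
          nth_rewrite 3 [← this]
          abel
        rw [mem_ofPred_eq, ← e]
        exact hz
      apply hconv.ordConnected.uIcc_subset
      · rw [mem_ofPred_eq]
        have : (!₂[p1, p2] + k₁ • dir t : EuclideanSpace ℝ (Fin 2)) = !₂[X θ₁, Y θ₁] := by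
          ext i; fin_cases i
          · simp [dir, h11]
          · simp [dir, h12]
        rw [this]; exact mem_body X Y θ₁
      · rw [mem_ofPred_eq]
        have : (!₂[p1, p2] + k₂ • dir t : EuclideanSpace ℝ (Fin 2)) = !₂[X θ₂, Y θ₂] := by
          ext i; fin_cases i
          · simp [dir, h21]
          · simp [dir, h22]
        rw [this]; exact mem_body X Y θ₂
  unfold chord
  rw [hset, Real.volume_interval]


/-- one body: the line is on one side -/
lemma chord_side {X Y X' Y' : ℝ → ℝ} (hK : Oval X Y X' Y') (p1 p2 t : ℝ) (S a : ℝ → ℝ)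
    (hX : ∀ θ, X θ = p1 + a θ * S θ) (hY : ∀ θ, Y θ = p2 + a θ)
    (ha : ∀ θ, 0 < a θ) (ht : 0 < sin t) (ε : ℝ) (hε : ε ≠ 0)
    (h : ∀ θ, 0 ≤ ε * (S θ - cos t / sin t)) :
    chord (body X Y) !₂[p1, p2] t = 0 := by
  by_cases hex : ∃ θ₁, S θ₁ = cos t / sin t
  · obtain ⟨θ₁, h1⟩ := hex
    have hg : HasDerivAt (fun θ => ε * ((X θ - p1) - cos t / sin t * (Y θ - p2)))
        (ε * (X' θ₁ - cos t / sin t * Y' θ₁)) θ₁ :=
      (((hK.dX θ₁).sub_const p1).sub (((hK.dY θ₁).sub_const p2).const_mul _)).const_mul ε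
    have hmin : IsLocalMin (fun θ => ε * ((X θ - p1) - cos t / sin t * (Y θ - p2))) θ₁ := by
      apply Filter.Eventually.of_forall
      intro θ
      have e : ∀ φ, ε * ((X φ - p1) - cos t / sin t * (Y φ - p2))
          = a φ * (ε * (S φ - cos t / sin t)) := by
        intro φ; rw [hX, hY]; ring
      simp only [e]
      rw [h1, sub_self, mul_zero, mul_zero]
      exact mul_nonneg (ha θ).le (h θ)
    have h0 := hmin.hasDerivAt_eq_zero hg
    have h0' := (mul_eq_zero.1 h0).resolve_left hε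
    refine chord_zero_of_touch hK p1 p2 t θ₁ (a θ₁ / sin t) ht ?_ ?_ ?_
    · rw [hX, h1]; field_simp
    · rw [hY]; field_simp
    · have : X' θ₁ = cos t / sin t * Y' θ₁ := by linarith
      rw [this]; field_simp
  · push Not at hex
    refine chord_zero_of_strict p1 p2 t ε (-(ε * (cos t / sin t))) ?_ ?_
    · intro θ
      have e : ε * (X θ - p1) + -(ε * (cos t / sin t)) * (Y θ - p2)
          = a θ * (ε * (S θ - cos t / sin t)) := by
        rw [hX, hY]; ring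
      rw [e]
      refine mul_pos (ha θ) (lt_of_le_of_ne (h θ) ?_)
      exact (mul_ne_zero hε (sub_ne_zero.2 (hex θ))).symm
    · field_simp
      ring

/-- Two ovals seen from the point `p = (p1,p2)`: both lie on the side `y > p2`, the points with the same
parameter lie on a common line through `p`, and the second is obtained from the first by a shift
`D` (in the `y` coordinate) which only depends on the line.  Then the chord functions at `p` agree. -/
theorem pencil {X Y X' Y' U V U' V' : ℝ → ℝ} (hK : Oval X Y X' Y') (hL : Oval U V U' V')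
    (p1 p2 : ℝ) (S a b D : ℝ → ℝ)
    (hX : ∀ θ, X θ = p1 + a θ * S θ) (hY : ∀ θ, Y θ = p2 + a θ)
    (hU : ∀ θ, U θ = p1 + b θ * S θ) (hV : ∀ θ, V θ = p2 + b θ)
    (ha : ∀ θ, 0 < a θ) (hb : ∀ θ, 0 < b θ) (hD : ∀ θ, b θ - a θ = D (S θ)) :
    ∀ t ∈ Ico 0 π, chord (body X Y) !₂[p1, p2] t = chord (body U V) !₂[p1, p2] t := by
  rintro t ⟨ht0, htπ⟩
  rcases ht0.eq_or_lt with rfl | ht0
  · rw [chord_zero_of_strict p1 p2 0 0 1 (fun θ => by rw [hY]; linarith [ha θ]) (by simp),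
      chord_zero_of_strict p1 p2 0 0 1 (fun θ => by rw [hV]; linarith [hb θ]) (by simp)]
  have ht : 0 < sin t := sin_pos_of_pos_of_lt_pi ht0 htπ
  by_cases h1 : ∃ u, S u < cos t / sin t
  swap
  · push Not at h1
    rw [chord_side hK p1 p2 t S a hX hY ha ht 1 one_ne_zero (fun θ => by linarith [h1 θ]),
      chord_side hL p1 p2 t S b hU hV hb ht 1 one_ne_zero (fun θ => by linarith [h1 θ])]
  by_cases h2 : ∃ v, cos t / sin t < S v
  swap
  · push Not at h2
    rw [chord_side hK p1 p2 t S a hX hY ha ht (-1) (by norm_num) (fun θ => by linarith [h2 θ]),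
      chord_side hL p1 p2 t S b hU hV hb ht (-1) (by norm_num) (fun θ => by linarith [h2 θ])]
  obtain ⟨u, hu⟩ := h1
  obtain ⟨v, hv⟩ := h2
  have hS : ∀ θ, S θ = (X θ - p1) / (Y θ - p2) := by
    intro θ
    rw [hX, hY]
    have := (ha θ).ne'
    field_simp
    ring_nf
    field_simp
  have hSper : Function.Periodic S (2 * π) := by
    intro θ
    rw [hS, hS, hK.perX, hK.perY]
  have hScont : Continuous S := by
    have : S = fun θ => (X θ - p1) / (Y θ - p2) := funext hS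
    rw [this]
    have cX : Continuous X := continuous_iff_continuousAt.2 fun θ => (hK.dX θ).continuousAt
    have cY : Continuous Y := continuous_iff_continuousAt.2 fun θ => (hK.dY θ).continuousAt
    refine (cX.sub continuous_const).div (cY.sub continuous_const) fun θ => ?_
    rw [hY]; simpa using (ha θ).ne'
  obtain ⟨v', ⟨hv1, hv2⟩, hvS⟩ := hSper.exists_mem_Ico (by positivity) v u
  rw [hvS] at hv
  obtain ⟨θ₁, ⟨h11, h12⟩, hθ₁⟩ := intermediate_value_Ioo hv1 hScont.continuousOn ⟨hu, hv⟩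
  obtain ⟨θ₂, ⟨h21, h22⟩, hθ₂⟩ := intermediate_value_Ioo' hv2.le hScont.continuousOn
    (show cos t / sin t ∈ Ioo (S (u + 2 * π)) (S v') from ⟨by rw [hSper]; exact hu, hv⟩)
  have hne : cos (θ₂ - θ₁) ≠ 1 := by
    intro h
    rw [Real.cos_eq_one_iff_of_lt_of_lt (by linarith) (by linarith)] at h
    linarith
  rw [chord_cross hK p1 p2 t θ₁ θ₂ (a θ₁ / sin t) (a θ₂ / sin t)
      (by rw [hX, hθ₁]; field_simp) (by rw [hY]; field_simp)
      (by rw [hX, hθ₂]; field_simp) (by rw [hY]; field_simp) hne,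
    chord_cross hL p1 p2 t θ₁ θ₂ (b θ₁ / sin t) (b θ₂ / sin t)
      (by rw [hU, hθ₁]; field_simp) (by rw [hV]; field_simp)
      (by rw [hU, hθ₂]; field_simp) (by rw [hV]; field_simp) hne]
  have e1 : b θ₁ = a θ₁ + D (cos t / sin t) := by
    have := hD θ₁; rw [hθ₁] at this; linarith
  have e2 : b θ₂ = a θ₂ + D (cos t / sin t) := by
    have := hD θ₂; rw [hθ₂] at this; linarith
  congr 2
  rw [e1, e2]
  ring


theorem isCompact_convexHull_fd {E : Type} [NormedAddCommGroup E] [NormedSpace ℝ E]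
    [FiniteDimensional ℝ E] {s : Set E} (hs : IsCompact s) : IsCompact (convexHull ℝ s) := by
  classical
  rcases s.eq_empty_or_nonempty with rfl | ⟨x0, hx0⟩
  · simp
  let n := Module.finrank ℝ E + 1
  have hK : IsCompact ((stdSimplex ℝ (Fin n)) ×ˢ (Set.univ.pi fun _ : Fin n => s)) :=
    (isCompact_stdSimplex ℝ (Fin n)).prod (isCompact_univ_pi fun _ => hs)
  have hf : Continuous (fun q : (Fin n → ℝ) × (Fin n → E) => ∑ i, q.1 i • q.2 i) := by
    fun_prop
  have : convexHull ℝ s = (fun q : (Fin n → ℝ) × (Fin n → E) => ∑ i, q.1 i • q.2 i) ''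
      ((stdSimplex ℝ (Fin n)) ×ˢ (Set.univ.pi fun _ : Fin n => s)) := by
    apply Subset.antisymm
    · intro x hx
      obtain ⟨ι, hι, z, w, hz, hai, hw, hw1, hx1⟩ := eq_pos_convex_span_of_mem_convexHull hx
      have hcard : Fintype.card ι ≤ Fintype.card (Fin n) := by
        rw [Fintype.card_fin]
        exact hai.card_le_finrank_succ.trans (by
          have := Submodule.finrank_le (vectorSpan ℝ (Set.range z))
          omega)
      obtain ⟨e⟩ := Function.Embedding.nonempty_of_card_le hcard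
      refine ⟨(Function.extend e w 0, Function.extend e z (fun _ => x0)), ⟨⟨?_, ?_⟩, ?_⟩, ?_⟩
      · intro j
        by_cases hj : ∃ i, e i = j
        · obtain ⟨i, rfl⟩ := hj
          simp only [e.injective.extend_apply]
          exact (hw i).le
        · simp [Function.extend_apply' _ _ _ hj]
      · rw [← hw1]
        symm
        apply Fintype.sum_of_injective e e.injective
        · intro j hj
          have hj' : ¬ ∃ i, e i = j := by simpa using hj
          simp [Function.extend_apply' _ _ _ hj']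
        · intro i
          simp only [e.injective.extend_apply]
      · intro j _
        by_cases hj : ∃ i, e i = j
        · obtain ⟨i, rfl⟩ := hj
          simp only [e.injective.extend_apply]
          exact hz ⟨i, rfl⟩
        · simp only [Function.extend_apply' _ _ _ hj]
          exact hx0
      · rw [← hx1]
        symm
        apply Fintype.sum_of_injective e e.injective
        · intro j hj
          have hj' : ¬ ∃ i, e i = j := by simpa using hj
          simp [Function.extend_apply' _ _ _ hj']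
        · intro i
          simp only [e.injective.extend_apply]
    · rintro _ ⟨⟨w, z⟩, ⟨⟨hw, hw1⟩, hz⟩, rfl⟩
      exact (convex_convexHull ℝ s).sum_mem (fun i _ => hw i) hw1
        (fun i _ => subset_convexHull ℝ s (hz i trivial))
  rw [this]
  exact hK.image hf

theorem curve_cont {X Y X' Y' : ℝ → ℝ} (h : Oval X Y X' Y') :
    Continuous (fun θ => (!₂[X θ, Y θ] : EuclideanSpace ℝ (Fin 2))) := by
  have hX : Continuous X := continuous_iff_continuousAt.2 fun θ => (h.dX θ).continuousAt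
  have hY : Continuous Y := continuous_iff_continuousAt.2 fun θ => (h.dY θ).continuousAt
  refine (PiLp.continuous_toLp 2 (fun _ : Fin 2 => ℝ)).comp ?_
  refine continuous_pi fun i => ?_
  fin_cases i
  · simpa using hX
  · simpa using hY

theorem body_compact {X Y X' Y' : ℝ → ℝ} (h : Oval X Y X' Y') : IsCompact (body X Y) := by
  have hper : Function.Periodic (fun θ => (!₂[X θ, Y θ] : EuclideanSpace ℝ (Fin 2))) (2 * π) := by
    intro θ
    simp only [h.perX, h.perY]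
  have h1 := hper.image_Icc Real.two_pi_pos 0
  unfold body
  rw [← h1]
  exact isCompact_convexHull_fd (isCompact_Icc.image (curve_cont h))

theorem not_wbtw {X Y X' Y' : ℝ → ℝ} (h : Oval X Y X' Y') (θ φ ψ : ℝ) (h1 : cos (φ - θ) ≠ 1)
    (h2 : cos (ψ - θ) ≠ 1) : ¬ Wbtw ℝ (!₂[X φ, Y φ] : EuclideanSpace ℝ (Fin 2)) !₂[X θ, Y θ]
      !₂[X ψ, Y ψ] := by
  rintro ⟨t, ⟨ht0, ht1⟩, ht⟩
  obtain ⟨m, n, -, hs⟩ := h.supp θ
  have a1 := hs φ h1
  have a2 := hs ψ h2
  have e0 := congrArg (fun v : EuclideanSpace ℝ (Fin 2) => v 0) ht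
  have e1 := congrArg (fun v : EuclideanSpace ℝ (Fin 2) => v 1) ht
  simp [AffineMap.lineMap_apply] at e0 e1
  have key : (1 - t) * (m * (X φ - X θ) + n * (Y φ - Y θ)) +
      t * (m * (X ψ - X θ) + n * (Y ψ - Y θ)) = 0 := by
    rw [← e0, ← e1]
    ring
  rcases eq_or_lt_of_le ht0 with h0 | h0
  · rw [← h0] at key
    linarith
  · have b1 : 0 ≤ (1 - t) * (m * (X φ - X θ) + n * (Y φ - Y θ)) :=
      mul_nonneg (by linarith) a1.le
    have b2 : 0 < t * (m * (X ψ - X θ) + n * (Y ψ - Y θ)) := mul_pos h0 a2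
    linarith

theorem body_interior {X Y X' Y' : ℝ → ℝ} (h : Oval X Y X' Y') : (interior (body X Y)).Nonempty := by
  unfold body
  rw [interior_convexHull_nonempty_iff_affineSpan_eq_top]
  have c1 : cos (π / 2 - 0) ≠ 1 := by simp
  have c2 : cos (π - 0) ≠ 1 := by simp; norm_num
  have c3 : cos (0 - π / 2) ≠ 1 := by simp
  have c4 : cos (π - π / 2) ≠ 1 := by
    have : π - π / 2 = π / 2 := by ring
    rw [this]; simp
  have c5 : cos (0 - π) ≠ 1 := by simp; norm_num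
  have c6 : cos (π / 2 - π) ≠ 1 := by
    have : π / 2 - π = -(π / 2) := by ring
    rw [this]; simp
  have hai : AffineIndependent ℝ ![(!₂[X 0, Y 0] : EuclideanSpace ℝ (Fin 2)),
      !₂[X (π / 2), Y (π / 2)], !₂[X π, Y π]] := by
    rw [affineIndependent_iff_not_collinear_set]
    intro hc
    rcases hc.wbtw_or_wbtw_or_wbtw with h' | h' | h'
    · exact not_wbtw h (π / 2) 0 π c3 c4 h'
    · exact not_wbtw h π (π / 2) 0 c6 c5 h'
    · exact not_wbtw h 0 π (π / 2) c2 c1 h'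
  have h2 : affineSpan ℝ (Set.range ![(!₂[X 0, Y 0] : EuclideanSpace ℝ (Fin 2)),
      !₂[X (π / 2), Y (π / 2)], !₂[X π, Y π]]) = ⊤ := by
    rw [hai.affineSpan_eq_top_iff_card_eq_finrank_add_one]
    simp
  apply top_unique
  rw [← h2]
  apply affineSpan_mono
  rintro _ ⟨i, rfl⟩
  fin_cases i
  · exact ⟨0, rfl⟩
  · exact ⟨π / 2, rfl⟩
  · exact ⟨π, rfl⟩


lemma kam_support_loc {A B τ : ℝ} (hA : 0 < A) (hB : 0 < B) (hτ : 0 < τ) (hτ1 : τ ≤ 1)
    (hτ2 : 2 * (A + B + 1) * τ * π ^ 2 ≤ A * B) (X Y X' Y' X'' Y'' : ℝ → ℝ)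
    (hX : ∀ θ, HasDerivAt X (X' θ) θ) (hY : ∀ θ, HasDerivAt Y (Y' θ) θ)
    (hX' : ∀ θ, HasDerivAt X' (X'' θ) θ) (hY' : ∀ θ, HasDerivAt Y' (Y'' θ) θ)
    (h1 : ∀ θ, |X' θ - (-(A * sin θ))| ≤ τ) (h2 : ∀ θ, |Y' θ - B * cos θ| ≤ τ)
    (h3 : ∀ θ, |X'' θ - (-(A * cos θ))| ≤ τ) (h4 : ∀ θ, |Y'' θ - (-(B * sin θ))| ≤ τ)
    (θ φ : ℝ) (hφ : |φ - θ| ≤ π) :
    A * B / 2 * (1 - cos (φ - θ)) ≤ X' θ * (Y φ - Y θ) - Y' θ * (X φ - X θ) := by
  set K : ℝ := 2 * (A + B + 1) * τ with hK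
  have hK0 : 0 ≤ K := by positivity
  -- second derivative bound
  have hb2 : ∀ t, |X' θ * Y'' t - Y' θ * X'' t - A * B * cos (t - θ)| ≤ K := by
    intro t
    have e : X' θ * Y'' t - Y' θ * X'' t - A * B * cos (t - θ)
        = (X' θ - (-(A * sin θ))) * Y'' t + (-(A * sin θ)) * (Y'' t - (-(B * sin t)))
          - ((Y' θ - B * cos θ) * X'' t + (B * cos θ) * (X'' t - (-(A * cos t)))) := by
      rw [cos_sub]; ring
    have hs1 : |sin θ| ≤ 1 := abs_sin_le_one θ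
    have hc1 : |cos θ| ≤ 1 := abs_cos_le_one θ
    have hs2 : |sin t| ≤ 1 := abs_sin_le_one t
    have hc2 : |cos t| ≤ 1 := abs_cos_le_one t
    have hY2 : |Y'' t| ≤ B + 1 := by
      have : Y'' t = (Y'' t - (-(B * sin t))) + (-(B * sin t)) := by ring
      rw [this]
      refine (abs_add_le _ _).trans ?_
      rw [abs_neg, abs_mul, abs_of_pos hB]
      have := h4 t
      nlinarith
    have hX2 : |X'' t| ≤ A + 1 := by
      have : X'' t = (X'' t - (-(A * cos t))) + (-(A * cos t)) := by ring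
      rw [this]
      refine (abs_add_le _ _).trans ?_
      rw [abs_neg, abs_mul, abs_of_pos hA]
      have := h3 t
      nlinarith
    rw [e]
    have p1 : |(X' θ - (-(A * sin θ))) * Y'' t| ≤ τ * (B + 1) := by
      rw [abs_mul]; exact mul_le_mul (h1 θ) hY2 (abs_nonneg _) hτ.le
    have p2 : |(-(A * sin θ)) * (Y'' t - (-(B * sin t)))| ≤ A * τ := by
      rw [abs_mul, abs_neg, abs_mul, abs_of_pos hA]
      refine mul_le_mul ?_ (h4 t) (abs_nonneg _) hA.le
      nlinarith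
    have p3 : |(Y' θ - B * cos θ) * X'' t| ≤ τ * (A + 1) := by
      rw [abs_mul]; exact mul_le_mul (h2 θ) hX2 (abs_nonneg _) hτ.le
    have p4 : |(B * cos θ) * (X'' t - (-(A * cos t)))| ≤ B * τ := by
      rw [abs_mul, abs_mul, abs_of_pos hB]
      refine mul_le_mul ?_ (h3 t) (abs_nonneg _) hB.le
      nlinarith
    have q1 := abs_add_le ((X' θ - (-(A * sin θ))) * Y'' t)
      ((-(A * sin θ)) * (Y'' t - (-(B * sin t))))
    have q2 := abs_add_le ((Y' θ - B * cos θ) * X'' t) ((B * cos θ) * (X'' t - (-(A * cos t))))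
    refine (abs_sub _ _).trans ?_
    rw [hK]
    linarith
  -- first derivative bound
  have hb1 : ∀ t, |X' θ * Y' t - Y' θ * X' t - A * B * sin (t - θ)| ≤ K * |t - θ| := by
    intro t
    have hd : ∀ s ∈ (Set.univ : Set ℝ), HasDerivWithinAt
        (fun s => X' θ * Y' s - Y' θ * X' s - A * B * sin (s - θ))
        (X' θ * Y'' s - Y' θ * X'' s - A * B * cos (s - θ)) Set.univ s := by
      intro s _
      apply HasDerivAt.hasDerivWithinAt
      have hsin : HasDerivAt (fun s => sin (s - θ)) (cos (s - θ)) s := by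
        simpa using ((hasDerivAt_id s).sub_const θ).sin
      exact (((hY' s).const_mul (X' θ)).sub ((hX' s).const_mul (Y' θ))).sub
        (hsin.const_mul (A * B))
    have := Convex.norm_image_sub_le_of_norm_hasDerivWithin_le hd
      (fun s _ => by simpa [Real.norm_eq_abs] using hb2 s) convex_univ (Set.mem_univ θ)
      (Set.mem_univ t)
    have e0 : X' θ * Y' θ - Y' θ * X' θ - A * B * sin (θ - θ) = 0 := by
      rw [sub_self, sin_zero]; ring
    simp only [e0, sub_zero, Real.norm_eq_abs] at this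
    exact this
  have hb0 : |X' θ * (Y φ - Y θ) - Y' θ * (X φ - X θ) - A * B * (1 - cos (φ - θ))|
      ≤ K * |φ - θ| * |φ - θ| := by
    have hd : ∀ s ∈ Set.uIcc θ φ, HasDerivWithinAt
        (fun s => X' θ * (Y s - Y θ) - Y' θ * (X s - X θ) - A * B * (1 - cos (s - θ)))
        (X' θ * Y' s - Y' θ * X' s - A * B * sin (s - θ)) (Set.uIcc θ φ) s := by
      intro s _
      apply HasDerivAt.hasDerivWithinAt
      have hcos : HasDerivAt (fun s => 1 - cos (s - θ)) (sin (s - θ)) s := by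
        have := (((hasDerivAt_id s).sub_const θ).cos).const_sub 1
        simpa using this
      exact ((((hY s).sub_const _).const_mul (X' θ)).sub
        (((hX s).sub_const _).const_mul (Y' θ))).sub (hcos.const_mul (A * B))
    have := Convex.norm_image_sub_le_of_norm_hasDerivWithin_le (C := K * |φ - θ|) hd
      (fun s hs => by
        rw [Real.norm_eq_abs]
        refine (hb1 s).trans ?_
        exact mul_le_mul_of_nonneg_left (Set.abs_sub_left_of_mem_uIcc hs) hK0)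
      (convex_uIcc θ φ) Set.left_mem_uIcc Set.right_mem_uIcc
    have e0 : X' θ * (Y θ - Y θ) - Y' θ * (X θ - X θ) - A * B * (1 - cos (θ - θ)) = 0 := by
      rw [sub_self, sub_self, sub_self, cos_zero]; ring
    simp only [e0, sub_zero, Real.norm_eq_abs] at this
    exact this
  have hcos := Real.cos_le_one_sub_mul_cos_sq hφ
  have hpi : 0 < π ^ 2 := by positivity
  have hx2 : (φ - θ) ^ 2 ≤ π ^ 2 / 2 * (1 - cos (φ - θ)) := by
    have h5 : 2 / π ^ 2 * (φ - θ) ^ 2 ≤ 1 - cos (φ - θ) := by linarith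
    calc (φ - θ) ^ 2 = π ^ 2 / 2 * (2 / π ^ 2 * (φ - θ) ^ 2) := by
          field_simp
      _ ≤ _ := mul_le_mul_of_nonneg_left h5 (by positivity)
  have hsq : K * |φ - θ| * |φ - θ| = K * (φ - θ) ^ 2 := by
    rw [mul_assoc, ← abs_mul, ← pow_two, abs_of_nonneg (sq_nonneg _)]
  rw [hsq] at hb0
  have h6 : K * (φ - θ) ^ 2 ≤ K * (π ^ 2 / 2 * (1 - cos (φ - θ))) :=
    mul_le_mul_of_nonneg_left hx2 hK0
  have h7 : 0 ≤ 1 - cos (φ - θ) := by linarith [cos_le_one (φ - θ)]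
  have h8 : K * (π ^ 2 / 2 * (1 - cos (φ - θ))) ≤ A * B / 2 * (1 - cos (φ - θ)) := by
    have : K * (π ^ 2 / 2 * (1 - cos (φ - θ))) = (K * π ^ 2) / 2 * (1 - cos (φ - θ)) := by ring
    rw [this]
    exact mul_le_mul_of_nonneg_right (by linarith) h7
  have h9 := (abs_le.1 hb0).1
  linarith

/-- A closed curve that is C²-close to the ellipse `(A cos θ, B sin θ)` is strictly convex:
each tangent line supports the curve, quantitatively. -/
theorem kam_support {A B : ℝ} (hA : 0 < A) (hB : 0 < B) :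
    ∃ τ > 0, ∀ X Y X' Y' X'' Y'' : ℝ → ℝ,
      (∀ θ, HasDerivAt X (X' θ) θ) → (∀ θ, HasDerivAt Y (Y' θ) θ) →
      (∀ θ, HasDerivAt X' (X'' θ) θ) → (∀ θ, HasDerivAt Y' (Y'' θ) θ) →
      (∀ θ, X (θ + 2 * π) = X θ) → (∀ θ, Y (θ + 2 * π) = Y θ) →
      (∀ θ, |X' θ - (-(A * sin θ))| ≤ τ) → (∀ θ, |Y' θ - B * cos θ| ≤ τ) →
      (∀ θ, |X'' θ - (-(A * cos θ))| ≤ τ) → (∀ θ, |Y'' θ - (-(B * sin θ))| ≤ τ) →
      ∀ θ φ, A * B / 2 * (1 - cos (φ - θ)) ≤ X' θ * (Y φ - Y θ) - Y' θ * (X φ - X θ) := by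
  have hpi := Real.pi_pos
  have hD : 0 < 2 * (A + B + 1) * π ^ 2 := by positivity
  refine ⟨min 1 (A * B / (2 * (A + B + 1) * π ^ 2)), lt_min one_pos (by positivity), ?_⟩
  intro X Y X' Y' X'' Y'' hX hY hX' hY' pX pY h1 h2 h3 h4 θ φ
  set τ := min 1 (A * B / (2 * (A + B + 1) * π ^ 2)) with hτ
  have hτ0 : 0 < τ := lt_min one_pos (by positivity)
  have hτ1 : τ ≤ 1 := min_le_left _ _
  have hτ2 : 2 * (A + B + 1) * τ * π ^ 2 ≤ A * B := by
    have : τ ≤ A * B / (2 * (A + B + 1) * π ^ 2) := min_le_right _ _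
    rw [le_div_iff₀ hD] at this
    linarith
  set k : ℤ := round ((φ - θ) / (2 * π)) with hk
  have hk1 : |(φ - (k : ℝ) * (2 * π)) - θ| ≤ π := by
    have := abs_sub_round ((φ - θ) / (2 * π))
    rw [← hk] at this
    have e : (φ - (k : ℝ) * (2 * π)) - θ = ((φ - θ) / (2 * π) - k) * (2 * π) := by
      field_simp
      ring
    rw [e, abs_mul, abs_of_pos (by positivity : (0 : ℝ) < 2 * π)]
    nlinarith
  have := kam_support_loc hA hB hτ0 hτ1 hτ2 X Y X' Y' X'' Y'' hX hY hX' hY' h1 h2 h3 h4 θ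
    (φ - (k : ℝ) * (2 * π)) hk1
  have eX : X (φ - (k : ℝ) * (2 * π)) = X φ :=
    (show Function.Periodic X (2 * π) from pX).sub_int_mul_eq k
  have eY : Y (φ - (k : ℝ) * (2 * π)) = Y φ :=
    (show Function.Periodic Y (2 * π) from pY).sub_int_mul_eq k
  have ec : cos (φ - (k : ℝ) * (2 * π) - θ) = cos (φ - θ) := by
    have : φ - (k : ℝ) * (2 * π) - θ = (φ - θ) - (k : ℝ) * (2 * π) := by ring
    rw [this, cos_sub_int_mul_two_pi]
  rwa [eX, eY, ec] at this

/-- product with a function close to one -/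
theorem kam_mul_close {B a b : ℝ} (hB : 0 ≤ B) (hb : 0 ≤ b)
    {N N' N'' N0 N0' N0'' g g' g'' : ℝ → ℝ}
    (hN : ∀ θ, HasDerivAt N (N' θ) θ) (hN' : ∀ θ, HasDerivAt N' (N'' θ) θ)
    (hg : ∀ θ, HasDerivAt g (g' θ) θ) (hg' : ∀ θ, HasDerivAt g' (g'' θ) θ)
    (b0 : ∀ θ, |N θ| ≤ B) (b1 : ∀ θ, |N' θ| ≤ B) (b2 : ∀ θ, |N'' θ| ≤ B)
    (c0 : ∀ θ, |N θ - N0 θ| ≤ a) (c1 : ∀ θ, |N' θ - N0' θ| ≤ a) (c2 : ∀ θ, |N'' θ - N0'' θ| ≤ a)
    (g0 : ∀ θ, |g θ - 1| ≤ b) (g1 : ∀ θ, |g' θ| ≤ b) (g2 : ∀ θ, |g'' θ| ≤ b) :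
    ∃ X' X'' : ℝ → ℝ, (∀ θ, HasDerivAt (fun x => N x * g x) (X' θ) θ) ∧
      (∀ θ, HasDerivAt X' (X'' θ) θ) ∧ (∀ θ, |N θ * g θ - N0 θ| ≤ 4 * B * b + a) ∧
      (∀ θ, |X' θ - N0' θ| ≤ 4 * B * b + a) ∧ (∀ θ, |X'' θ - N0'' θ| ≤ 4 * B * b + a) := by
  have hBb : 0 ≤ B * b := mul_nonneg hB hb
  have pr : ∀ x y : ℝ, |x| ≤ B → |y| ≤ b → |x * y| ≤ B * b := by
    intro x y hx hy
    rw [abs_mul]
    exact mul_le_mul hx hy (abs_nonneg _) hB
  refine ⟨fun x => N' x * g x + N x * g' x, fun x => (N'' x * g x + N' x * g' x) +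
    (N' x * g' x + N x * g'' x), fun θ => (hN θ).mul (hg θ),
    fun θ => ((hN' θ).mul (hg θ)).add ((hN θ).mul (hg' θ)), ?_, ?_, ?_⟩
  · intro θ
    have e : N θ * g θ - N0 θ = N θ * (g θ - 1) + (N θ - N0 θ) := by ring
    rw [e]
    have h1 := pr _ _ (b0 θ) (g0 θ)
    have h2 := c0 θ
    have h3 := abs_add_le (N θ * (g θ - 1)) (N θ - N0 θ)
    nlinarith
  · intro θ
    have e : N' θ * g θ + N θ * g' θ - N0' θ = N' θ * (g θ - 1) + N θ * g' θ + (N' θ - N0' θ) := by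
      ring
    show |N' θ * g θ + N θ * g' θ - N0' θ| ≤ _
    rw [e]
    have h1 := pr _ _ (b1 θ) (g0 θ)
    have h1' := pr _ _ (b0 θ) (g1 θ)
    have h2 := c1 θ
    have h3 := abs_add_three (N' θ * (g θ - 1)) (N θ * g' θ) (N' θ - N0' θ)
    nlinarith
  · intro θ
    have e : (N'' θ * g θ + N' θ * g' θ) + (N' θ * g' θ + N θ * g'' θ) - N0'' θ =
        (N'' θ * (g θ - 1) + N' θ * g' θ) + (N' θ * g' θ + N θ * g'' θ) + (N'' θ - N0'' θ) := by
      ring
    show |(N'' θ * g θ + N' θ * g' θ) + (N' θ * g' θ + N θ * g'' θ) - N0'' θ| ≤ _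
    rw [e]
    have h1 := pr _ _ (b2 θ) (g0 θ)
    have h1' := pr _ _ (b1 θ) (g1 θ)
    have h1'' := pr _ _ (b0 θ) (g2 θ)
    have h2 := c2 θ
    have h3 := abs_add_three (N'' θ * (g θ - 1) + N' θ * g' θ) (N' θ * g' θ + N θ * g'' θ)
      (N'' θ - N0'' θ)
    have h4 := abs_add_le (N'' θ * (g θ - 1)) (N' θ * g' θ)
    have h5 := abs_add_le (N' θ * g' θ) (N θ * g'' θ)
    nlinarith

/-- the reciprocal factor -/
theorem kam_inv_close {ρ : ℝ} (hρ : 0 < ρ) (hρ4 : ρ ≤ 1 / 4) {P P' P'' : ℝ → ℝ}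
    (hP : ∀ θ, HasDerivAt P (P' θ) θ) (hP' : ∀ θ, HasDerivAt P' (P'' θ) θ)
    (b0 : ∀ θ, |P θ| ≤ 4) (b1 : ∀ θ, |P' θ| ≤ 8) (b2 : ∀ θ, |P'' θ| ≤ 16) :
    (∀ θ, 1 / 2 ≤ 1 + ρ ^ 2 * P θ) ∧ ∃ g' g'' : ℝ → ℝ,
      (∀ θ, HasDerivAt (fun x => (1 + ρ ^ 2 * P x)⁻¹) (g' θ) θ) ∧
      (∀ θ, HasDerivAt g' (g'' θ) θ) ∧
      (∀ θ, |(1 + ρ ^ 2 * P θ)⁻¹ - 1| ≤ 32 * ρ) ∧ (∀ θ, |g' θ| ≤ 32 * ρ) ∧
      (∀ θ, |g'' θ| ≤ 32 * ρ) := by
  have hr2 : ρ ^ 2 ≤ ρ / 4 := by nlinarith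
  have hr2' : ρ ^ 2 ≤ 1 / 16 := by nlinarith
  have hr0 : 0 < ρ ^ 2 := by positivity
  have hm : ∀ θ, 1 / 2 ≤ 1 + ρ ^ 2 * P θ := by
    intro θ
    have := (abs_le.mp (b0 θ)).1
    nlinarith
  have hmi : ∀ θ, 0 < (1 + ρ ^ 2 * P θ)⁻¹ ∧ (1 + ρ ^ 2 * P θ)⁻¹ ≤ 2 := by
    intro θ
    have h := hm θ
    refine ⟨by positivity, ?_⟩
    rw [inv_le_comm₀ (by linarith) (by norm_num)]
    linarith
  refine ⟨hm, fun x => -(ρ ^ 2 * P' x) / (1 + ρ ^ 2 * P x) ^ 2,
    fun x => -(ρ ^ 2 * P'' x) / (1 + ρ ^ 2 * P x) ^ 2 +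
      2 * (ρ ^ 2 * P' x) ^ 2 / (1 + ρ ^ 2 * P x) ^ 3, ?_, ?_, ?_, ?_, ?_⟩
  · intro θ
    have h0 : (1 + ρ ^ 2 * P θ) ≠ 0 := by have := hm θ; linarith
    have h1 : HasDerivAt (fun x => 1 + ρ ^ 2 * P x) (ρ ^ 2 * P' θ) θ :=
      ((hP θ).const_mul (ρ ^ 2)).const_add 1
    exact h1.inv h0
  · intro θ
    have h0 : (1 + ρ ^ 2 * P θ) ≠ 0 := by have := hm θ; linarith
    have h1 : HasDerivAt (fun x => 1 + ρ ^ 2 * P x) (ρ ^ 2 * P' θ) θ :=
      ((hP θ).const_mul (ρ ^ 2)).const_add 1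
    have h2 : HasDerivAt (fun x => -(ρ ^ 2 * P' x)) (-(ρ ^ 2 * P'' θ)) θ :=
      ((hP' θ).const_mul (ρ ^ 2)).neg
    have h3 := h2.div (h1.pow 2) (pow_ne_zero 2 h0)
    have h4 : HasDerivAt (fun x => -(ρ ^ 2 * P' x) / (1 + ρ ^ 2 * P x) ^ 2) _ θ := h3
    refine h4.congr_deriv ?_
    simp only [Pi.pow_apply, Nat.cast_ofNat]
    field_simp
    ring
  · intro θ
    obtain ⟨i0, i2⟩ := hmi θ
    have h0 : (1 + ρ ^ 2 * P θ) ≠ 0 := by have := hm θ; linarith
    have e : (1 + ρ ^ 2 * P θ)⁻¹ - 1 = -(ρ ^ 2 * P θ * (1 + ρ ^ 2 * P θ)⁻¹) := by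
      field_simp
      ring
    rw [e, abs_neg, abs_mul, abs_mul, abs_of_pos hr0, abs_of_pos i0]
    calc ρ ^ 2 * |P θ| * (1 + ρ ^ 2 * P θ)⁻¹ ≤ (ρ / 4) * 4 * 2 := by
          gcongr
          exact b0 θ
      _ ≤ 32 * ρ := by linarith
  · intro θ
    obtain ⟨i0, i2⟩ := hmi θ
    have e : -(ρ ^ 2 * P' θ) / (1 + ρ ^ 2 * P θ) ^ 2 =
        -(ρ ^ 2 * P' θ * ((1 + ρ ^ 2 * P θ)⁻¹) ^ 2) := by
      rw [inv_pow, div_eq_mul_inv]; ring
    show |-(ρ ^ 2 * P' θ) / (1 + ρ ^ 2 * P θ) ^ 2| ≤ _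
    rw [e, abs_neg, abs_mul, abs_mul, abs_of_pos hr0, abs_of_pos (pow_pos i0 2)]
    calc ρ ^ 2 * |P' θ| * ((1 + ρ ^ 2 * P θ)⁻¹) ^ 2 ≤ (ρ / 4) * 8 * 2 ^ 2 := by
          gcongr
          exact b1 θ
      _ ≤ 32 * ρ := by linarith
  · intro θ
    obtain ⟨i0, i2⟩ := hmi θ
    have e : -(ρ ^ 2 * P'' θ) / (1 + ρ ^ 2 * P θ) ^ 2 +
        2 * (ρ ^ 2 * P' θ) ^ 2 / (1 + ρ ^ 2 * P θ) ^ 3 =
        -(ρ ^ 2 * P'' θ * ((1 + ρ ^ 2 * P θ)⁻¹) ^ 2) +
        2 * (ρ ^ 2 * P' θ) ^ 2 * ((1 + ρ ^ 2 * P θ)⁻¹) ^ 3 := by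
      rw [inv_pow, inv_pow, div_eq_mul_inv, div_eq_mul_inv]; ring
    show |-(ρ ^ 2 * P'' θ) / (1 + ρ ^ 2 * P θ) ^ 2 +
        2 * (ρ ^ 2 * P' θ) ^ 2 / (1 + ρ ^ 2 * P θ) ^ 3| ≤ _
    rw [e]
    refine (abs_add_le _ _).trans ?_
    rw [abs_neg, abs_mul, abs_mul, abs_of_pos hr0, abs_of_pos (pow_pos i0 2), abs_mul,
      abs_of_pos (pow_pos i0 3), abs_of_nonneg (by positivity : (0:ℝ) ≤ 2 * (ρ ^ 2 * P' θ) ^ 2)]
    have h1 : ρ ^ 2 * |P'' θ| * ((1 + ρ ^ 2 * P θ)⁻¹) ^ 2 ≤ (ρ / 4) * 16 * 2 ^ 2 := by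
      gcongr
      exact b2 θ
    have h2 : (ρ ^ 2 * P' θ) ^ 2 ≤ (ρ / 4) * (1 / 16) * 8 ^ 2 := by
      rw [mul_pow]
      have h3 : (ρ ^ 2) ^ 2 ≤ (ρ / 4) * (1 / 16) := by
        calc (ρ ^ 2) ^ 2 = ρ ^ 2 * ρ ^ 2 := by ring
          _ ≤ (ρ / 4) * (1 / 16) := by gcongr
      have h4 : P' θ ^ 2 ≤ 8 ^ 2 := by
        have := b1 θ
        rw [← sq_abs]
        gcongr
      gcongr
    have h5 : 2 * (ρ ^ 2 * P' θ) ^ 2 * ((1 + ρ ^ 2 * P θ)⁻¹) ^ 3 ≤
        2 * ((ρ / 4) * (1 / 16) * 8 ^ 2) * 2 ^ 3 := by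
      gcongr
    nlinarith

/-- C²-closeness is preserved by the two rational maps used in the construction. -/
theorem kam_c2_close (e : ℝ) (he : 0 < e) : ∃ t > 0, ∀ ρ : ℝ, 0 < ρ → ρ ≤ t →
    ∀ p p' p'' q q' q'' p0 p0' p0'' q0 q0' q0'' : ℝ → ℝ,
      (∀ θ, HasDerivAt p (p' θ) θ) → (∀ θ, HasDerivAt p' (p'' θ) θ) →
      (∀ θ, HasDerivAt q (q' θ) θ) → (∀ θ, HasDerivAt q' (q'' θ) θ) →
      (∀ θ, |p0 θ| ≤ 1) → (∀ θ, |p0' θ| ≤ 1) → (∀ θ, |p0'' θ| ≤ 1) →
      (∀ θ, |q0 θ| ≤ 1) → (∀ θ, |q0' θ| ≤ 1) → (∀ θ, |q0'' θ| ≤ 1) →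
      (∀ θ, |p θ - p0 θ| ≤ t) → (∀ θ, |p' θ - p0' θ| ≤ t) → (∀ θ, |p'' θ - p0'' θ| ≤ t) →
      (∀ θ, |q θ - q0 θ| ≤ t) → (∀ θ, |q' θ - q0' θ| ≤ t) → (∀ θ, |q'' θ - q0'' θ| ≤ t) →
      (∀ θ, 1 / 2 ≤ 1 + ρ ^ 2 * (p θ * q θ)) ∧
      ∃ X' X'' Y' Y'' : ℝ → ℝ,
        (∀ θ, HasDerivAt (fun x => (p x + q x) / (1 + ρ ^ 2 * (p x * q x))) (X' θ) θ) ∧
        (∀ θ, HasDerivAt X' (X'' θ) θ) ∧
        (∀ θ, HasDerivAt (fun x => (q x - p x - 2 * ρ * (p x * q x)) / (1 + ρ ^ 2 * (p x * q x))) (Y' θ) θ) ∧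
        (∀ θ, HasDerivAt Y' (Y'' θ) θ) ∧
        (∀ θ, |(p θ + q θ) / (1 + ρ ^ 2 * (p θ * q θ)) - (p0 θ + q0 θ)| ≤ e) ∧
        (∀ θ, |X' θ - (p0' θ + q0' θ)| ≤ e) ∧ (∀ θ, |X'' θ - (p0'' θ + q0'' θ)| ≤ e) ∧
        (∀ θ, |(q θ - p θ - 2 * ρ * (p θ * q θ)) / (1 + ρ ^ 2 * (p θ * q θ)) - (q0 θ - p0 θ)| ≤ e) ∧
        (∀ θ, |Y' θ - (q0' θ - p0' θ)| ≤ e) ∧ (∀ θ, |Y'' θ - (q0'' θ - p0'' θ)| ≤ e) := by
  refine ⟨min (1 / 4) (e / 2000), by positivity, ?_⟩
  intro ρ hρ hρt p p' p'' q q' q'' p0 p0' p0'' q0 q0' q0'' hp hp' hq hq' a1 a2 a3 a4 a5 a6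
    c1 c2 c3 c4 c5 c6
  set t := min (1 / 4 : ℝ) (e / 2000) with ht
  have ht4 : t ≤ 1 / 4 := min_le_left _ _
  have hte : t ≤ e / 2000 := min_le_right _ _
  have ht0 : 0 < t := by positivity
  have hρ4 : ρ ≤ 1 / 4 := hρt.trans ht4
  have two : ∀ x y : ℝ, |y| ≤ 1 → |x - y| ≤ t → |x| ≤ 2 := by
    intro x y hy hxy
    have : x = (x - y) + y := by ring
    rw [this]
    exact (abs_add_le _ _).trans (by linarith)
  have dp := fun θ => two _ _ (a1 θ) (c1 θ)
  have dp' := fun θ => two _ _ (a2 θ) (c2 θ)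
  have dp'' := fun θ => two _ _ (a3 θ) (c3 θ)
  have dq := fun θ => two _ _ (a4 θ) (c4 θ)
  have dq' := fun θ => two _ _ (a5 θ) (c5 θ)
  have dq'' := fun θ => two _ _ (a6 θ) (c6 θ)
  have pr : ∀ x y : ℝ, |x| ≤ 2 → |y| ≤ 2 → |x * y| ≤ 4 := by
    intro x y hx hy
    rw [abs_mul]
    calc |x| * |y| ≤ 2 * 2 := mul_le_mul hx hy (abs_nonneg _) (by norm_num)
      _ = 4 := by norm_num
  set P : ℝ → ℝ := fun x => p x * q x with hP
  set P' : ℝ → ℝ := fun x => p' x * q x + p x * q' x with hP'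
  set P'' : ℝ → ℝ := fun x => (p'' x * q x + p' x * q' x) + (p' x * q' x + p x * q'' x) with hP''
  have dP : ∀ θ, HasDerivAt P (P' θ) θ := fun θ => (hp θ).mul (hq θ)
  have dP' : ∀ θ, HasDerivAt P' (P'' θ) θ := fun θ =>
    ((hp' θ).mul (hq θ)).add ((hp θ).mul (hq' θ))
  have bP : ∀ θ, |P θ| ≤ 4 := fun θ => pr _ _ (dp θ) (dq θ)
  have bP' : ∀ θ, |P' θ| ≤ 8 := fun θ => (abs_add_le _ _).trans (by
    have h1 := pr _ _ (dp' θ) (dq θ)
    have h2 := pr _ _ (dp θ) (dq' θ)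
    linarith)
  have bP'' : ∀ θ, |P'' θ| ≤ 16 := fun θ => by
    refine (abs_add_le _ _).trans ?_
    have h1 := pr _ _ (dp'' θ) (dq θ)
    have h2 := pr _ _ (dp' θ) (dq' θ)
    have h3 := pr _ _ (dp θ) (dq'' θ)
    have h4 := abs_add_le (p'' θ * q θ) (p' θ * q' θ)
    have h5 := abs_add_le (p' θ * q' θ) (p θ * q'' θ)
    linarith
  obtain ⟨hm, g', g'', hg1, hg2, hg3, hg4, hg5⟩ := kam_inv_close hρ hρ4 dP dP' bP bP' bP''
  refine ⟨hm, ?_⟩
  obtain ⟨X', X'', x1, x2, x3, x4, x5⟩ := kam_mul_close (B := 4) (a := 2 * t) (b := 32 * ρ)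
    (N := fun x => p x + q x) (N' := fun x => p' x + q' x) (N'' := fun x => p'' x + q'' x)
    (N0 := fun x => p0 x + q0 x) (N0' := fun x => p0' x + q0' x) (N0'' := fun x => p0'' x + q0'' x)
    (by norm_num) (by positivity) (fun θ => (hp θ).add (hq θ)) (fun θ => (hp' θ).add (hq' θ))
    hg1 hg2
    (fun θ => (abs_add_le _ _).trans (by linarith [dp θ, dq θ]))
    (fun θ => (abs_add_le _ _).trans (by linarith [dp' θ, dq' θ]))
    (fun θ => (abs_add_le _ _).trans (by linarith [dp'' θ, dq'' θ]))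
    (fun θ => by
      have : p θ + q θ - (p0 θ + q0 θ) = (p θ - p0 θ) + (q θ - q0 θ) := by ring
      rw [this]
      exact (abs_add_le _ _).trans (by linarith [c1 θ, c4 θ]))
    (fun θ => by
      have : p' θ + q' θ - (p0' θ + q0' θ) = (p' θ - p0' θ) + (q' θ - q0' θ) := by ring
      rw [this]
      exact (abs_add_le _ _).trans (by linarith [c2 θ, c5 θ]))
    (fun θ => by
      have : p'' θ + q'' θ - (p0'' θ + q0'' θ) = (p'' θ - p0'' θ) + (q'' θ - q0'' θ) := by ring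
      rw [this]
      exact (abs_add_le _ _).trans (by linarith [c3 θ, c6 θ]))
    hg3 hg4 hg5
  have key : ∀ (k : ℝ) (x y z w : ℝ), |w| ≤ k → 0 ≤ k → |x| ≤ 2 → |y| ≤ 2 →
      |x - y - 2 * ρ * w| ≤ 4 + k / 2 := by
    intro k x y z w hw hk hx hy
    have h1 : |x - y - 2 * ρ * w| ≤ |x| + |y| + |2 * ρ * w| := by
      have := abs_sub (x - y) (2 * ρ * w)
      have := abs_sub x y
      linarith
    have h2 : |2 * ρ * w| ≤ 2 * (1 / 4) * k := by
      rw [abs_mul, abs_of_pos (by positivity : (0:ℝ) < 2 * ρ)]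
      gcongr
    linarith
  have key2 : ∀ (k : ℝ) (x y x0 y0 w : ℝ), |w| ≤ k → 0 ≤ k → |x - x0| ≤ t → |y - y0| ≤ t →
      |x - y - 2 * ρ * w - (x0 - y0)| ≤ 2 * t + 2 * t * k := by
    intro k x y x0 y0 w hw hk hx hy
    have e1 : x - y - 2 * ρ * w - (x0 - y0) = (x - x0) - (y - y0) - 2 * ρ * w := by ring
    rw [e1]
    have h1 : |(x - x0) - (y - y0) - 2 * ρ * w| ≤ |x - x0| + |y - y0| + |2 * ρ * w| := by
      have := abs_sub ((x - x0) - (y - y0)) (2 * ρ * w)
      have := abs_sub (x - x0) (y - y0)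
      linarith
    have h2 : |2 * ρ * w| ≤ 2 * t * k := by
      rw [abs_mul, abs_of_pos (by positivity : (0:ℝ) < 2 * ρ)]
      gcongr
    linarith
  obtain ⟨Y', Y'', y1, y2, y3, y4, y5⟩ := kam_mul_close (B := 12) (a := 34 * t) (b := 32 * ρ)
    (N := fun x => q x - p x - 2 * ρ * P x) (N' := fun x => q' x - p' x - 2 * ρ * P' x)
    (N'' := fun x => q'' x - p'' x - 2 * ρ * P'' x)
    (N0 := fun x => q0 x - p0 x) (N0' := fun x => q0' x - p0' x) (N0'' := fun x => q0'' x - p0'' x)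
    (by norm_num) (by positivity)
    (fun θ => ((hq θ).sub (hp θ)).sub ((dP θ).const_mul (2 * ρ)))
    (fun θ => ((hq' θ).sub (hp' θ)).sub ((dP' θ).const_mul (2 * ρ)))
    hg1 hg2
    (fun θ => (key 4 _ _ 0 _ (bP θ) (by norm_num) (dq θ) (dp θ)).trans (by norm_num))
    (fun θ => (key 8 _ _ 0 _ (bP' θ) (by norm_num) (dq' θ) (dp' θ)).trans (by norm_num))
    (fun θ => (key 16 _ _ 0 _ (bP'' θ) (by norm_num) (dq'' θ) (dp'' θ)).trans (by norm_num))
    (fun θ => (key2 4 _ _ _ _ _ (bP θ) (by norm_num) (c4 θ) (c1 θ)).trans (by linarith))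
    (fun θ => (key2 8 _ _ _ _ _ (bP' θ) (by norm_num) (c5 θ) (c2 θ)).trans (by linarith))
    (fun θ => (key2 16 _ _ _ _ _ (bP'' θ) (by norm_num) (c6 θ) (c3 θ)).trans (by linarith))
    hg3 hg4 hg5
  have hf1 : 4 * 4 * (32 * ρ) + 2 * t ≤ e := by linarith
  have hf2 : 4 * 12 * (32 * ρ) + 34 * t ≤ e := by linarith
  refine ⟨X', X'', Y', Y'', ?_, x2, ?_, y2, ?_, ?_, ?_, ?_, ?_, ?_⟩
  · intro θ; exact x1 θ
  · intro θ; exact y1 θ
  · intro θ; exact (x3 θ).trans hf1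
  · intro θ; exact (x4 θ).trans hf1
  · intro θ; exact (x5 θ).trans hf1
  · intro θ; exact (y3 θ).trans hf2
  · intro θ; exact (y4 θ).trans hf2
  · intro θ; exact (y5 θ).trans hf2

/-- convex body -/
def IsBody (K : Set (EuclideanSpace ℝ (Fin 2))) : Prop :=
  IsCompact K ∧ Convex ℝ K ∧ (interior K).Nonempty

/-- the points of `P` determine convex bodies -/
def Determines (P : Set (EuclideanSpace ℝ (Fin 2))) : Prop :=
  ∀ K L, IsBody K → IsBody L → (∀ x ∈ P, ∀ θ ∈ Ico 0 π, chord K x θ = chord L x θ) → K = L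

theorem chord_periodic (K : Set (EuclideanSpace ℝ (Fin 2))) (p : EuclideanSpace ℝ (Fin 2)) :
    Function.Periodic (chord K p) π := by
  intro φ
  unfold chord
  have e : {r : ℝ | p + r • dir (φ + π) ∈ K} = Neg.neg ⁻¹' {r : ℝ | p + r • dir φ ∈ K} := by
    ext r
    have h : r • dir (φ + π) = (-r) • dir φ := by
      ext i
      fin_cases i
      · simp [dir, cos_add_pi]
      · simp [dir, sin_add_pi]
    show p + r • dir (φ + π) ∈ K ↔ p + (-r) • dir φ ∈ K
    rw [h]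
  rw [e]
  exact Measure.measure_preimage_neg volume _

/-- inverse similarity -/
noncomputable def Sm (x : EuclideanSpace ℝ (Fin 2)) (a c : ℝ) (w : EuclideanSpace ℝ (Fin 2)) :
    EuclideanSpace ℝ (Fin 2) :=
  !₂[(a * (w 0 - x 0) + c * (w 1 - x 1)) / (a ^ 2 + c ^ 2),
    (a * (w 1 - x 1) - c * (w 0 - x 0)) / (a ^ 2 + c ^ 2)]

/-- similarity -/
noncomputable def Tm (x : EuclideanSpace ℝ (Fin 2)) (a c : ℝ) (z : EuclideanSpace ℝ (Fin 2)) :
    EuclideanSpace ℝ (Fin 2) :=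
  !₂[x 0 + (a * z 0 - c * z 1), x 1 + (c * z 0 + a * z 1)]

theorem Sm_Tm (x : EuclideanSpace ℝ (Fin 2)) (a c : ℝ) (h : a ^ 2 + c ^ 2 ≠ 0)
    (z : EuclideanSpace ℝ (Fin 2)) : Sm x a c (Tm x a c z) = z := by
  ext i
  fin_cases i
  · simp only [Sm, Tm, Fin.zero_eta, Fin.isValue, PiLp.toLp_apply, Matrix.cons_val_zero,
      Matrix.cons_val_one]
    field_simp
    ring
  · simp only [Sm, Tm, Fin.mk_one, Fin.isValue, PiLp.toLp_apply, Matrix.cons_val_zero,
      Matrix.cons_val_one]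
    field_simp
    ring

theorem Tm_Sm (x : EuclideanSpace ℝ (Fin 2)) (a c : ℝ) (h : a ^ 2 + c ^ 2 ≠ 0)
    (z : EuclideanSpace ℝ (Fin 2)) : Tm x a c (Sm x a c z) = z := by
  ext i
  fin_cases i
  · simp only [Sm, Tm, Fin.zero_eta, Fin.isValue, PiLp.toLp_apply, Matrix.cons_val_zero,
      Matrix.cons_val_one]
    field_simp
    ring
  · simp only [Sm, Tm, Fin.mk_one, Fin.isValue, PiLp.toLp_apply, Matrix.cons_val_zero,
      Matrix.cons_val_one]
    field_simp
    ring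

theorem continuous_Sm (x : EuclideanSpace ℝ (Fin 2)) (a c : ℝ) : Continuous (Sm x a c) := by
  unfold Sm
  apply (PiLp.continuous_toLp 2 _).comp
  apply continuous_pi
  intro i
  fin_cases i
  · simp only [Fin.zero_eta, Fin.isValue, Matrix.cons_val_zero]
    fun_prop
  · simp only [Fin.mk_one, Fin.isValue, Matrix.cons_val_one, Matrix.cons_val_zero]
    fun_prop

theorem continuous_Tm (x : EuclideanSpace ℝ (Fin 2)) (a c : ℝ) : Continuous (Tm x a c) := by
  unfold Tm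
  apply (PiLp.continuous_toLp 2 _).comp
  apply continuous_pi
  intro i
  fin_cases i
  · simp only [Fin.zero_eta, Fin.isValue, Matrix.cons_val_zero]
    fun_prop
  · simp only [Fin.mk_one, Fin.isValue, Matrix.cons_val_one, Matrix.cons_val_zero]
    fun_prop

theorem isBody_preimage (x : EuclideanSpace ℝ (Fin 2)) (a c : ℝ) (h : a ^ 2 + c ^ 2 ≠ 0)
    (K : Set (EuclideanSpace ℝ (Fin 2))) (hK : IsBody K) : IsBody (Sm x a c ⁻¹' K) := by
  obtain ⟨h1, h2, h3⟩ := hK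
  refine ⟨?_, ?_, ?_⟩
  · have e : Sm x a c ⁻¹' K = Tm x a c '' K := by
      ext w
      constructor
      · intro hw
        exact ⟨Sm x a c w, hw, Tm_Sm x a c h w⟩
      · rintro ⟨z, hz, rfl⟩
        show Sm x a c (Tm x a c z) ∈ K
        rw [Sm_Tm x a c h]
        exact hz
    rw [e]
    exact h1.image (continuous_Tm x a c)
  · intro w1 hw1 w2 hw2 s t hs ht hst
    show Sm x a c (s • w1 + t • w2) ∈ K
    have e : Sm x a c (s • w1 + t • w2) = s • Sm x a c w1 + t • Sm x a c w2 := by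
      have ht' : t = 1 - s := by linarith
      subst ht'
      ext i
      fin_cases i
      · simp only [Sm, Fin.zero_eta, Fin.isValue, PiLp.toLp_apply, Matrix.cons_val_zero,
          PiLp.add_apply, PiLp.smul_apply, smul_eq_mul, Matrix.cons_val_one]
        field_simp
        ring
      · simp only [Sm, Fin.mk_one, Fin.isValue, PiLp.toLp_apply, Matrix.cons_val_zero,
          PiLp.add_apply, PiLp.smul_apply, smul_eq_mul, Matrix.cons_val_one]
        field_simp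
        ring
    rw [e]
    exact h2 hw1 hw2 hs ht hst
  · obtain ⟨k, hk⟩ := h3
    refine ⟨Tm x a c k, ?_⟩
    have hsub : Sm x a c ⁻¹' (interior K) ⊆ interior (Sm x a c ⁻¹' K) :=
      interior_maximal (Set.preimage_mono interior_subset)
        (isOpen_interior.preimage (continuous_Sm x a c))
    apply hsub
    show Sm x a c (Tm x a c k) ∈ interior K
    rw [Sm_Tm x a c h]
    exact hk

theorem chord_preimage (x : EuclideanSpace ℝ (Fin 2)) (ρ α : ℝ) (hρ : 0 < ρ)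
    (K : Set (EuclideanSpace ℝ (Fin 2))) (p : EuclideanSpace ℝ (Fin 2)) (θ : ℝ) :
    chord (Sm x (ρ * cos α) (ρ * sin α) ⁻¹' K) (Tm x (ρ * cos α) (ρ * sin α) p) θ =
      ENNReal.ofReal |(ρ⁻¹)⁻¹| * chord K p (θ - α) := by
  unfold chord
  have e : {r : ℝ | Tm x (ρ * cos α) (ρ * sin α) p + r • dir θ ∈
      Sm x (ρ * cos α) (ρ * sin α) ⁻¹' K} =
      (fun r => ρ⁻¹ * r) ⁻¹' {r : ℝ | p + r • dir (θ - α) ∈ K} := by
    ext r
    show Sm x (ρ * cos α) (ρ * sin α) (Tm x (ρ * cos α) (ρ * sin α) p + r • dir θ) ∈ K ↔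
      p + (ρ⁻¹ * r) • dir (θ - α) ∈ K
    have h : Sm x (ρ * cos α) (ρ * sin α) (Tm x (ρ * cos α) (ρ * sin α) p + r • dir θ) =
        p + (ρ⁻¹ * r) • dir (θ - α) := by
      have hd : (ρ * cos α) ^ 2 + (ρ * sin α) ^ 2 = ρ ^ 2 := by
        have := sin_sq_add_cos_sq α
        linear_combination ρ ^ 2 * this
      have hsc := sin_sq_add_cos_sq α
      have hρ' : ρ ≠ 0 := hρ.ne'
      ext i
      fin_cases i
      · simp only [Sm, Tm, dir, Fin.zero_eta, Fin.isValue, PiLp.toLp_apply, Matrix.cons_val_zero,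
          PiLp.add_apply, PiLp.smul_apply, smul_eq_mul, Matrix.cons_val_one, hd, cos_sub]
        rw [div_eq_iff (pow_ne_zero 2 hρ')]
        field_simp
        linear_combination (ρ * p 0) * hsc
      · simp only [Sm, Tm, dir, Fin.mk_one, Fin.isValue, PiLp.toLp_apply, Matrix.cons_val_zero,
          PiLp.add_apply, PiLp.smul_apply, smul_eq_mul, Matrix.cons_val_one, hd, sin_sub]
        rw [div_eq_iff (pow_ne_zero 2 hρ')]
        field_simp
        linear_combination (ρ * p 1) * hsc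
    rw [h]
  rw [e]
  exact Real.volume_preimage_mul_left (inv_ne_zero hρ.ne') _

/-- by similarity, if one pair fails to determine convex bodies then every pair fails. -/
theorem all_pairs (h : ¬ Determines {!₂[(0 : ℝ), 0], !₂[(1 : ℝ), 0]})
    (x y : EuclideanSpace ℝ (Fin 2)) (hxy : x ≠ y) : ¬ Determines {x, y} := by
  intro hD
  apply h
  intro K L hK hL hKL
  set z : ℂ := ⟨y 0 - x 0, y 1 - x 1⟩ with hz
  have hz0 : z ≠ 0 := by
    intro h0
    apply hxy
    have h1 := congrArg Complex.re h0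
    have h2 := congrArg Complex.im h0
    simp only [hz, Complex.zero_re, Complex.zero_im] at h1 h2
    ext i
    fin_cases i
    · show x 0 = y 0
      linarith
    · show x 1 = y 1
      linarith
  have hρ : 0 < ‖z‖ := norm_pos_iff.mpr hz0
  have ha : ‖z‖ * cos (Complex.arg z) = y 0 - x 0 := Complex.norm_mul_cos_arg z
  have hc : ‖z‖ * sin (Complex.arg z) = y 1 - x 1 := Complex.norm_mul_sin_arg z
  have hne : (‖z‖ * cos (Complex.arg z)) ^ 2 + (‖z‖ * sin (Complex.arg z)) ^ 2 ≠ 0 := by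
    have := sin_sq_add_cos_sq (Complex.arg z)
    have h2 : (‖z‖ * cos (Complex.arg z)) ^ 2 + (‖z‖ * sin (Complex.arg z)) ^ 2 = ‖z‖ ^ 2 := by
      linear_combination ‖z‖ ^ 2 * this
    rw [h2]
    exact pow_ne_zero 2 hρ.ne'
  set T := Tm x (‖z‖ * cos (Complex.arg z)) (‖z‖ * sin (Complex.arg z)) with hT
  set S := Sm x (‖z‖ * cos (Complex.arg z)) (‖z‖ * sin (Complex.arg z)) with hS
  have hTx : T !₂[(0 : ℝ), 0] = x := by
    rw [hT]
    ext i
    fin_cases i
    · simp [Tm]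
    · simp [Tm]
  have hTy : T !₂[(1 : ℝ), 0] = y := by
    rw [hT]
    ext i
    fin_cases i
    · simp [Tm, ha]
    · simp [Tm, hc]
  have key : ∀ p : EuclideanSpace ℝ (Fin 2), (∀ θ ∈ Ico 0 π, chord K p θ = chord L p θ) →
      ∀ θ, chord (S ⁻¹' K) (T p) θ = chord (S ⁻¹' L) (T p) θ := by
    intro p hp θ
    rw [hS, hT, chord_preimage x ‖z‖ _ hρ, chord_preimage x ‖z‖ _ hρ]
    have hper : Function.Periodic (fun φ => (chord K p φ, chord L p φ)) π := by
      intro φ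
      show (chord K p (φ + π), chord L p (φ + π)) = (chord K p φ, chord L p φ)
      rw [chord_periodic K p φ, chord_periodic L p φ]
    obtain ⟨φ, hφ, he⟩ := hper.exists_mem_Ico₀ pi_pos (θ - Complex.arg z)
    have he' : (chord K p (θ - Complex.arg z), chord L p (θ - Complex.arg z)) =
      (chord K p φ, chord L p φ) := he
    rw [Prod.mk.injEq] at he'
    rw [he'.1, he'.2, hp φ hφ]
  have hfin : S ⁻¹' K = S ⁻¹' L := by
    apply hD _ _ (isBody_preimage x _ _ hne K hK) (isBody_preimage x _ _ hne L hL)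
    intro q hq θ _
    rcases hq with hq | hq
    · have hq' : q = x := hq
      have k := key _ (hKL _ (Or.inl rfl)) θ
      rw [hTx] at k
      rw [hq']
      exact k
    · have hq' : q = y := hq
      have k := key _ (hKL _ (Or.inr rfl)) θ
      rw [hTy] at k
      rw [hq']
      exact k
  ext w
  have h1 : T w ∈ S ⁻¹' K ↔ T w ∈ S ⁻¹' L := by rw [hfin]
  have h2 : S (T w) = w := Sm_Tm x _ _ hne w
  rw [Set.mem_preimage, Set.mem_preimage, h2] at h1
  exact h1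


noncomputable def om : ℝ := 2 * π * (√2 - 1)
noncomputable def al : ℝ := om / 4 + π / 4

noncomputable def FX (ρ u v : ℝ) : ℝ := (1 + ρ * u) * (1 + ρ * v) / (2 * (1 + ρ ^ 2 * (u * v)))
noncomputable def FY (ρ u v : ℝ) : ℝ := (1 - ρ * u) * (1 + ρ * v) / (2 * (1 + ρ ^ 2 * (u * v)))

lemma FX_eq {ρ u v : ℝ} (h : 1 + ρ ^ 2 * (u * v) ≠ 0) :
    FX ρ u v = 1 / 2 + ρ / 2 * ((u + v) / (1 + ρ ^ 2 * (u * v))) := by
  unfold FX
  obtain ⟨m, hm⟩ : ∃ m, m = 1 + ρ ^ 2 * (u * v) := ⟨_, rfl⟩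
  rw [← hm] at h ⊢
  field_simp
  rw [hm]
  ring

lemma FY_eq {ρ u v : ℝ} (h : 1 + ρ ^ 2 * (u * v) ≠ 0) :
    FY ρ u v = 1 / 2 + ρ / 2 * ((v - u - 2 * ρ * (u * v)) / (1 + ρ ^ 2 * (u * v))) := by
  unfold FY
  obtain ⟨m, hm⟩ : ∃ m, m = 1 + ρ ^ 2 * (u * v) := ⟨_, rfl⟩
  rw [← hm] at h ⊢
  field_simp
  rw [hm]
  ring

lemma A1 {ρ u v : ℝ} (h : 1 + ρ ^ 2 * (u * v) ≠ 0) (h1 : 1 - ρ * u ≠ 0) :
    FX ρ u v = 0 + FY ρ u v * ((1 + ρ * u) / (1 - ρ * u)) := by
  unfold FX FY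
  obtain ⟨m, hm⟩ : ∃ m, m = 1 + ρ ^ 2 * (u * v) := ⟨_, rfl⟩
  rw [← hm] at h ⊢
  field_simp
  ring

lemma A2 {ρ u v : ℝ} (h : 1 + ρ ^ 2 * (u * v) ≠ 0) (h1 : 1 + ρ * v ≠ 0) :
    FX ρ u v = 1 + FY ρ u v * (-((1 - ρ * v) / (1 + ρ * v))) := by
  unfold FX FY
  obtain ⟨m, hm⟩ : ∃ m, m = 1 + ρ ^ 2 * (u * v) := ⟨_, rfl⟩
  rw [← hm] at h ⊢
  field_simp
  rw [hm]
  ring

lemma E1 {ρ u v : ℝ} (h : 1 + ρ ^ 2 * (u * v) ≠ 0) :
    FY ρ u v = (1 - ρ * u) / 2 * (1 + ρ * (1 - ρ * u) * (v / (1 + ρ ^ 2 * (u * v)))) := by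
  unfold FY
  obtain ⟨m, hm⟩ : ∃ m, m = 1 + ρ ^ 2 * (u * v) := ⟨_, rfl⟩
  rw [← hm] at h ⊢
  field_simp
  rw [hm]
  ring

lemma E2 {ρ u v : ℝ} (h : 1 + ρ ^ 2 * (v * u) ≠ 0) :
    FY ρ u v = (1 + ρ * v) / 2 * (1 - ρ * (1 + ρ * v) * (u / (1 + ρ ^ 2 * (v * u)))) := by
  unfold FY
  rw [mul_comm v u] at h ⊢
  obtain ⟨m, hm⟩ : ∃ m, m = 1 + ρ ^ 2 * (u * v) := ⟨_, rfl⟩
  rw [← hm] at h ⊢
  field_simp
  rw [hm]
  ring

lemma DD1 {ρ μ x : ℝ} (h2 : 1 - ρ * x ≠ 0) :
    ρ * (1 - ρ * x) ^ 2 / 2 * (μ * x) = 2 * μ * ((1 + ρ * x) / (1 - ρ * x) - 1) /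
      ((1 + ρ * x) / (1 - ρ * x) + 1) ^ 3 := by
  have e4 : (1 + ρ * x) / (1 - ρ * x) - 1 = 2 * (ρ * x) / (1 - ρ * x) := by
    field_simp
    ring
  have e5 : (1 + ρ * x) / (1 - ρ * x) + 1 = 2 / (1 - ρ * x) := by
    field_simp
    ring
  rw [e4, e5]
  field_simp

lemma DD2 {ρ μ x : ℝ} (h2 : 1 + ρ * x ≠ 0) :
    -(ρ * (1 + ρ * x) ^ 2 / 2 * (μ * x)) = -(2 * μ * (1 + -((1 - ρ * x) / (1 + ρ * x))) /
      (1 - -((1 - ρ * x) / (1 + ρ * x))) ^ 3) := by
  have e4 : 1 + -((1 - ρ * x) / (1 + ρ * x)) = 2 * (ρ * x) / (1 + ρ * x) := by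
    field_simp
    ring
  have e5 : 1 - -((1 - ρ * x) / (1 + ρ * x)) = 2 / (1 + ρ * x) := by
    field_simp
    ring
  rw [e4, e5]
  field_simp

lemma m_pos {ρ u v : ℝ} (hu : |ρ * u| ≤ 1 / 2) (hv : |ρ * v| ≤ 1 / 2) :
    0 < 1 + ρ ^ 2 * (u * v) := by
  have h1 : |ρ * u| * |ρ * v| ≤ 1 / 2 * (1 / 2) :=
    mul_le_mul hu hv (abs_nonneg _) (by norm_num)
  rw [← abs_mul] at h1
  have h2 := (abs_le.1 h1).1
  have h3 : ρ ^ 2 * (u * v) = ρ * u * (ρ * v) := by ring
  rw [h3]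
  linarith

lemma FY_pos {ρ u v : ℝ} (hu : |ρ * u| ≤ 1 / 2) (hv : |ρ * v| ≤ 1 / 2) : 0 < FY ρ u v := by
  unfold FY
  have hm := m_pos hu hv
  have h1 := (abs_le.1 hu).2
  have h2 := (abs_le.1 hv).1
  exact div_pos (mul_pos (by linarith) (by linarith)) (by linarith)

lemma oval_of {A B x0 y0 c : ℝ} {X Y X' Y' : ℝ → ℝ} (hA : 0 < A) (hB : 0 < B) (hc : 0 < c)
    (dX : ∀ θ, HasDerivAt X (X' θ) θ) (dY : ∀ θ, HasDerivAt Y (Y' θ) θ)
    (perX : ∀ θ, X (θ + 2 * π) = X θ) (perY : ∀ θ, Y (θ + 2 * π) = Y θ)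
    (hs : ∀ θ φ, A * B / 2 * (1 - cos (φ - θ)) ≤ X' θ * (Y φ - Y θ) - Y' θ * (X φ - X θ)) :
    Oval (fun θ => x0 + c * X θ) (fun θ => y0 + c * Y θ) (fun θ => c * X' θ)
      (fun θ => c * Y' θ) where
  dX θ := ((dX θ).const_mul c).const_add x0
  dY θ := ((dY θ).const_mul c).const_add y0
  perX θ := by simp only [perX]
  perY θ := by simp only [perY]
  inj θ φ h1 h2 := by
    have h3 : X φ = X θ := mul_left_cancel₀ hc.ne' (add_left_cancel h1)
    have h4 : Y φ = Y θ := mul_left_cancel₀ hc.ne' (add_left_cancel h2)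
    have h5 := hs θ φ
    rw [h3, h4] at h5
    have h6 : 0 < A * B / 2 := by positivity
    have h7 : 1 - cos (φ - θ) ≤ 0 := by
      by_contra h8
      push Not at h8
      have := mul_pos h6 h8
      linarith
    have := cos_le_one (φ - θ)
    linarith
  supp θ := by
    refine ⟨-Y' θ, X' θ, by ring, fun φ hφ => ?_⟩
    have h5 := hs θ φ
    have h6 : 0 < A * B / 2 := by positivity
    have h7 : 0 < 1 - cos (φ - θ) := by
      have := lt_of_le_of_ne (cos_le_one (φ - θ)) hφ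
      linarith
    have h8 := mul_pos h6 h7
    have h9 : 0 < c * (X' θ * (Y φ - Y θ) - Y' θ * (X φ - X θ)) := mul_pos hc (by linarith)
    have h10 : -Y' θ * (x0 + c * X φ - (x0 + c * X θ)) + X' θ * (y0 + c * Y φ - (y0 + c * Y θ))
        = c * (X' θ * (Y φ - Y θ) - Y' θ * (X φ - X θ)) := by ring
    rw [h10]
    exact h9
  reg θ := by
    by_contra h
    push Not at h
    obtain ⟨h1, h2⟩ := h
    have h3 : X' θ = 0 := by
      rcases mul_eq_zero.1 h1 with h | h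
      · exact absurd h hc.ne'
      · exact h
    have h4 : Y' θ = 0 := by
      rcases mul_eq_zero.1 h2 with h | h
      · exact absurd h hc.ne'
      · exact h
    have h5 := hs θ (θ + π)
    rw [h3, h4] at h5
    have h6 : cos (θ + π - θ) = -1 := by
      rw [add_sub_cancel_left, cos_pi]
    rw [h6] at h5
    have h7 : 0 < A * B := by positivity
    nlinarith

lemma mk_oval (β : ℝ) (hcβ : 0 < cos β) (hsβ : 0 < sin β) (e : ℝ) (he : 0 < e) :
    ∃ t0 > 0, ∀ ρ : ℝ, 0 < ρ → ρ ≤ t0 → ∀ p p' p'' q q' q'' : ℝ → ℝ,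
      (∀ θ, HasDerivAt p (p' θ) θ) → (∀ θ, HasDerivAt p' (p'' θ) θ) →
      (∀ θ, HasDerivAt q (q' θ) θ) → (∀ θ, HasDerivAt q' (q'' θ) θ) →
      (∀ θ, p (θ + 2 * π) = p θ) → (∀ θ, q (θ + 2 * π) = q θ) →
      (∀ θ, |p θ - cos (θ + β)| ≤ t0) → (∀ θ, |p' θ - (-sin (θ + β))| ≤ t0) →
      (∀ θ, |p'' θ - (-cos (θ + β))| ≤ t0) →
      (∀ θ, |q θ - cos (-θ + β)| ≤ t0) → (∀ θ, |q' θ - sin (-θ + β)| ≤ t0) →
      (∀ θ, |q'' θ - (-cos (-θ + β))| ≤ t0) →
      (∃ X' Y', Oval (fun θ => FX ρ (p θ) (q θ)) (fun θ => FY ρ (p θ) (q θ)) X' Y') ∧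
      ∀ θ, |FX ρ (p θ) (q θ) - (1 / 2 + ρ / 2 * (2 * cos β * cos θ))| ≤ ρ / 2 * e := by
  have hA : 0 < 2 * cos β := by linarith
  have hB : 0 < 2 * sin β := by linarith
  obtain ⟨τ, hτ, hsup⟩ := kam_support hA hB
  obtain ⟨t, ht, hcl⟩ := kam_c2_close (min e τ) (lt_min he hτ)
  refine ⟨t, ht, ?_⟩
  intro ρ hρ hρt p p' p'' q q' q'' dp dp' dq dq' pp pq hp hp' hp'' hq hq' hq''
  obtain ⟨hm, X', X'', Y', Y'', dX, dX', dY, dY', cX, cX', cX'', cY, cY', cY''⟩ :=
    hcl ρ hρ hρt p p' p'' q q' q'' (fun θ => cos (θ + β)) (fun θ => -sin (θ + β))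
      (fun θ => -cos (θ + β)) (fun θ => cos (-θ + β)) (fun θ => sin (-θ + β))
      (fun θ => -cos (-θ + β)) dp dp' dq dq'
      (fun θ => abs_cos_le_one _) (fun θ => by rw [abs_neg]; exact abs_sin_le_one _)
      (fun θ => by rw [abs_neg]; exact abs_cos_le_one _)
      (fun θ => abs_cos_le_one _) (fun θ => abs_sin_le_one _)
      (fun θ => by rw [abs_neg]; exact abs_cos_le_one _)
      hp hp' hp'' hq hq' hq''
  have i1 : ∀ θ, cos (θ + β) + cos (-θ + β) = 2 * cos β * cos θ := by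
    intro θ
    rw [cos_add, cos_add, cos_neg, sin_neg]
    ring
  have i2 : ∀ θ, cos (-θ + β) - cos (θ + β) = 2 * sin β * sin θ := by
    intro θ
    rw [cos_add, cos_add, cos_neg, sin_neg]
    ring
  have i3 : ∀ θ, -sin (θ + β) + sin (-θ + β) = -(2 * cos β * sin θ) := by
    intro θ
    rw [sin_add, sin_add, cos_neg, sin_neg]
    ring
  have i4 : ∀ θ, sin (-θ + β) - -sin (θ + β) = 2 * sin β * cos θ := by
    intro θ
    rw [sin_add, sin_add, cos_neg, sin_neg]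
    ring
  have key := hsup (fun x => (p x + q x) / (1 + ρ ^ 2 * (p x * q x)))
    (fun x => (q x - p x - 2 * ρ * (p x * q x)) / (1 + ρ ^ 2 * (p x * q x)))
    X' Y' X'' Y'' dX dY dX' dY' (fun θ => by simp only [pp, pq]) (fun θ => by simp only [pp, pq])
    (fun θ => by
      have := cX' θ
      rw [i3] at this
      exact this.trans (min_le_right _ _))
    (fun θ => by
      have := cY' θ
      rw [i4] at this
      exact this.trans (min_le_right _ _))
    (fun θ => by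
      have := cX'' θ
      rw [show -cos (θ + β) + -cos (-θ + β) = -(2 * cos β * cos θ) by rw [← i1]; ring] at this
      exact this.trans (min_le_right _ _))
    (fun θ => by
      have := cY'' θ
      rw [show -cos (-θ + β) - -cos (θ + β) = -(2 * sin β * sin θ) by rw [← i2]; ring] at this
      exact this.trans (min_le_right _ _))
  have hne : ∀ θ, 1 + ρ ^ 2 * (p θ * q θ) ≠ 0 := fun θ => by
    have := hm θ
    intro h
    linarith
  have o := oval_of (x0 := 1 / 2) (y0 := 1 / 2) (c := ρ / 2) hA hB (by linarith) dX dY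
    (fun θ => by simp only [pp, pq]) (fun θ => by simp only [pp, pq]) key
  have e1 : (fun θ => FX ρ (p θ) (q θ)) =
      fun θ => 1 / 2 + ρ / 2 * ((p θ + q θ) / (1 + ρ ^ 2 * (p θ * q θ))) := by
    funext θ
    exact FX_eq (hne θ)
  have e2 : (fun θ => FY ρ (p θ) (q θ)) =
      fun θ => 1 / 2 + ρ / 2 * ((q θ - p θ - 2 * ρ * (p θ * q θ)) /
        (1 + ρ ^ 2 * (p θ * q θ))) := by
    funext θ
    exact FY_eq (hne θ)
  refine ⟨⟨_, _, by rw [e1, e2]; exact o⟩, fun θ => ?_⟩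
  rw [FX_eq (hne θ)]
  have := cX θ
  rw [i1] at this
  have h1 : 1 / 2 + ρ / 2 * ((p θ + q θ) / (1 + ρ ^ 2 * (p θ * q θ))) -
      (1 / 2 + ρ / 2 * (2 * cos β * cos θ)) =
      ρ / 2 * ((p θ + q θ) / (1 + ρ ^ 2 * (p θ * q θ)) - 2 * cos β * cos θ) := by ring
  rw [h1, abs_mul, abs_of_pos (by linarith : 0 < ρ / 2)]
  exact mul_le_mul_of_nonneg_left (this.trans (min_le_left _ _)) (by linarith)

lemma Oval.shift {X Y X' Y' : ℝ → ℝ} (h : Oval X Y X' Y') (c : ℝ) :
    Oval (fun θ => X (θ + c)) (fun θ => Y (θ + c)) (fun θ => X' (θ + c))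
      (fun θ => Y' (θ + c)) where
  dX θ := by
    have := (h.dX (θ + c)).comp_add_const θ c
    exact this
  dY θ := by
    have := (h.dY (θ + c)).comp_add_const θ c
    exact this
  perX θ := by
    rw [show θ + 2 * π + c = θ + c + 2 * π by ring]
    exact h.perX _
  perY θ := by
    rw [show θ + 2 * π + c = θ + c + 2 * π by ring]
    exact h.perY _
  inj θ φ h1 h2 := by
    have := h.inj (θ + c) (φ + c) h1 h2
    rwa [show φ + c - (θ + c) = φ - θ by ring] at this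
  supp θ := by
    obtain ⟨m, n, h1, h2⟩ := h.supp (θ + c)
    refine ⟨m, n, h1, fun φ hφ => h2 (φ + c) ?_⟩
    rwa [show φ + c - (θ + c) = φ - θ by ring]
  reg θ := h.reg (θ + c)

lemma Oval.neg {X Y X' Y' : ℝ → ℝ} (h : Oval X Y X' Y') :
    Oval (fun θ => X (-θ)) (fun θ => Y (-θ)) (fun θ => -X' (-θ)) (fun θ => -Y' (-θ)) where
  dX θ := by
    have := (h.dX (-θ)).comp θ (hasDerivAt_neg θ)
    rw [mul_neg_one] at this
    exact this
  dY θ := by
    have := (h.dY (-θ)).comp θ (hasDerivAt_neg θ)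
    rw [mul_neg_one] at this
    exact this
  perX θ := by
    have := h.perX (-(θ + 2 * π))
    rw [show -(θ + 2 * π) + 2 * π = -θ by ring] at this
    exact this.symm
  perY θ := by
    have := h.perY (-(θ + 2 * π))
    rw [show -(θ + 2 * π) + 2 * π = -θ by ring] at this
    exact this.symm
  inj θ φ h1 h2 := by
    have := h.inj (-θ) (-φ) h1 h2
    rw [show -φ - -θ = -(φ - θ) by ring, cos_neg] at this
    exact this
  supp θ := by
    obtain ⟨m, n, h1, h2⟩ := h.supp (-θ)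
    refine ⟨m, n, by linarith, fun φ hφ => h2 (-φ) ?_⟩
    rwa [show -φ - -θ = -(φ - θ) by ring, cos_neg]
  reg θ := by
    rcases h.reg (-θ) with h | h
    · exact Or.inl (neg_ne_zero.2 h)
    · exact Or.inr (neg_ne_zero.2 h)

lemma body_reparam (X Y : ℝ → ℝ) (f : ℝ → ℝ) (hf : Function.Surjective f) :
    body (fun θ => X (f θ)) (fun θ => Y (f θ)) = body X Y := by
  unfold body
  congr 1
  exact hf.range_comp (fun θ => (!₂[X θ, Y θ] : EuclideanSpace ℝ (Fin 2)))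

lemma isBody_of {X Y X' Y' : ℝ → ℝ} (h : Oval X Y X' Y') : IsBody (body X Y) :=
  ⟨body_compact h, convex_convexHull ℝ _, body_interior h⟩

theorem two_bodies
    (H : ∀ t : ℝ, 0 < t → ∃ (ρ μ : ℝ) (s s' s'' : ℝ → ℝ), 0 < ρ ∧ ρ ≤ t ∧
      (∀ θ, HasDerivAt s (s' θ) θ) ∧ (∀ θ, HasDerivAt s' (s'' θ) θ) ∧
      (∀ θ, s (θ + 2 * π) = s θ) ∧
      (∀ θ, |s θ - cos (θ + al)| ≤ t) ∧ (∀ θ, |s' θ - (-sin (θ + al))| ≤ t) ∧
      (∀ θ, |s'' θ - (-cos (θ + al))| ≤ t) ∧
      ∀ θ, s (-θ - om) / (1 + ρ ^ 2 * (s θ * s (-θ - om)))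
        - s (-θ) / (1 + ρ ^ 2 * (s θ * s (-θ))) = μ * s θ) :
    ¬ Determines {!₂[(0 : ℝ), 0], !₂[(1 : ℝ), 0]} := by
  intro hdet
  have hpi := pi_pos
  have h2a : (1 : ℝ) < √2 := by
    rw [show (1 : ℝ) = √1 by simp]
    exact Real.sqrt_lt_sqrt (by norm_num) (by norm_num)
  have h2b : √2 < 3 / 2 := by
    rw [Real.sqrt_lt' (by norm_num)]
    norm_num
  have hom0 : 0 < om := by
    unfold om
    have : 0 < √2 - 1 := by linarith
    positivity
  have hom1 : om < π := by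
    unfold om
    nlinarith
  set nu : ℝ := π / 4 - om / 4 with hnu
  have hnu0 : 0 < nu := by rw [hnu]; linarith
  have hnu1 : nu < π / 4 := by rw [hnu]; linarith
  have hal : al = π / 2 - nu := by rw [hnu]; unfold al; ring
  have hcal : cos al = sin nu := by rw [hal, cos_pi_div_two_sub]
  have hsal : sin al = cos nu := by rw [hal, sin_pi_div_two_sub]
  have hsn : 0 < sin nu := sin_pos_of_pos_of_lt_pi hnu0 (by linarith)
  have hcn : 0 < cos nu := cos_pos_of_mem_Ioo ⟨by linarith, by linarith⟩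
  have hlt : sin nu < cos nu := by
    rw [← cos_pi_div_two_sub]
    apply cos_lt_cos_of_nonneg_of_le_pi_div_two hnu0.le (by linarith) (by linarith)
  have he : 0 < (cos nu - sin nu) / 2 := by linarith
  obtain ⟨tK, htK, hK⟩ := mk_oval al (by rw [hcal]; exact hsn) (by rw [hsal]; exact hcn) _ he
  obtain ⟨tL, htL, hL⟩ := mk_oval nu hcn hsn _ he
  obtain ⟨ρ, μ, s, s', s'', hρ, hρt, ds, ds', ps, cs, cs', cs'', hfe⟩ :=
    H (min (min tK tL) (1 / 4)) (lt_min (lt_min htK htL) (by norm_num))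
  have hρK : ρ ≤ tK := hρt.trans ((min_le_left _ _).trans (min_le_left _ _))
  have hρL : ρ ≤ tL := hρt.trans ((min_le_left _ _).trans (min_le_right _ _))
  have hρ4 : ρ ≤ 1 / 4 := hρt.trans (min_le_right _ _)
  have htK' : min (min tK tL) (1 / 4) ≤ tK := (min_le_left _ _).trans (min_le_left _ _)
  have htL' : min (min tK tL) (1 / 4) ≤ tL := (min_le_left _ _).trans (min_le_right _ _)
  have ht4 : min (min tK tL) (1 / 4) ≤ 1 / 4 := min_le_right _ _
  -- bounds
  have hb : ∀ θ, |ρ * s θ| ≤ 1 / 2 := by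
    intro θ
    have h1 : |s θ| ≤ 2 := by
      have h2 := (cs θ).trans ht4
      have h3 := abs_cos_le_one (θ + al)
      have h4 : |s θ| ≤ |s θ - cos (θ + al)| + |cos (θ + al)| := by
        have := abs_add_le (s θ - cos (θ + al)) (cos (θ + al))
        rwa [sub_add_cancel] at this
      linarith
    rw [abs_mul, abs_of_pos hρ]
    nlinarith [abs_nonneg (s θ)]
  -- derivative of the reflected function
  have dneg : ∀ c θ, HasDerivAt (fun x => s (-x - c)) (-s' (-θ - c)) θ := by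
    intro c θ
    have h1 : HasDerivAt (fun x : ℝ => -x - c) (-1) θ := (hasDerivAt_neg θ).sub_const c
    have := (ds (-θ - c)).comp θ h1
    rw [mul_neg_one] at this
    exact this
  have dneg' : ∀ c θ, HasDerivAt (fun x => -s' (-x - c)) (s'' (-θ - c)) θ := by
    intro c θ
    have h1 : HasDerivAt (fun x : ℝ => -x - c) (-1) θ := (hasDerivAt_neg θ).sub_const c
    have := ((ds' (-θ - c)).comp θ h1).neg
    rw [mul_neg_one, neg_neg] at this
    exact this
  have pneg : ∀ c θ, s (-(θ + 2 * π) - c) = s (-θ - c) := by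
    intro c θ
    have := ps (-(θ + 2 * π) - c)
    rw [show -(θ + 2 * π) - c + 2 * π = -θ - c by ring] at this
    exact this.symm
  -- the oval K
  obtain ⟨⟨KX', KY', OK⟩, cK⟩ := hK ρ hρ hρK s s' s'' (fun x => s (-x - 0)) (fun x => -s' (-x - 0))
    (fun x => s'' (-x - 0)) ds ds' (dneg 0) (dneg' 0) ps (pneg 0)
    (fun θ => (cs θ).trans htK') (fun θ => (cs' θ).trans htK') (fun θ => (cs'' θ).trans htK')
    (fun θ => by
      have := (cs (-θ - 0)).trans htK'
      rwa [show -θ - 0 + al = -θ + al by ring] at this)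
    (fun θ => by
      have := (cs' (-θ - 0)).trans htK'
      rw [show -θ - 0 + al = -θ + al by ring] at this
      rw [show -s' (-θ - 0) - sin (-θ + al) = -(s' (-θ - 0) - (-sin (-θ + al))) by ring, abs_neg]
      exact this)
    (fun θ => by
      have := (cs'' (-θ - 0)).trans htK'
      rwa [show -θ - 0 + al = -θ + al by ring] at this)
  simp only [sub_zero] at OK cK
  -- the oval L
  have hnual : ∀ x : ℝ, x - om / 2 + al = x + nu := by
    intro x
    rw [hnu]; unfold al; ring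
  obtain ⟨⟨LX', LY', OL0⟩, cL⟩ := hL ρ hρ hρL (fun x => s (x + -(om / 2))) (fun x => s' (x + -(om / 2)))
    (fun x => s'' (x + -(om / 2))) (fun x => s (-x - om / 2)) (fun x => -s' (-x - om / 2))
    (fun x => s'' (-x - om / 2))
    (fun θ => (ds (θ + -(om / 2))).comp_add_const θ _)
    (fun θ => (ds' (θ + -(om / 2))).comp_add_const θ _)
    (dneg (om / 2)) (dneg' (om / 2))
    (fun θ => by
      rw [show θ + 2 * π + -(om / 2) = θ + -(om / 2) + 2 * π by ring]; exact ps _)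
    (pneg (om / 2))
    (fun θ => by
      have := (cs (θ + -(om / 2))).trans htL'
      rwa [show θ + -(om / 2) + al = θ + nu by rw [← hnual]; ring] at this)
    (fun θ => by
      have := (cs' (θ + -(om / 2))).trans htL'
      rwa [show θ + -(om / 2) + al = θ + nu by rw [← hnual]; ring] at this)
    (fun θ => by
      have := (cs'' (θ + -(om / 2))).trans htL'
      rwa [show θ + -(om / 2) + al = θ + nu by rw [← hnual]; ring] at this)
    (fun θ => by
      have := (cs (-θ - om / 2)).trans htL'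
      rwa [hnual] at this)
    (fun θ => by
      have := (cs' (-θ - om / 2)).trans htL'
      rw [hnual] at this
      rw [show -s' (-θ - om / 2) - sin (-θ + nu) = -(s' (-θ - om / 2) - (-sin (-θ + nu))) by ring,
        abs_neg]
      exact this)
    (fun θ => by
      have := (cs'' (-θ - om / 2)).trans htL'
      rwa [hnual] at this)
  have OL := OL0.shift (om / 2)
  have r1 : ∀ θ : ℝ, θ + om / 2 + -(om / 2) = θ := fun θ => by ring
  have r2 : ∀ θ : ℝ, -(θ + om / 2) - om / 2 = -θ - om := fun θ => by ring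
  simp only [r1, r2] at OL
  -- the two bodies
  have hKL : body (fun θ => FX ρ (s θ) (s (-θ))) (fun θ => FY ρ (s θ) (s (-θ))) =
      body (fun θ => FX ρ (s θ) (s (-θ - om))) (fun θ => FY ρ (s θ) (s (-θ - om))) := by
    apply hdet _ _ (isBody_of OK) (isBody_of OL)
    intro x hx
    rcases hx with rfl | hx
    · -- the point (0,0)
      refine pencil OK OL 0 0 (fun θ => (1 + ρ * s θ) / (1 - ρ * s θ))
        (fun θ => FY ρ (s θ) (s (-θ))) (fun θ => FY ρ (s θ) (s (-θ - om)))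
        (fun S => 2 * μ * (S - 1) / (S + 1) ^ 3) ?_ ?_ ?_ ?_ ?_ ?_ ?_
      · intro θ
        have h1 := (abs_le.1 (hb θ)).2
        exact A1 (m_pos (hb θ) (hb (-θ))).ne' (by intro h; linarith)
      · intro θ
        simp
      · intro θ
        have h1 := (abs_le.1 (hb θ)).2
        exact A1 (m_pos (hb θ) (hb (-θ - om))).ne' (by intro h; linarith)
      · intro θ
        simp
      · intro θ
        exact FY_pos (hb θ) (hb _)
      · intro θ
        exact FY_pos (hb θ) (hb _)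
      · intro θ
        have h1 := (abs_le.1 (hb θ)).2
        have h2 : 1 - ρ * s θ ≠ 0 := by intro h; linarith
        have e3 : FY ρ (s θ) (s (-θ - om)) - FY ρ (s θ) (s (-θ)) =
            ρ * (1 - ρ * s θ) ^ 2 / 2 * (μ * s θ) := by
          rw [E1 (m_pos (hb θ) (hb (-θ - om))).ne', E1 (m_pos (hb θ) (hb (-θ))).ne', ← hfe θ]
          ring
        exact e3.trans (DD1 h2)
    · -- the point (1,0)
      have hx' : x = !₂[(1 : ℝ), 0] := hx
      subst hx'
      have OK2 := OK.neg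
      have OL2 := OL.neg.shift om
      have r3 : ∀ θ : ℝ, -(θ + om) = -θ - om := fun θ => by ring
      have r4 : ∀ θ : ℝ, -(-θ - om) - om = θ := fun θ => by ring
      simp only [neg_neg] at OK2
      simp only [r3, r4] at OL2
      have bK : body (fun θ => FX ρ (s (-θ)) (s θ)) (fun θ => FY ρ (s (-θ)) (s θ)) =
          body (fun θ => FX ρ (s θ) (s (-θ))) (fun θ => FY ρ (s θ) (s (-θ))) := by
        have := body_reparam (fun θ => FX ρ (s θ) (s (-θ))) (fun θ => FY ρ (s θ) (s (-θ)))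
          (fun θ => -θ) neg_surjective
        simp only [neg_neg] at this
        exact this
      have bL : body (fun θ => FX ρ (s (-θ - om)) (s θ)) (fun θ => FY ρ (s (-θ - om)) (s θ)) =
          body (fun θ => FX ρ (s θ) (s (-θ - om))) (fun θ => FY ρ (s θ) (s (-θ - om))) := by
        have := body_reparam (fun θ => FX ρ (s θ) (s (-θ - om)))
          (fun θ => FY ρ (s θ) (s (-θ - om)))
          (fun θ => -θ - om) (fun y => ⟨-y - om, by ring⟩)
        simp only [r4] at this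
        exact this
      rw [← bK, ← bL]
      refine pencil OK2 OL2 1 0 (fun θ => -((1 - ρ * s θ) / (1 + ρ * s θ)))
        (fun θ => FY ρ (s (-θ)) (s θ)) (fun θ => FY ρ (s (-θ - om)) (s θ))
        (fun T => -(2 * μ * (1 + T) / (1 - T) ^ 3)) ?_ ?_ ?_ ?_ ?_ ?_ ?_
      · intro θ
        have h1 := (abs_le.1 (hb θ)).1
        exact A2 (m_pos (hb (-θ)) (hb θ)).ne' (by intro h; linarith)
      · intro θ
        simp
      · intro θ
        have h1 := (abs_le.1 (hb θ)).1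
        exact A2 (m_pos (hb (-θ - om)) (hb θ)).ne' (by intro h; linarith)
      · intro θ
        simp
      · intro θ
        exact FY_pos (hb _) (hb _)
      · intro θ
        exact FY_pos (hb _) (hb _)
      · intro θ
        have h1 := (abs_le.1 (hb θ)).1
        have h2 : 1 + ρ * s θ ≠ 0 := by intro h; linarith
        have e3 : FY ρ (s (-θ - om)) (s θ) - FY ρ (s (-θ)) (s θ) =
            -(ρ * (1 + ρ * s θ) ^ 2 / 2 * (μ * s θ)) := by
          rw [E2 (m_pos (hb θ) (hb (-θ - om))).ne', E2 (m_pos (hb θ) (hb (-θ))).ne', ← hfe θ]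
          ring
        exact e3.trans (DD2 h2)
  -- contradiction
  have hL0 := cL 0
  have hmem : (!₂[FX ρ (s (0 + -(om / 2))) (s (-0 - om / 2)), FY ρ (s (0 + -(om / 2))) (s (-0 - om / 2))] :
      EuclideanSpace ℝ (Fin 2)) ∈
      body (fun θ => FX ρ (s θ) (s (-θ - om))) (fun θ => FY ρ (s θ) (s (-θ - om))) := by
    have := mem_body (fun θ => FX ρ (s θ) (s (-θ - om))) (fun θ => FY ρ (s θ) (s (-θ - om)))
      (0 + -(om / 2))
    rw [show -((0 : ℝ) + -(om / 2)) - om = -0 - om / 2 by ring] at this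
    exact this
  rw [← hKL] at hmem
  have hlow : ∀ θ, -(1 / 2 + ρ / 2 * (2 * sin nu + (cos nu - sin nu))) <
      (-1) * FX ρ (s θ) (s (-θ)) + 0 * FY ρ (s θ) (s (-θ)) := by
    intro θ
    have h1 := (abs_le.1 (cK θ)).2
    rw [hcal] at h1
    have h2 : sin nu * cos θ ≤ sin nu := by
      have := cos_le_one θ
      nlinarith
    nlinarith
  have h1 := body_lt hlow hmem
  simp only [neg_mul, one_mul, zero_mul, add_zero] at h1
  have h2 := (abs_le.1 hL0).1
  simp only [cos_zero, mul_one] at h2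
  simp at h1
  simp at h2
  nlinarith


end Pool.Agent.Helper822.KAM.Geo
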