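import Pool.Agent.Helper822.KAM.Iter
import Pool.Agent.Helper822.KAM.Geo

namespace Pool.Agent.Helper822.KAM

theorem not_determines : ¬ Geo.Determines {!₂[(0 : ℝ), 0], !₂[(1 : ℝ), 0]} := by
  apply Geo.two_bodies
  intro t ht
  obtain ⟨τ, hτ⟩ : ∃ τ : ℝ, τ = min (t ^ 2) (t / 16) := ⟨_, rfl⟩
  have hτ0 : 0 < τ := by rw [hτ]; exact lt_min (by positivity) (by positivity)
  have hτ1 : τ ≤ t ^ 2 := by rw [hτ]; exact min_le_left _ _
  have hτ2 : τ ≤ t / 16 := by rw [hτ]; exact min_le_right _ _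
  obtain ⟨η, lam, s, hη0, hη1, hlam, hs, hres⟩ := kam_main τ hτ0
  obtain ⟨D', hD', bD'⟩ := hs.deriv (by norm_num)
  have b1 := bD' (1 / 4) (by norm_num) (by norm_num)
  obtain ⟨D'', hD'', bD''⟩ := b1.deriv (by norm_num)
  have b2 := bD'' (1 / 4) (by norm_num) (by norm_num)
  have ds0 : ∀ θ, HasDerivAt s0 (u0 θ) θ := fun θ => by
    have h1 : HasDerivAt (fun θ : ℝ => θ + al) 1 θ := (hasDerivAt_id θ).add_const al
    refine h1.cos.congr_deriv ?_
    simp [u0]
  have du0 : ∀ θ, HasDerivAt u0 (-s0 θ) θ := fun θ => by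
    have h1 : HasDerivAt (fun θ : ℝ => θ + al) 1 θ := (hasDerivAt_id θ).add_const al
    refine h1.sin.neg.congr_deriv ?_
    simp [s0]
  refine ⟨√η, ka + lam, s, D' + u0, D'' + (-s0), Real.sqrt_pos.2 hη0, ?_, fun θ => ?_, fun θ => ?_,
    fun θ => ?_, fun θ => ?_, fun θ => ?_, fun θ => ?_, fun θ => ?_⟩
  · rw [← Real.sqrt_sq ht.le]
    exact Real.sqrt_le_sqrt (hη1.trans hτ1)
  · have h := (hD' θ).add (ds0 θ)
    rwa [sub_add_cancel] at h
  · exact (hD'' θ).add (du0 θ)
  · have h1 := hs.periodic θ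
    have h2 : s0 (θ + 2 * Real.pi) = s0 θ := by
      simp only [s0]
      rw [show θ + 2 * Real.pi + al = θ + al + 2 * Real.pi by ring, Real.cos_add_two_pi]
    simp only [Pi.sub_apply] at h1
    linarith
  · have := hs.abs_le (by norm_num) θ
    refine (le_of_eq ?_).trans (this.trans (by linarith))
    rfl
  · have := b1.abs_le (by norm_num) θ
    have e : (D' + u0) θ - (-Real.sin (θ + Geo.al)) = D' θ := by
      have : u0 θ = -Real.sin (θ + Geo.al) := rfl
      simp only [Pi.add_apply]; rw [this]; ring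
    rw [e]
    refine this.trans ?_
    rw [div_le_iff₀ (by norm_num)]
    linarith
  · have := b2.abs_le (by norm_num) θ
    have e : (D'' + (-s0)) θ - (-Real.cos (θ + Geo.al)) = D'' θ := by
      have : s0 θ = Real.cos (θ + Geo.al) := rfl
      simp only [Pi.add_apply, Pi.neg_apply]; rw [this]; ring
    rw [e]
    refine this.trans ?_
    rw [div_le_iff₀ (by norm_num), div_le_iff₀ (by norm_num)]
    linarith
  · have h := hres θ
    have hom : Geo.om = om := rfl
    simp only [res] at h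
    rw [Real.sq_sqrt hη0.le, hom]
    linear_combination h

theorem all_pairs (x y : EuclideanSpace ℝ (Fin 2)) (hxy : x ≠ y) : ¬ Geo.Determines {x, y} :=
  Geo.all_pairs not_determines x y hxy

end Pool.Agent.Helper822.KAM
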