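import Pool.Agent.Helper822.KAM.Bn
import Pool.Agent.Helper822.KAM.Alg

namespace Pool.Agent.Helper822.KAM

open Sys

variable {S : Sys} {r L K : ℝ}

theorem Sys.Valid.v2_refl (V : S.Valid r K) (θ : ℝ) : S.v2 (-θ - S.ω) = S.v2 θ := by
  have h1 := V.hv2 θ
  have h2 := V.hv2 (-θ - S.ω)
  simp only [Sys.s2] at h1 h2
  rw [show -(-θ - S.ω) - S.ω = θ by ring] at h2
  have hne : (1 + S.η * (S.s θ * S.s (-θ - S.ω))) ≠ 0 := right_ne_zero_of_mul_eq_one h1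
  apply mul_right_cancel₀ hne
  linear_combination h2 - h1

theorem Sys.Valid.v1_refl (V : S.Valid r K) (θ : ℝ) : S.v1 (-θ) = S.v1 θ := by
  have h1 := V.hv1 θ
  have h2 := V.hv1 (-θ)
  simp only [Sys.s1] at h1 h2
  rw [neg_neg] at h2
  have hne : (1 + S.η * (S.s θ * S.s (-θ))) ≠ 0 := right_ne_zero_of_mul_eq_one h1
  apply mul_right_cancel₀ hne
  linear_combination h2 - h1

theorem Sys.Valid.φ_refl (V : S.Valid r K) (θ : ℝ) : S.φ (-θ) = S.φ θ := by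
  have h1 := V.hφ θ
  have h2 := V.hφ (-θ)
  simp only [Sys.s1, Sys.u1, Sys.w1, Pi.mul_apply] at h1 h2
  rw [neg_neg, V.v1_refl] at h2
  have hne : (S.v1 θ * S.v1 θ * (S.u θ * S.s (-θ) + S.u (-θ) * S.s θ)) ≠ 0 := right_ne_zero_of_mul_eq_one h1
  apply mul_right_cancel₀ hne
  linear_combination h2 - h1

/-- the derivative of the residual -/
theorem Sys.Valid.derE (V : S.Valid r K) (θ : ℝ) :
    HasDerivAt S.E (-(S.w2 θ * S.u2 θ) + S.w1 θ * S.u1 θ + S.b θ * S.u θ) θ := by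
  have d0 := V.der θ
  have d1 : HasDerivAt S.s1 (-(S.u1 θ)) θ := by
    have h0 : HasDerivAt S.s1 (S.u (-θ) * -1) θ := (V.der (-θ)).comp θ (hasDerivAt_neg θ)
    refine h0.congr_deriv ?_
    simp only [Sys.u1]; ring
  have d2 : HasDerivAt S.s2 (-(S.u2 θ)) θ := by
    have h0 : HasDerivAt (fun x : ℝ => -x - S.ω) (-1) θ := (hasDerivAt_neg θ).sub_const _
    have h3 : HasDerivAt S.s2 (S.u (-θ - S.ω) * -1) θ := (V.der (-θ - S.ω)).comp θ h0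
    refine h3.congr_deriv ?_
    simp only [Sys.u2]; ring
  have h1 := V.hv1 θ
  have h2 := V.hv2 θ
  have hn1 : (1 + S.η * (S.s θ * S.s1 θ)) ≠ 0 := right_ne_zero_of_mul_eq_one h1
  have hn2 : (1 + S.η * (S.s θ * S.s2 θ)) ≠ 0 := right_ne_zero_of_mul_eq_one h2
  have e1 : S.v1 = fun θ => 1 / (1 + S.η * (S.s θ * S.s1 θ)) := by
    funext t; exact eq_one_div_of_mul_eq_one_left (V.hv1 t)
  have e2 : S.v2 = fun θ => 1 / (1 + S.η * (S.s θ * S.s2 θ)) := by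
    funext t; exact eq_one_div_of_mul_eq_one_left (V.hv2 t)
  have q1 : HasDerivAt (fun θ => S.s1 θ / (1 + S.η * (S.s θ * S.s1 θ)))
      ((-(S.u1 θ) * (1 + S.η * (S.s θ * S.s1 θ)) - S.s1 θ * (S.η * (S.u θ * S.s1 θ + S.s θ * -(S.u1 θ)))) / (1 + S.η * (S.s θ * S.s1 θ)) ^ 2) θ :=
    d1.div (((d0.mul d1).const_mul S.η).const_add 1) hn1
  have q2 : HasDerivAt (fun θ => S.s2 θ / (1 + S.η * (S.s θ * S.s2 θ)))
      ((-(S.u2 θ) * (1 + S.η * (S.s θ * S.s2 θ)) - S.s2 θ * (S.η * (S.u θ * S.s2 θ + S.s θ * -(S.u2 θ)))) / (1 + S.η * (S.s θ * S.s2 θ)) ^ 2) θ :=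
    d2.div (((d0.mul d2).const_mul S.η).const_add 1) hn2
  have q := (q2.sub q1).sub (d0.const_mul S.k)
  have eE : S.E = fun θ => S.s2 θ / (1 + S.η * (S.s θ * S.s2 θ)) - S.s1 θ / (1 + S.η * (S.s θ * S.s1 θ)) - S.k * S.s θ := by
    funext t
    simp only [Sys.E, Pi.sub_apply, Pi.mul_apply, e1, e2]
    ring
  rw [eE]
  refine q.congr_deriv ?_
  simp only [Sys.b, Sys.w1, Sys.w2, Pi.sub_apply, Pi.mul_apply, Pi.add_apply, Pi.neg_apply, e1, e2]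
  obtain ⟨m1, hm1⟩ : ∃ m1, m1 = (1 + S.η * (S.s θ * S.s1 θ)) := ⟨_, rfl⟩
  obtain ⟨m2, hm2⟩ : ∃ m2, m2 = (1 + S.η * (S.s θ * S.s2 θ)) := ⟨_, rfl⟩
  rw [← hm1] at hn1
  rw [← hm2] at hn2
  rw [← hm1, ← hm2]
  field_simp
  subst hm1 hm2
  ring

theorem Bn.loss {e δ : ℝ} {n j : ℕ} {f : ℝ → ℝ} (hL : 0 ≤ L) (he0 : 0 ≤ e)
    (h : ∀ δ', 0 < δ' → δ' ≤ r → Bd (r - δ') ((L ^ n * e ^ j) / δ') f)
    (hδ : 0 < δ) (hδr : δ ≤ r) (hδL : 1 / δ ≤ L) : Bn L e (r - δ) (n + 1) j f := by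
  refine (h δ hδ hδr).mono le_rfl ?_
  have h0 : 0 ≤ L ^ n * e ^ j := mul_nonneg (pow_nonneg hL _) (pow_nonneg he0 _)
  calc L ^ n * e ^ j / δ = L ^ n * e ^ j * (1 / δ) := by ring
    _ ≤ L ^ n * e ^ j * L := mul_le_mul_of_nonneg_left hδL h0
    _ = L ^ (n + 1) * e ^ j := by ring

theorem Sys.Valid.w2i_refl (_V : S.Valid r K) (θ : ℝ) : S.w2i (-θ - S.ω) = S.w2i θ := by
  simp only [Sys.w2i, Sys.m2, Sys.s2, Pi.mul_apply, Pi.add_apply]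
  rw [show -(-θ - S.ω) - S.ω = θ by ring]
  ring

theorem Sys.Y2_refl (θ : ℝ) : S.Y2 (-θ - S.ω) = S.Y θ := by
  simp only [Sys.Y2]
  rw [show -(-θ - S.ω) - S.ω = θ by ring]

theorem Sys.Z2_refl (θ : ℝ) : S.Z2 (-θ - S.ω) = S.Z θ := by
  simp only [Sys.Z2]
  rw [show -(-θ - S.ω) - S.ω = θ by ring]

theorem Sys.Valid.T_refl (V : S.Valid r K) (θ : ℝ) : S.T (-θ - S.ω) = S.T θ := by
  simp only [Sys.T, Pi.mul_apply, Pi.add_apply]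
  rw [Sys.Y2_refl, Sys.Z2_refl, V.w2i_refl]
  simp only [Sys.Y2, Sys.Z2]
  ring

theorem Sys.Valid.af_refl (V : S.Valid r K) {ζ ζ2 B : ℝ → ℝ} (h1 : ∀ θ, ζ (-θ - S.ω) = ζ2 θ)
    (h2 : ∀ θ, ζ2 (-θ - S.ω) = ζ θ) (hB : ∀ θ, B (-θ - S.ω) = B θ) (θ : ℝ) :
    S.af ζ ζ2 B (-θ - S.ω) = S.af ζ ζ2 B θ := by
  simp only [Sys.af, Pi.mul_apply, Pi.add_apply, Pi.neg_apply]
  rw [Sys.Y2_refl, V.T_refl, V.w2i_refl, h1, h2, hB]
  simp only [Sys.Y2]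
  ring

theorem step {e δ : ℝ} (hK : 4 ≤ K) (hKL : K ≤ L) (he0 : 0 ≤ e) (he1 : e ≤ 1)
    (hδ : 0 < δ) (hδL : 1 / δ ≤ L) (hr : 1 / 2 ≤ r - 3 * δ) (hη0 : 0 ≤ S.η) (hη1 : S.η ≤ 1)
    (hk : |S.k| ≤ K) (hω : ∀ k : ℤ, k ≠ 0 → 1 / |(k : ℝ)| ≤ ‖ex k S.ω - 1‖)
    (V : S.Valid r K) (bE : Bd r e S.E) :
    ∃ (h h' : ℝ → ℝ) (l : ℝ), (∀ θ, HasDerivAt h (h' θ) θ) ∧ Bd (r - 3 * δ) (L ^ 240 * e) h ∧
      Bd (r - 3 * δ) (L ^ 240 * e) h' ∧ |l| ≤ L ^ 240 * e ∧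
      ∀ v1' v2' : ℝ → ℝ,
        (∀ θ, v1' θ * (1 + S.η * ((S.s θ + h θ) * (S.s1 θ + h (-θ)))) = 1) →
        (∀ θ, v2' θ * (1 + S.η * ((S.s θ + h θ) * (S.s2 θ + h (-θ - S.ω)))) = 1) →
        Bd (r - 3 * δ) L v1' → Bd (r - 3 * δ) L v2' →
        Bd (r - 3 * δ) (L ^ 240 * e ^ 2)
          (fun θ => (S.s2 θ + h (-θ - S.ω)) * v2' θ - (S.s1 θ + h (-θ)) * v1' θ - (S.k + l) * (S.s θ + h θ)) := by
  have hL : 4 ≤ L := hK.trans hKL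
  have hL0 : 0 ≤ L := by linarith
  have hr0 : 0 ≤ r := by linarith
  have hr0' : 0 < r := by linarith
  have hr1 : 0 ≤ r - δ := by linarith
  have hr1' : 0 < r - δ := by linarith
  have hr2 : 0 ≤ r - 2 * δ := by linarith
  have hr2' : 0 < r - 2 * δ := by linarith
  have hr3 : 0 ≤ r - 3 * δ := by linarith
  have bs : Bn L e r 1 0 S.s := Bn.of (V.bs.mono le_rfl hKL)
  have bu : Bn L e r 1 0 S.u := Bn.of (V.bu.mono le_rfl hKL)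
  have bv1 : Bn L e r 1 0 S.v1 := Bn.of (V.bv1.mono le_rfl hKL)
  have bv2 : Bn L e r 1 0 S.v2 := Bn.of (V.bv2.mono le_rfl hKL)
  have bφ : Bn L e r 1 0 S.φ := Bn.of (V.bφ.mono le_rfl hKL)
  have bs1 : Bn L e r 1 0 S.s1 := bs.refl
  have bs2 : Bn L e r 1 0 S.s2 := bs.refl1 _
  have bu1 : Bn L e r 1 0 S.u1 := bu.refl
  have bu2 : Bn L e r 1 0 S.u2 := bu.refl1 _
  have bw1 : Bn L e r 2 0 S.w1 := bv1.mul hr0 bv1
  have bw2 : Bn L e r 2 0 S.w2 := bv2.mul hr0 bv2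
  have bη : Bn L e r 0 0 (fun _ => S.η) := Bn.const (by rw [abs_of_nonneg hη0]; simpa using hη1)
  have b1 : Bn L e r 0 0 (fun _ => (1:ℝ)) := Bn.const (by simp)
  have bk : Bn L e r 1 0 (fun _ => S.k) := Bn.const (by simpa using hk.trans hKL)
  have bm2 : Bn L e r 3 0 S.m2 := (b1.add hL he0 (bη.mul hr0 (bs.mul hr0 bs2))).up hL he0 (by norm_num)
  have bm1 : Bn L e r 3 0 ((fun _ => (1:ℝ)) + (fun _ => S.η) * (S.s * S.s1)) :=
    (b1.add hL he0 (bη.mul hr0 (bs.mul hr0 bs1))).up hL he0 (by norm_num)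
  have bw2i : Bn L e r 6 0 S.w2i := bm2.mul hr0 bm2
  have bb : Bn L e r 6 0 S.b :=
    (((((bη.mul hr0 (bs2.mul hr0 bs2)).mul hr0 bw2).neg.add hL he0
      ((bη.mul hr0 (bs1.mul hr0 bs1)).mul hr0 bw1))).sub hL he0 bk).up hL he0 (by norm_num)
  have bc : Bn L e r 9 0 S.c :=
    (((bb.mul hr0 bs).sub hL he0 (bw1.mul hr0 bs1)).mul hr0 bφ).up hL he0 (by norm_num)
  have bφp : Bn L e r 1 0 S.φp := bφ.shift _
  have bY : Bn L e r 10 0 S.Y :=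
    ((((bw2.mul hr0 bs2).mul hr0 bφp).sub hL he0 bc).half hL he0).up hL he0 (by norm_num)
  have bZ : Bn L e r 10 0 S.Z :=
    (((bw2.mul hr0 bs2).mul hr0 bφp).add hL he0 bc).up hL he0 (by norm_num)
  have bY2 : Bn L e r 10 0 S.Y2 := bY.refl1 _
  have bZ2 : Bn L e r 10 0 S.Z2 := bZ.refl1 _
  have bT : Bn L e r 27 0 S.T :=
    (((bZ.mul hr0 bY2).add hL he0 (bY.mul hr0 bZ2)).mul hr0 bw2i).up hL he0 (by norm_num)
  have bE0 : Bn L e r 0 1 S.E := Bn.ofe bE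
  obtain ⟨E2, hE2⟩ : ∃ E2 : ℝ → ℝ, ∀ θ, E2 θ = S.E (-θ - S.ω) := ⟨_, fun _ => rfl⟩
  have bE2 : Bn L e r 0 1 E2 := (bE0.refl1 S.ω).congr fun θ => (hE2 θ).symm
  -- derivative of the residual
  obtain ⟨E', hE'd, hE'b⟩ := Bd.deriv bE0 hr0'
  have hE' : ∀ θ, E' θ = -(S.w2 θ * S.u2 θ) + S.w1 θ * S.u1 θ + S.b θ * S.u θ := fun θ =>
    (hE'd θ).unique (V.derE θ)
  have bE' : Bn L e (r - δ) 1 1 E' := Bn.loss hL0 he0 hE'b hδ (by linarith) hδL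
  obtain ⟨E2', hE2'⟩ : ∃ E2' : ℝ → ℝ, ∀ θ, E2' θ = E' (-θ - S.ω) := ⟨_, fun _ => rfl⟩
  have bE2' : Bn L e (r - δ) 1 1 E2' := (bE'.refl1 S.ω).congr fun θ => (hE2' θ).symm
  -- first cohomological equations
  have arg2 : ∀ θ : ℝ, -(-θ - S.ω) - S.ω = θ := fun θ => by ring
  have bgE : Bn L e r 2 1 (S.u * S.E - S.u2 * E2) :=
    ((bu.mul hr0 bE0).sub hL he0 (bu2.mul hr0 bE2)).up hL he0 (by norm_num)
  obtain ⟨βE, hβE1, hβE2, hβE3⟩ := Bd.cohom_even hr0' hω bgE (fun θ => by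
    simp only [Pi.sub_apply, Pi.mul_apply, Sys.u2, hE2, arg2]; ring)
  have bβE : Bn L e (r - δ) 3 1 βE := Bn.loss hL0 he0 hβE3 hδ (by linarith) hδL
  have bgs : Bd r (K * K + K * K) (S.u * S.s - S.u2 * S.s2) :=
    (V.bu.mul hr0 V.bs).sub ((V.bu.refl1 S.ω).mul hr0 (V.bs.refl1 S.ω))
  obtain ⟨βs, hβs1, hβs2, hβs3⟩ := Bd.cohom_even hr0' hω bgs (fun θ => by
    simp only [Pi.sub_apply, Pi.mul_apply, Sys.u2, Sys.s2, arg2]; ring)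
  have bβs0 : Bd 0 (K ^ 3) βs := by
    refine (hβs3 r hr0' le_rfl).mono (by linarith) ?_
    rw [div_le_iff₀ hr0']
    have h1 : 0 ≤ K * K := mul_self_nonneg K
    have h2 : 2 ≤ K * r := by nlinarith
    nlinarith [mul_nonneg h1 (sub_nonneg.2 h2)]
  have bβs : Bn L e (r - δ) 4 0 βs := by
    refine (hβs3 δ hδ (by linarith)).mono le_rfl ?_
    have h1 : K * K + K * K ≤ 2 * (L * L) := by nlinarith
    have h2 : (K * K + K * K) / δ ≤ (2 * (L * L)) * L := by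
      rw [div_eq_mul_one_div]
      exact mul_le_mul h1 hδL (by positivity) (by positivity)
    have h3 : 0 ≤ L * L * L := by positivity
    rw [pow_zero, mul_one]
    nlinarith
  obtain ⟨BE, hBE⟩ : ∃ BE : ℝ → ℝ, ∀ θ, BE θ = 1 / 2 * (βE (θ + S.ω) + βE θ) := ⟨_, fun _ => rfl⟩
  obtain ⟨Bs, hBs⟩ : ∃ Bs : ℝ → ℝ, Bs = fun θ => 1 / 2 * (βs (θ + S.ω) + βs θ) := ⟨_, rfl⟩
  have bBE : Bn L e (r - δ) 4 1 BE :=
    ((((bβE.shift S.ω).add hL he0 bβE).half hL he0).up hL he0 (by norm_num)).congr fun θ => (hBE θ).symm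
  have bBs : Bn L e (r - δ) 5 0 Bs := by
    rw [hBs]
    exact (((bβs.shift S.ω).add hL he0 bβs).half hL he0).up hL he0 (by norm_num)
  have lowr : r - δ ≤ r := by linarith
  have baE : Bn L e (r - δ) 32 1 (S.af S.E E2 BE) := by
    have qa : Bn L e r 10 1 (S.E * S.Y2) := (bE0.mul hr0 bY2).up hL he0 (by norm_num)
    have qb : Bn L e r 10 1 (S.Y * E2) := bY.mul hr0 bE2
    have qc : Bn L e r 11 1 (S.E * S.Y2 + S.Y * E2) := qa.add hL he0 qb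
    have q1 : Bn L e r 17 1 ((S.E * S.Y2 + S.Y * E2) * S.w2i) := qc.mul hr0 bw2i
    have q2 : Bn L e (r - δ) 31 1 (S.T * BE) := (bT.low lowr).mul hr1 bBE
    exact ((q1.low lowr).neg.add hL he0 q2).up hL he0 (by norm_num)
  have bas : Bn L e (r - δ) 33 0 (S.af S.s S.s2 Bs) := by
    have q1 : Bn L e r 18 0 ((S.s * S.Y2 + S.Y * S.s2) * S.w2i) :=
      (((bs.mul hr0 bY2).add hL he0 (bY.mul hr0 bs2)).mul hr0 bw2i).up hL he0 (by norm_num)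
    have q2 : Bn L e (r - δ) 32 0 (S.T * Bs) := (bT.low lowr).mul hr1 bBs
    exact ((q1.low lowr).neg.add hL he0 q2).up hL he0 (by norm_num)
  -- the average determines the change of the parameter
  have havg : 1 / 2 ≤ |avg (S.af S.s S.s2 Bs)| := by
    rw [hBs]
    exact V.havg βs bβs0 (fun θ => by rw [hβs1]; rfl)
  have havg0 : avg (S.af S.s S.s2 Bs) ≠ 0 := fun h => by rw [h, abs_zero] at havg; linarith
  obtain ⟨l, hl⟩ : ∃ l : ℝ, l = avg (S.af S.E E2 BE) / avg (S.af S.s S.s2 Bs) := ⟨_, rfl⟩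
  have blE : |avg (S.af S.E E2 BE)| ≤ L ^ 32 * e ^ 1 := abs_avg_le fun θ => Bd.abs_le baE hr1 θ
  have bl : |l| ≤ L ^ 33 * e ^ 1 := by
    rw [hl, abs_div, div_le_iff₀ (by linarith)]
    have h0 : 0 ≤ L ^ 32 * e ^ 1 := by positivity
    calc |avg (S.af S.E E2 BE)| ≤ L ^ 32 * e ^ 1 := blE
      _ ≤ (L ^ 32 * e ^ 1) * (L * (1 / 2)) := le_mul_of_one_le_right h0 (by linarith)
      _ ≤ (L ^ 32 * e ^ 1) * (L * |avg (S.af S.s S.s2 Bs)|) :=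
          mul_le_mul_of_nonneg_left (mul_le_mul_of_nonneg_left havg hL0) h0
      _ = _ := by ring
  have bln : ∀ r' : ℝ, Bn L e r' 33 1 (fun _ => l) := fun r' => Bn.const bl
  -- second cohomological equation
  obtain ⟨a, ha⟩ : ∃ a : ℝ → ℝ, a = (fun _ => l) * S.af S.s S.s2 Bs - S.af S.E E2 BE := ⟨_, rfl⟩
  have ba : Bn L e (r - δ) 67 1 a := by
    rw [ha]
    have q1 : Bn L e (r - δ) 66 1 ((fun _ => l) * S.af S.s S.s2 Bs) := (bln _).mul hr1 bas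
    exact (q1.sub hL he0 baE).up hL he0 (by norm_num)
  have hBEr : ∀ θ, BE (-θ - S.ω) = BE θ := fun θ => by
    rw [hBE, hBE, sub_add_cancel, hβE2, show -θ - S.ω = -(θ + S.ω) by ring, hβE2]; ring
  have hBsr : ∀ θ, Bs (-θ - S.ω) = Bs θ := fun θ => by
    simp only [hBs]
    rw [sub_add_cancel, hβs2, show -θ - S.ω = -(θ + S.ω) by ring, hβs2]; ring
  have har : ∀ θ, a (-θ - S.ω) = a θ := fun θ => by
    simp only [ha, Pi.sub_apply, Pi.mul_apply]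
    rw [V.af_refl (ζ := S.s) (ζ2 := S.s2) (B := Bs) (fun θ => rfl)
      (fun θ => by simp only [Sys.s2, arg2]) hBsr,
      V.af_refl (ζ := S.E) (ζ2 := E2) (B := BE) (fun θ => (hE2 θ).symm)
      (fun θ => by rw [hE2, arg2]) hBEr]
  have ha0 : avg a = 0 := by
    have c1 : Continuous (S.af S.s S.s2 Bs) := Bd.cont bas hr1
    have c2 : Continuous (S.af S.E E2 BE) := Bd.cont baE hr1
    have c3 : Continuous ((fun _ => l) * S.af S.s S.s2 Bs) := continuous_const.mul c1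
    rw [ha, avg_sub c3 c2, show ((fun _ => l) * S.af S.s S.s2 Bs) = fun θ => l * S.af S.s S.s2 Bs θ from rfl,
      avg_smul, hl]
    field_simp
    ring
  obtain ⟨α, hα1, hα2, hα3⟩ := Bd.cohom_odd hr1' hω ba har ha0
  have bα : Bn L e (r - 2 * δ) 68 1 α := by
    have := Bn.loss hL0 he0 hα3 hδ (by linarith) hδL
    exact this.low (by linarith)
  obtain ⟨β, hβ⟩ : ∃ β : ℝ → ℝ, β = (fun _ => l) * βs - βE := ⟨_, rfl⟩
  have bβ : Bn L e (r - δ) 38 1 β := by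
    rw [hβ]
    have q1 : Bn L e (r - δ) 37 1 ((fun _ => l) * βs) := (bln _).mul hr1 bβs
    exact (q1.sub hL he0 bβE).up hL he0 (by norm_num)
  have hβ2 : ∀ θ, β (-θ) = β θ := fun θ => by
    simp only [hβ, Pi.sub_apply, Pi.mul_apply, hβs2, hβE2]
  have lowr2 : r - 2 * δ ≤ r := by linarith
  have lowr2' : r - 2 * δ ≤ r - δ := by linarith
  have lowr3 : r - 3 * δ ≤ r := by linarith
  have lowr3' : r - 3 * δ ≤ r - δ := by linarith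
  have lowr3'' : r - 3 * δ ≤ r - 2 * δ := by linarith
  -- the correction
  obtain ⟨h, hh⟩ : ∃ h : ℝ → ℝ, h = α * S.u + β * S.φ * S.s := ⟨_, rfl⟩
  have bh : Bn L e (r - 2 * δ) 70 1 h := by
    rw [hh]
    have q1 : Bn L e (r - 2 * δ) 69 1 (α * S.u) := bα.mul hr2 (bu.low lowr2)
    have q2 : Bn L e (r - 2 * δ) 40 1 (β * S.φ * S.s) :=
      ((bβ.low lowr2').mul hr2 (bφ.low lowr2)).mul hr2 (bs.low lowr2)
    exact (q1.add hL he0 q2).up hL he0 (by norm_num)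
  obtain ⟨h', hh'd, hh'b⟩ := Bd.deriv bh hr2'
  have bh' : Bn L e (r - 3 * δ) 71 1 h' := by
    have := Bn.loss hL0 he0 hh'b hδ (by linarith) hδL
    exact this.low (by linarith)
  have fin1 : ∀ n, n ≤ 240 → L ^ n * e ^ 1 ≤ L ^ 240 * e := fun n hn => by
    rw [pow_one]
    exact mul_le_mul_of_nonneg_right (pow_le_pow_right₀ (by linarith) hn) he0
  refine ⟨h, h', l, hh'd, bh.mono lowr3'' (fin1 _ (by norm_num)), bh'.mono le_rfl (fin1 _ (by norm_num)),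
    bl.trans (fin1 _ (by norm_num)), ?_⟩
  intro v1' v2' hv1' hv2' bv1'' bv2''
  have bv1' : Bn L e (r - 3 * δ) 1 0 v1' := Bn.of bv1''
  have bv2' : Bn L e (r - 3 * δ) 1 0 v2' := Bn.of bv2''
  obtain ⟨h1, hh1⟩ : ∃ h1 : ℝ → ℝ, ∀ θ, h1 θ = h (-θ) := ⟨_, fun _ => rfl⟩
  obtain ⟨h2, hh2⟩ : ∃ h2 : ℝ → ℝ, ∀ θ, h2 θ = h (-θ - S.ω) := ⟨_, fun _ => rfl⟩
  have bh3 : Bn L e (r - 3 * δ) 70 1 h := bh.low lowr3''
  have bh1 : Bn L e (r - 3 * δ) 70 1 h1 := bh3.refl.congr fun θ => (hh1 θ).symm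
  have bh2 : Bn L e (r - 3 * δ) 70 1 h2 := (bh3.refl1 S.ω).congr fun θ => (hh2 θ).symm
  -- the pieces of the new residual
  have bφsE : Bn L e (r - δ) 3 1 (S.φ * S.s * E') :=
    (((bφ.low lowr).mul hr1 (bs.low lowr)).mul hr1 bE').up hL he0 (by norm_num)
  have bφsE2 : Bn L e (r - δ) 3 1 (S.φp * S.s2 * E2') :=
    (((bφp.low lowr).mul hr1 (bs2.low lowr)).mul hr1 bE2').up hL he0 (by norm_num)
  obtain ⟨e0, he0'⟩ : ∃ e0 : ℝ → ℝ, e0 = fun θ => 1 / 2 * (S.φ * S.s * E' + S.φp * S.s2 * E2') θ := ⟨_, rfl⟩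
  have be0 : Bn L e (r - δ) 4 1 e0 := by
    rw [he0']
    exact ((bφsE.add hL he0 bφsE2).half hL he0).up hL he0 (by norm_num)
  obtain ⟨ze, hze⟩ : ∃ ze : ℝ → ℝ, ze = S.Z * e0 + S.Y * (S.φ * S.s * E' - S.φp * S.s2 * E2') := ⟨_, rfl⟩
  have bze : Bn L e (r - δ) 15 1 ze := by
    rw [hze]
    have q1 : Bn L e (r - δ) 14 1 (S.Z * e0) := (bZ.low lowr).mul hr1 be0
    have q0 : Bn L e (r - δ) 4 1 (S.φ * S.s * E' - S.φp * S.s2 * E2') := bφsE.sub hL he0 bφsE2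
    have q2 : Bn L e (r - δ) 14 1 (S.Y * (S.φ * S.s * E' - S.φp * S.s2 * E2')) := (bY.low lowr).mul hr1 q0
    exact q1.add hL he0 q2
  obtain ⟨B, hB⟩ : ∃ B : ℝ → ℝ, ∀ θ, B θ = 1 / 2 * (β (θ + S.ω) + β θ) := ⟨_, fun _ => rfl⟩
  have bB : Bn L e (r - δ) 39 1 B :=
    (((bβ.shift S.ω).add hL he0 bβ).half hL he0).congr fun θ => (hB θ).symm
  obtain ⟨R, hR⟩ : ∃ R : ℝ → ℝ, R = (fun _ => l) * S.s - S.E := ⟨_, rfl⟩
  have bR : Bn L e (r - δ) 35 1 R := by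
    rw [hR]
    have q1 : Bn L e (r - δ) 34 1 ((fun _ => l) * S.s) := (bln _).mul hr1 (bs.low lowr)
    exact (q1.sub hL he0 (bE0.low lowr)).up hL he0 (by norm_num)
  have rem_bd : ∀ (τ k m v : ℝ → ℝ), Bn L e (r - 3 * δ) 1 0 τ → Bn L e (r - 3 * δ) 70 1 k →
      Bn L e (r - 3 * δ) 3 0 m → Bn L e (r - 3 * δ) 1 0 v → ∀ w : ℝ → ℝ, Bn L e (r - 3 * δ) 2 0 w →
      Bn L e (r - 3 * δ) 218 2 ((fun _ => S.η) * (τ * m * h * k
        + (k - (fun _ => S.η) * (τ * τ) * h) * (S.s * k + h * τ + h * k)) * w * v) := by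
    intro τ k m v bτ bk bm bv w bw
    have bs3 := bs.low lowr3
    have bη3 := bη.low lowr3
    have q1 : Bn L e (r - 3 * δ) 144 2 (τ * m * h * k) := ((bτ.mul hr3 bm).mul hr3 bh3).mul hr3 bk
    have q2 : Bn L e (r - 3 * δ) 72 1 ((fun _ => S.η) * (τ * τ) * h) :=
      ((bη3.mul hr3 (bτ.mul hr3 bτ)).mul hr3 bh3).up hL he0 (by norm_num)
    have q3 : Bn L e (r - 3 * δ) 73 1 (k - (fun _ => S.η) * (τ * τ) * h) :=
      (bk.sub hL he0 q2).up hL he0 (by norm_num)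
    have q4 : Bn L e (r - 3 * δ) 71 1 (S.s * k) := (bs3.mul hr3 bk).up hL he0 (by norm_num)
    have q5 : Bn L e (r - 3 * δ) 71 1 (h * τ) := bh3.mul hr3 bτ
    have q6 : Bn L e (r - 3 * δ) 140 1 (h * k) := by
      have : Bn L e (r - 3 * δ) 140 2 (h * k) := bh3.mul hr3 bk
      exact this.dn hL he0 he1 (by norm_num)
    have q7 : Bn L e (r - 3 * δ) 141 1 (S.s * k + h * τ + h * k) :=
      ((q4.add hL he0 q5).add hL he0 q6).up hL he0 (by norm_num)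
    have q8 : Bn L e (r - 3 * δ) 214 2 ((k - (fun _ => S.η) * (τ * τ) * h) * (S.s * k + h * τ + h * k)) :=
      q3.mul hr3 q7
    have q9 : Bn L e (r - 3 * δ) 215 2 (τ * m * h * k
        + (k - (fun _ => S.η) * (τ * τ) * h) * (S.s * k + h * τ + h * k)) :=
      (q1.add hL he0 q8).up hL he0 (by norm_num)
    have q10 : Bn L e (r - 3 * δ) 215 2 ((fun _ => S.η) * (τ * m * h * k
        + (k - (fun _ => S.η) * (τ * τ) * h) * (S.s * k + h * τ + h * k))) :=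
      (bη3.mul hr3 q9).up hL he0 (by norm_num)
    exact (q10.mul hr3 bw).mul hr3 bv
  have rem2 := rem_bd S.s2 h2 S.m2 v2' (bs2.low lowr3) bh2 (bm2.low lowr3) bv2' S.w2 (bw2.low lowr3)
  have rem1 := rem_bd S.s1 h1 _ v1' (bs1.low lowr3) bh1 (bm1.low lowr3) bv1' S.w1 (bw1.low lowr3)
  have p1 : Bn L e (r - 3 * δ) 39 2 (R * e0) := (bR.mul hr1 be0).low lowr3'
  have p2 : Bn L e (r - 3 * δ) 54 2 (ze * B) := (bze.mul hr1 bB).low lowr3'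
  have p3 : Bn L e (r - 3 * δ) 69 2 (α * E') := (bα.low lowr3'').mul hr3 (bE'.low lowr3')
  have p4 : Bn L e (r - 3 * δ) 103 2 ((fun _ => l) * h) := (bln _).mul hr3 bh3
  have pF := (((((p2.sub hL he0 p1).add hL he0 p3).sub hL he0 p4).sub hL he0 rem2).add hL he0 rem1)
  have pF' : Bn L e (r - 3 * δ) 240 2 _ := pF.up hL he0 (by norm_num)
  refine pF'.congr fun θ => ?_
  have n1 : -θ - S.ω = -(θ + S.ω) := by ring
  have n2 : -(-θ - S.ω) = θ + S.ω := by ring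
  have n3 : -θ - S.ω + S.ω = -θ := by ring
  -- values at the reflected point
  have xw2 : S.w2 (-θ - S.ω) = S.w2 θ := by simp only [Sys.w2, Pi.mul_apply, V.v2_refl]
  have xu2 : S.u2 (-θ - S.ω) = S.u θ := by simp only [Sys.u2, arg2]
  have xs2 : S.s2 (-θ - S.ω) = S.s θ := by simp only [Sys.s2, arg2]
  have xu1 : S.u1 (-θ - S.ω) = S.u (θ + S.ω) := by simp only [Sys.u1, n2]
  have xs1 : S.s1 (-θ - S.ω) = S.s (θ + S.ω) := by simp only [Sys.s1, n2]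
  have xφ : S.φ (-θ - S.ω) = S.φp θ := by rw [n1, V.φ_refl]; rfl
  have xφp : S.φp (-θ - S.ω) = S.φ θ := by simp only [Sys.φp]; rw [n3, V.φ_refl]
  have xw1 : S.w1 (θ + S.ω) = S.w1 (-θ - S.ω) := by
    simp only [Sys.w1, Pi.mul_apply]; rw [n1, V.v1_refl]
  have yE2 : E2' θ = -(S.w2 θ * S.u θ) + S.w1 (-θ - S.ω) * S.u (θ + S.ω) + S.b (-θ - S.ω) * S.u2 θ := by
    rw [hE2', hE', xw2, xu2, xu1]; rfl
  have yc2 : S.c (-θ - S.ω) = (S.b (-θ - S.ω) * S.s2 θ - S.w1 (-θ - S.ω) * S.s (θ + S.ω)) * S.φp θ := by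
    have : S.c (-θ - S.ω) = (S.b (-θ - S.ω) * S.s (-θ - S.ω) - S.w1 (-θ - S.ω) * S.s1 (-θ - S.ω)) * S.φ (-θ - S.ω) := rfl
    rw [this, xs1, xφ]; rfl
  have yφp : S.φp θ * (S.w1 (-θ - S.ω) * (S.u (θ + S.ω) * S.s2 θ + S.u2 θ * S.s (θ + S.ω))) = 1 := by
    have := V.hφ (θ + S.ω)
    rw [xw1] at this
    simp only [Sys.s1, Sys.u1, ← n1] at this
    exact this
  have yφ : S.φ θ * (S.w1 θ * (S.u θ * S.s1 θ + S.u1 θ * S.s θ)) = 1 := V.hφ θ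
  have yw : S.w2 θ * S.w2i θ = 1 := by
    simp only [Sys.w2, Sys.w2i, Sys.m2, Pi.mul_apply, Pi.add_apply]
    have := V.hv2 θ
    calc S.v2 θ * S.v2 θ * ((1 + S.η * (S.s θ * S.s2 θ)) * (1 + S.η * (S.s θ * S.s2 θ)))
        = (S.v2 θ * (1 + S.η * (S.s θ * S.s2 θ))) * (S.v2 θ * (1 + S.η * (S.s θ * S.s2 θ))) := by ring
      _ = 1 := by rw [this]; ring
  have yE : E' θ = -(S.w2 θ * S.u2 θ) + S.w1 θ * S.u1 θ + S.b θ * S.u θ := hE' θ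
  have yc : S.c θ = (S.b θ * S.s θ - S.w1 θ * S.s1 θ) * S.φ θ := rfl
  have yY : S.Y θ = 1 / 2 * (S.w2 θ * S.s2 θ * S.φp θ - S.c θ) := rfl
  have yZ : S.Z θ = S.w2 θ * S.s2 θ * S.φp θ + S.c θ := rfl
  have yY2 : S.Y2 θ = 1 / 2 * (S.w2 θ * S.s θ * S.φ θ - S.c (-θ - S.ω)) := by
    have : S.Y2 θ = 1 / 2 * (S.w2 (-θ - S.ω) * S.s2 (-θ - S.ω) * S.φp (-θ - S.ω) - S.c (-θ - S.ω)) := rfl
    rw [this, xw2, xs2, xφp]
  have yZ2 : S.Z2 θ = S.w2 θ * S.s θ * S.φ θ + S.c (-θ - S.ω) := by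
    have : S.Z2 θ = S.w2 (-θ - S.ω) * S.s2 (-θ - S.ω) * S.φp (-θ - S.ω) + S.c (-θ - S.ω) := rfl
    rw [this, xw2, xs2, xφp]
  have yR : R θ = l * S.s θ - S.E θ := by rw [hR]; rfl
  have yR2 : R (-θ - S.ω) = l * S.s2 θ - E2 θ := by rw [hR, hE2]; rfl
  have yg : β (θ + S.ω) - β θ = S.u θ * R θ - S.u2 θ * R (-θ - S.ω) := by
    have e1 := hβE1 θ
    have e2 := hβs1 θ
    simp only [Pi.sub_apply, Pi.mul_apply] at e1 e2
    rw [yR, yR2]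
    simp only [hβ, Pi.sub_apply, Pi.mul_apply]
    linear_combination l * e2 - e1
  have yB : B θ = l * Bs θ - BE θ := by
    rw [hB, hBE]
    simp only [hβ, hBs, Pi.sub_apply, Pi.mul_apply]
    ring
  have ya : α (θ + S.ω) - α θ = -((R θ * S.Y2 θ + S.Y θ * R (-θ - S.ω)) * S.w2i θ)
      + (S.Z θ * S.Y2 θ + S.Y θ * S.Z2 θ) * S.w2i θ * B θ := by
    rw [hα1, yR, yR2, yB, ha]
    simp only [Sys.af, Sys.T, Pi.sub_apply, Pi.mul_apply, Pi.add_apply, Pi.neg_apply]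
    ring
  have ye0 : e0 θ = 1 / 2 * (S.φ θ * S.s θ * E' θ + S.φp θ * S.s2 θ * E2' θ) := by rw [he0']; rfl
  have yze : ze θ = S.Z θ * e0 θ + S.Y θ * (S.φ θ * S.s θ * E' θ - S.φp θ * S.s2 θ * E2' θ) := by
    rw [hze]; rfl
  have LI := lin_id yw yφ yφp yE yE2 yc yc2 yY yY2 yZ yZ2 (hB θ) yg ya ye0 yze
  have yh : h θ = α θ * S.u θ + β θ * S.φ θ * S.s θ := by rw [hh]; rfl
  have yh1 : h (-θ) = -(α θ * S.u1 θ) + β θ * S.φ θ * S.s1 θ := by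
    have : h (-θ) = α (-θ) * S.u (-θ) + β (-θ) * S.φ (-θ) * S.s (-θ) := by rw [hh]; rfl
    rw [this, hα2, hβ2, V.φ_refl]
    simp only [Sys.u1, Sys.s1]
    ring
  have yh2 : h (-θ - S.ω) = -(α (θ + S.ω) * S.u2 θ) + β (θ + S.ω) * S.φp θ * S.s2 θ := by
    have : h (-θ - S.ω) = α (-θ - S.ω) * S.u (-θ - S.ω) + β (-θ - S.ω) * S.φ (-θ - S.ω) * S.s (-θ - S.ω) := by
      rw [hh]; rfl
    rw [this, xφ, n1, hα2, hβ2, ← n1]
    simp only [Sys.u2, Sys.s2]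
    ring
  rw [← yh, ← yh1, ← yh2] at LI
  have T2 := taylor_id (V.hv2 θ) (hv2' θ)
  have T1 := taylor_id (V.hv1 θ) (hv1' θ)
  have yE0 : S.E θ = S.s2 θ * S.v2 θ - S.s1 θ * S.v1 θ - S.k * S.s θ := rfl
  have yb : S.b θ = -(S.η * (S.s2 θ * S.s2 θ) * S.w2 θ) + S.η * (S.s1 θ * S.s1 θ) * S.w1 θ - S.k := rfl
  have yw1 : S.w1 θ = S.v1 θ * S.v1 θ := rfl
  have yw2 : S.w2 θ = S.v2 θ * S.v2 θ := rfl
  have ym2 : S.m2 θ = 1 + S.η * (S.s θ * S.s2 θ) := rfl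
  simp only [Pi.sub_apply, Pi.mul_apply, Pi.add_apply, hh1, hh2, ym2]
  rw [yb, yR, yw1, yw2] at LI
  rw [yw1, yw2, yR]
  linear_combination yE0 - LI - T2 + T1

end Pool.Agent.Helper822.KAM
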