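import Pool.Agent.Helper822.KAM.Close2
import Pool.Agent.Helper822.KAM.Step
import Pool.Agent.Helper822.KAM.Div

namespace Pool.Agent.Helper822.KAM

open Filter Topology

theorem exists_seq {X : Type} (P : ℕ → X → Prop) (R : ℕ → X → X → Prop) (x0 : X) (h0 : P 0 x0)
    (hstep : ∀ n x, P n x → ∃ y, P (n + 1) y ∧ R n x y) :
    ∃ f : ℕ → X, f 0 = x0 ∧ ∀ n, P n (f n) ∧ R n (f n) (f (n + 1)) := by
  classical
  choose! g hg using hstep
  let F : ℕ → X := fun n => Nat.rec x0 (fun k x => g k x) n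
  have hF : ∀ n, P n (F n) := by
    intro n
    induction n with
    | zero => exact h0
    | succ n ih => exact (hg n (F n) ih).1
  exact ⟨F, rfl, fun n => ⟨hF n, (hg n (F n) (hF n)).2⟩⟩

/-- small divisor estimate for `om` -/
theorem small_div (k : ℤ) (hk : k ≠ 0) : 1 / |(k : ℝ)| ≤ ‖ex k om - 1‖ :=
  kam_small_div k hk

/-- the residual -/
noncomputable def res (η k : ℝ) (s : ℝ → ℝ) : ℝ → ℝ := fun θ =>
  s (-θ - om) * (1 / (1 + η * (s θ * s (-θ - om)))) - s (-θ) * (1 / (1 + η * (s θ * s (-θ)))) - k * s θ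

theorem mk_E (η k : ℝ) (s u : ℝ → ℝ) : (mk η k s u).E = res η k s := rfl

theorem Bd.zero (r : ℝ) : Bd r 0 (fun _ => (0:ℝ)) := by
  have := Bd.const r 0
  rwa [abs_zero] at this

/-- one step of the scheme, with numerical constants -/
theorem one_step : ∃ A t0 : ℝ, 1 ≤ A ∧ 0 < t0 ∧ t0 ≤ 1 ∧
    ∀ (n : ℕ) (η lam e T T' : ℝ) (s u : ℝ → ℝ), 0 ≤ η → η ≤ t0 → 0 ≤ e → e ≤ 1 →
      T ≤ t0 → T + A * 2 ^ (240 * n) * e ≤ T' → T' ≤ t0 →
      |lam| ≤ T → (∀ θ, HasDerivAt s (u θ) θ) →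
      Bd (1 / 2 + (1 / 2) ^ (n + 1)) T (s - s0) → Bd (1 / 2 + (1 / 2) ^ (n + 1)) T (u - u0) →
      Bd (1 / 2 + (1 / 2) ^ (n + 1)) e (res η (ka + lam) s) →
      ∃ (lam' : ℝ) (s' u' : ℝ → ℝ), (∀ θ, HasDerivAt s' (u' θ) θ) ∧
        |lam' - lam| ≤ A * 2 ^ (240 * n) * e ∧
        Bd (1 / 2 + (1 / 2) ^ (n + 1 + 1)) (A * 2 ^ (240 * n) * e) (s' - s) ∧
        Bd (1 / 2 + (1 / 2) ^ (n + 1 + 1)) (A * 2 ^ (240 * n) * e) (u' - u) ∧
        Bd (1 / 2 + (1 / 2) ^ (n + 1 + 1)) (A * 2 ^ (240 * n) * e ^ 2) (res η (ka + lam') s') := by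
  obtain ⟨K, t0, hK, ht0, ht1, hV⟩ := valid_of_close
  refine ⟨(12 * K) ^ 240, t0, one_le_pow₀ (by linarith), ht0, ht1, ?_⟩
  intro n η lam e T T' s u hη0 hη1 he0 he1 hT hTT' hT' hlam hsu hs hu hE
  have hn1 : (1 / 2 : ℝ) ^ (n + 1) ≤ 1 / 2 := by
    calc (1 / 2 : ℝ) ^ (n + 1) ≤ (1 / 2) ^ 1 := pow_le_pow_of_le_one (by norm_num) (by norm_num) (by omega)
      _ = 1 / 2 := pow_one _
  have hp : 0 < (1 / 2 : ℝ) ^ n := by positivity
  have e1 : (1 / 2 : ℝ) ^ (n + 1) = (1 / 2) ^ n / 2 := by rw [pow_succ]; ring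
  have e2 : (1 / 2 : ℝ) ^ (n + 1 + 1) = (1 / 2) ^ n / 4 := by rw [pow_succ, pow_succ]; ring
  obtain ⟨δ, hδ⟩ : ∃ δ : ℝ, δ = (1 / 2) ^ n / 12 := ⟨_, rfl⟩
  have hδ0 : 0 < δ := by rw [hδ]; positivity
  have hr3 : 1 / 2 + (1 / 2 : ℝ) ^ (n + 1) - 3 * δ = 1 / 2 + (1 / 2) ^ (n + 1 + 1) := by
    rw [e1, e2, hδ]; ring
  obtain ⟨V, hk⟩ := hV η lam _ s u hη0 hη1 (hlam.trans hT) (by positivity) (by linarith) hsu
    (hs.mono le_rfl hT) (hu.mono le_rfl hT)
  have h2n : (1 : ℝ) ≤ 2 ^ n := one_le_pow₀ (by norm_num)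
  obtain ⟨L, hL⟩ : ∃ L : ℝ, L = 12 * K * 2 ^ n := ⟨_, rfl⟩
  have hKL : K ≤ L := by
    rw [hL]
    have : K ≤ 12 * K * 1 := by linarith
    exact this.trans (mul_le_mul_of_nonneg_left h2n (by linarith))
  have hδL : 1 / δ ≤ L := by
    have : 1 / δ = 12 * 2 ^ n := by
      rw [hδ, one_div_pow]
      field_simp
    rw [this, hL]
    have h0 : (0:ℝ) ≤ 12 * 2 ^ n := by positivity
    nlinarith
  have hLp : L ^ 240 = (12 * K) ^ 240 * 2 ^ (240 * n) := by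
    rw [hL, mul_pow, mul_comm 240 n, pow_mul]
  obtain ⟨h, h', l, hd, bh, bh', bl, hfin⟩ := step (S := mk η (ka + lam) s u) hK hKL he0 he1 hδ0 hδL
    (by rw [hr3]; have : (0:ℝ) ≤ (1 / 2) ^ (n + 1 + 1) := by positivity
        linarith) hη0 (hη1.trans ht1) hk small_div V (by rw [mk_E]; exact hE)
  rw [hr3, hLp] at bh bh'
  rw [hLp] at bl
  have low : 1 / 2 + (1 / 2 : ℝ) ^ (n + 1 + 1) ≤ 1 / 2 + (1 / 2) ^ (n + 1) := by
    rw [e1, e2]; linarith
  have hs' : Bd (1 / 2 + (1 / 2) ^ (n + 1 + 1)) t0 ((s + h) - s0) :=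
    (((hs.mono low le_rfl).add bh).mono le_rfl (hTT'.trans hT')).congr fun θ => by
      simp only [Pi.add_apply, Pi.sub_apply]; ring
  have hu' : Bd (1 / 2 + (1 / 2) ^ (n + 1 + 1)) t0 ((u + h') - u0) :=
    (((hu.mono low le_rfl).add bh').mono le_rfl (hTT'.trans hT')).congr fun θ => by
      simp only [Pi.add_apply, Pi.sub_apply]; ring
  have hlam' : |lam + l| ≤ t0 := (abs_add_le _ _).trans ((add_le_add hlam bl).trans (hTT'.trans hT'))
  have hsu' : ∀ θ, HasDerivAt (s + h) ((u + h') θ) θ := fun θ => (hsu θ).add (hd θ)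
  have hr1' : 1 / 2 + (1 / 2 : ℝ) ^ (n + 1 + 1) ≤ 1 := by linarith
  obtain ⟨V', -⟩ := hV η (lam + l) _ (s + h) (u + h') hη0 hη1 hlam' (by positivity) hr1' hsu' hs' hu'
  refine ⟨lam + l, s + h, u + h', hsu', ?_, ?_, ?_, ?_⟩
  · rw [add_sub_cancel_left]; exact bl
  · exact bh.congr fun θ => by simp
  · exact bh'.congr fun θ => by simp
  · have h1 := hfin (mk η (ka + (lam + l)) (s + h) (u + h')).v1 (mk η (ka + (lam + l)) (s + h) (u + h')).v2
      V'.hv1 V'.hv2 (by rw [hr3]; exact V'.bv1.mono le_rfl hKL) (by rw [hr3]; exact V'.bv2.mono le_rfl hKL)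
    rw [hr3, hLp] at h1
    refine h1.congr fun θ => ?_
    have : ka + (lam + l) = ka + lam + l := by ring
    rw [this]
    rfl

/-- the iteration -/
theorem kam_main (τ : ℝ) (hτ : 0 < τ) : ∃ (η lam : ℝ) (s : ℝ → ℝ), 0 < η ∧ η ≤ τ ∧ |lam| ≤ τ ∧
    Bd (1 / 2) τ (s - s0) ∧ ∀ θ, res η (ka + lam) s θ = 0 := by
  obtain ⟨A, t0, hA, ht0, ht1, hstep⟩ := one_step
  obtain ⟨T, hT⟩ : ∃ T : ℝ, T = min t0 τ := ⟨_, rfl⟩
  have hT0 : 0 < T := by rw [hT]; exact lt_min ht0 hτ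
  have hTt : T ≤ t0 := by rw [hT]; exact min_le_left _ _
  have hTτ : T ≤ τ := by rw [hT]; exact min_le_right _ _
  obtain ⟨q, hq⟩ : ∃ q : ℝ, q = (1 / 2) ^ 241 := ⟨_, rfl⟩
  have hq0 : 0 < q := by rw [hq]; positivity
  have hq1 : q ≤ 1 := by rw [hq]; exact pow_le_one₀ (by norm_num) (by norm_num)
  obtain ⟨c, hc⟩ : ∃ c : ℝ, c = T * q / (2 * A) := ⟨_, rfl⟩
  have hA0 : 0 < A := by linarith
  have hc0 : 0 < c := by rw [hc]; positivity
  have hAc : A * c = T * q / 2 := by rw [hc]; field_simp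
  have hcT : c ≤ T / 2 := by
    have : c ≤ A * c := le_mul_of_one_le_left hc0.le hA
    rw [hAc] at this
    nlinarith
  have hc1 : c ≤ 1 := by linarith
  obtain ⟨η, hη⟩ : ∃ η : ℝ, η = c / 108 := ⟨_, rfl⟩
  have hη0 : 0 < η := by rw [hη]; positivity
  have hηt : η ≤ t0 := by linarith
  have hητ : η ≤ τ := by linarith
  have key : ∀ n : ℕ, A * 2 ^ (240 * n) * (c * q ^ n) = A * c * (1 / 2) ^ n := fun n => by
    have : (2:ℝ) ^ (240 * n) * q ^ n = (1 / 2) ^ n := by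
      rw [hq, pow_mul, ← mul_pow]
      congr 1
      norm_num
    calc A * 2 ^ (240 * n) * (c * q ^ n) = A * c * (2 ^ (240 * n) * q ^ n) := by ring
      _ = _ := by rw [this]
  have hhalf : ∀ n : ℕ, (1 / 2 : ℝ) ^ n ≤ 1 := fun n => pow_le_one₀ (by norm_num) (by norm_num)
  have hhalf0 : ∀ n : ℕ, (0 : ℝ) < (1 / 2) ^ n := fun n => by positivity
  have inc : ∀ n : ℕ, A * 2 ^ (240 * n) * (c * q ^ n) ≤ T * (1 / 2) ^ (n + 1) := fun n => by
    rw [key, hAc, pow_succ]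
    have := hhalf0 n
    have h1 : T * q / 2 ≤ T / 2 := by nlinarith
    calc T * q / 2 * (1 / 2) ^ n ≤ T / 2 * (1 / 2) ^ n := mul_le_mul_of_nonneg_right h1 this.le
      _ = _ := by ring
  have sq : ∀ n : ℕ, A * 2 ^ (240 * n) * (c * q ^ n) ^ 2 ≤ c * q ^ (n + 1) := fun n => by
    have h0 : 0 ≤ c * q ^ n := by positivity
    have h1 : A * c * (1 / 2) ^ n ≤ q := by
      rw [hAc]
      have h2 : T * q / 2 ≤ q := by nlinarith
      exact (mul_le_of_le_one_right (by positivity) (hhalf n)).trans h2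
    calc A * 2 ^ (240 * n) * (c * q ^ n) ^ 2 = (A * 2 ^ (240 * n) * (c * q ^ n)) * (c * q ^ n) := by ring
      _ = (A * c * (1 / 2) ^ n) * (c * q ^ n) := by rw [key]
      _ ≤ q * (c * q ^ n) := mul_le_mul_of_nonneg_right h1 h0
      _ = _ := by ring
  -- the sequence
  let P : ℕ → (ℝ × (ℝ → ℝ) × (ℝ → ℝ)) → Prop := fun n x =>
    |x.1| ≤ T * (1 - (1 / 2) ^ n) ∧ (∀ θ, HasDerivAt x.2.1 (x.2.2 θ) θ) ∧
      Bd (1 / 2 + (1 / 2) ^ (n + 1)) (T * (1 - (1 / 2) ^ n)) (x.2.1 - s0) ∧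
      Bd (1 / 2 + (1 / 2) ^ (n + 1)) (T * (1 - (1 / 2) ^ n)) (x.2.2 - u0) ∧
      Bd (1 / 2 + (1 / 2) ^ (n + 1)) (c * q ^ n) (res η (ka + x.1) x.2.1)
  let R : ℕ → (ℝ × (ℝ → ℝ) × (ℝ → ℝ)) → (ℝ × (ℝ → ℝ) × (ℝ → ℝ)) → Prop := fun n x y =>
    |y.1 - x.1| ≤ T * (1 / 2) ^ (n + 1) ∧ Bd (1 / 2) (T * (1 / 2) ^ (n + 1)) (y.2.1 - x.2.1)
  have hP0 : P 0 (0, s0, u0) := by
    refine ⟨by simp, fun θ => ?_, ?_, ?_, ?_⟩
    · have h1 : HasDerivAt (fun θ : ℝ => θ + al) 1 θ := (hasDerivAt_id θ).add_const al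
      have h2 := h1.cos
      refine h2.congr_deriv ?_
      simp [u0]
    · refine ((Bd.zero _).mono le_rfl (by simp)).congr fun θ => by simp
    · refine ((Bd.zero _).mono le_rfl (by simp)).congr fun θ => by simp
    · have hr1 : 1 / 2 + (1 / 2 : ℝ) ^ (0 + 1) ≤ 1 := by norm_num
      have hr0 : 0 ≤ 1 / 2 + (1 / 2 : ℝ) ^ (0 + 1) := by norm_num
      have b0 := Bd_s0 hr1
      have b1 := b0.refl
      have b2 := b0.refl1 om
      have x1 := (b0.mul hr0 b1).smul η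
      have x2 := (b0.mul hr0 b2).smul η
      rw [abs_of_pos hη0] at x1 x2
      have hx : η * (3 * 3) ≤ 1 / 2 := by rw [hη]; linarith
      have i1 := b1.mul hr0 (x1.inv hr0 hx)
      have i2 := b2.mul hr0 (x2.inv hr0 hx)
      refine ((i2.sub i1).mono le_rfl ?_).congr fun θ => ?_
      · rw [pow_zero, mul_one, hη]; linarith
      · simp only [res, Pi.sub_apply, Pi.mul_apply]
        linear_combination -(s0_rel θ)
  obtain ⟨f, hf0, hf⟩ := exists_seq P R (0, s0, u0) hP0 (fun n x hx => by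
    obtain ⟨h1, h2, h3, h4, h5⟩ := hx
    have hn : T * (1 - (1 / 2) ^ n) + A * 2 ^ (240 * n) * (c * q ^ n) ≤ T * (1 - (1 / 2) ^ (n + 1)) := by
      have := inc n
      rw [pow_succ] at this ⊢
      linarith
    have hle : T * (1 - (1 / 2) ^ n) ≤ t0 := by
      have := mul_pos hT0 (hhalf0 n)
      linarith
    have hle' : T * (1 - (1 / 2) ^ (n + 1)) ≤ t0 := by
      have := mul_pos hT0 (hhalf0 (n + 1))
      linarith
    have he1 : c * q ^ n ≤ 1 := by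
      have : q ^ n ≤ 1 := pow_le_one₀ hq0.le hq1
      exact (mul_le_of_le_one_right hc0.le this).trans hc1
    obtain ⟨lam', s', u', g1, g2, g3, g4, g5⟩ := hstep n η x.1 (c * q ^ n) _ _ x.2.1 x.2.2 hη0.le hηt
      (by positivity) he1 hle hn hle' h1 h2 h3 h4 h5
    have low : 1 / 2 + (1 / 2 : ℝ) ^ (n + 1 + 1) ≤ 1 / 2 + (1 / 2) ^ (n + 1) := by
      have := hhalf0 (n + 1)
      rw [pow_succ _ (n + 1)]; linarith
    refine ⟨(lam', s', u'), ⟨?_, g1, ?_, ?_, g5.mono le_rfl (sq n)⟩, g2.trans (inc n), ?_⟩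
    · have e : lam' = x.1 + (lam' - x.1) := by ring
      rw [show ((lam', s', u') : ℝ × (ℝ → ℝ) × (ℝ → ℝ)).1 = lam' from rfl, e]
      exact (abs_add_le _ _).trans ((add_le_add h1 g2).trans hn)
    · exact (((h3.mono low le_rfl).add g3).mono le_rfl hn).congr fun θ => by
        simp only [Pi.add_apply, Pi.sub_apply]; ring
    · exact (((h4.mono low le_rfl).add g4).mono le_rfl hn).congr fun θ => by
        simp only [Pi.add_apply, Pi.sub_apply]; ring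
    · exact g3.mono (by have := hhalf0 (n + 1 + 1); linarith) (inc n))
  -- the limit
  have hgeo : HasSum (fun n : ℕ => T * (1 / 2) ^ (n + 1)) T := by
    have := (hasSum_geometric_two' T)
    have e : (fun n : ℕ => T * (1 / 2 : ℝ) ^ (n + 1)) = fun n : ℕ => T / 2 / 2 ^ n := by
      funext n; rw [pow_succ, one_div_pow]; field_simp
    rw [e]; exact this
  obtain ⟨bD, hDs⟩ := Bd.tsum (by norm_num : (0:ℝ) ≤ 1 / 2) (fun n => (hf n).2.2) hgeo.summable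
  rw [hgeo.tsum_eq] at bD
  obtain ⟨D, hD⟩ : ∃ D : ℝ → ℝ, D = fun θ => ∑' n, ((f (n + 1)).2.1 - (f n).2.1) θ := ⟨_, rfl⟩
  rw [← hD] at bD
  have lim_s : ∀ θ, Tendsto (fun n => (f n).2.1 θ) atTop (𝓝 (s0 θ + D θ)) := fun θ => by
    have h1 := (hDs θ).hasSum.tendsto_sum_nat
    simp only [Pi.sub_apply] at h1
    have e : ∀ n, ∑ i ∈ Finset.range n, ((f (i + 1)).2.1 θ - (f i).2.1 θ) = (f n).2.1 θ - s0 θ := fun n => by
      rw [Finset.sum_range_sub (fun i => (f i).2.1 θ) n, hf0]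
    simp only [e] at h1
    have h2 := h1.const_add (s0 θ)
    simp only [add_sub_cancel] at h2
    have e3 : D θ = ∑' n, ((f (n + 1)).2.1 θ - (f n).2.1 θ) := by rw [hD]; rfl
    rw [e3]; exact h2
  have hls : Summable (fun n => (f (n + 1)).1 - (f n).1) :=
    Summable.of_norm_bounded hgeo.summable fun n => by
      rw [Real.norm_eq_abs]; exact (hf n).2.1
  obtain ⟨lam, hlam⟩ : ∃ lam : ℝ, lam = ∑' n, ((f (n + 1)).1 - (f n).1) := ⟨_, rfl⟩
  have lim_l : Tendsto (fun n => (f n).1) atTop (𝓝 lam) := by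
    have h1 := hls.hasSum.tendsto_sum_nat
    have e : ∀ n, ∑ i ∈ Finset.range n, ((f (i + 1)).1 - (f i).1) = (f n).1 := fun n => by
      rw [Finset.sum_range_sub (fun i => (f i).1) n, hf0, sub_zero]
    simp only [e] at h1
    rw [hlam]; exact h1
  have hlamT : |lam| ≤ T := by
    refine le_of_tendsto lim_l.abs (Eventually.of_forall fun n => ?_)
    have h1 := (hf n).1.1
    have := mul_pos hT0 (hhalf0 n)
    linarith
  refine ⟨η, lam, fun θ => s0 θ + D θ, hη0, hητ, hlamT.trans hTτ, ?_, fun θ => ?_⟩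
  · exact (bD.mono le_rfl hTτ).congr fun θ => by simp only [Pi.sub_apply]; ring
  · have hbd : ∀ θ, |s0 θ + D θ| ≤ 2 := fun θ => by
      have h1 := abs_add_le (s0 θ) (D θ)
      have h2 := bD.abs_le (by norm_num) θ
      have h3 : |s0 θ| ≤ 1 := Real.abs_cos_le_one _
      linarith
    have hne : ∀ x y : ℝ, |x| ≤ 2 → |y| ≤ 2 → 1 + η * (x * y) ≠ 0 := fun x y hx hy h0 => by
      have h1 : |x * y| ≤ 4 := by
        rw [abs_mul]
        calc |x| * |y| ≤ 2 * 2 := mul_le_mul hx hy (abs_nonneg _) (by norm_num)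
          _ = 4 := by norm_num
      have h2 := (abs_le.1 h1).1
      have h3 : η * (x * y) ≥ η * (-4) := mul_le_mul_of_nonneg_left h2 hη0.le
      have h4 : η ≤ 1 / 108 := by rw [hη]; linarith
      linarith
    have L0 := lim_s θ
    have L1 := lim_s (-θ)
    have L2 := lim_s (-θ - om)
    have M1 : Tendsto (fun n => 1 / (1 + η * ((f n).2.1 θ * (f n).2.1 (-θ)))) atTop
        (𝓝 (1 / (1 + η * ((s0 θ + D θ) * (s0 (-θ) + D (-θ)))))) :=
      tendsto_const_nhds.div (((L0.mul L1).const_mul η).const_add 1) (hne _ _ (hbd _) (hbd _))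
    have M2 : Tendsto (fun n => 1 / (1 + η * ((f n).2.1 θ * (f n).2.1 (-θ - om)))) atTop
        (𝓝 (1 / (1 + η * ((s0 θ + D θ) * (s0 (-θ - om) + D (-θ - om)))))) :=
      tendsto_const_nhds.div (((L0.mul L2).const_mul η).const_add 1) (hne _ _ (hbd _) (hbd _))
    have L := ((L2.mul M2).sub (L1.mul M1)).sub ((lim_l.const_add ka).mul L0)
    have Z : Tendsto (fun n => (f n).2.1 (-θ - om) * (1 / (1 + η * ((f n).2.1 θ * (f n).2.1 (-θ - om))))
        - (f n).2.1 (-θ) * (1 / (1 + η * ((f n).2.1 θ * (f n).2.1 (-θ)))) - (ka + (f n).1) * (f n).2.1 θ)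
        atTop (𝓝 0) := by
      refine squeeze_zero_norm (a := fun n => c * q ^ n) (fun n => ?_) ?_
      · have := (hf n).1.2.2.2.2.abs_le (by positivity) θ
        rw [Real.norm_eq_abs]
        exact this
      · have hq2 : q < 1 := by rw [hq]; norm_num
        have := (tendsto_pow_atTop_nhds_zero_of_lt_one hq0.le hq2).const_mul c
        simpa using this
    exact tendsto_nhds_unique L Z

end Pool.Agent.Helper822.KAM
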