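import Pool.Agent.Helper822.KAM.Basic

namespace Pool.Agent.Helper822.KAM

/-- infinite sums -/
theorem Rep.tsum {r : ℝ} (hr : 0 ≤ r) {M : ℕ → ℝ} {c : ℕ → ℤ → ℂ} {f : ℕ → ℝ → ℂ}
    (h : ∀ n, Rep r (M n) (c n) (f n)) (hM : Summable M) :
    Rep r (∑' n, M n) (fun k => ∑' n, c n k) (fun θ => ∑' n, f n θ) := by
  have hM0 : ∀ n, 0 ≤ M n := fun n => (h n).nonneg
  have h0 : ∀ p : ℕ × ℤ, 0 ≤ ‖c p.1 p.2‖ * wt r p.2 := fun p =>
    mul_nonneg (norm_nonneg _) (wt_pos r _).le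
  have hS : Summable (fun p : ℕ × ℤ => ‖c p.1 p.2‖ * wt r p.2) := by
    rw [summable_prod_of_nonneg h0]
    refine ⟨fun n => (h n).1, ?_⟩
    exact Summable.of_nonneg_of_le (fun n => tsum_nonneg fun k => h0 (n, k)) (fun n => (h n).2.1) hM
  have hsw : Summable (fun p : ℤ × ℕ => ‖c p.2 p.1‖ * wt r p.1) :=
    (Equiv.prodComm ℤ ℕ).summable_iff.2 hS
  have hkn : ∀ k : ℤ, Summable (fun n : ℕ => ‖c n k‖ * wt r k) := fun k =>
    hsw.comp_injective (i := fun n : ℕ => (k, n)) (fun a b hab => (Prod.mk.inj hab).2)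
  have hk : ∀ k : ℤ, Summable (fun n : ℕ => ‖c n k‖) := fun k => by
    have := (hkn k).mul_right ((wt r k)⁻¹)
    refine this.congr fun j => ?_
    rw [mul_assoc, mul_inv_cancel₀ (wt_pos r k).ne', mul_one]
  have hfib : Summable (fun k : ℤ => ∑' n, ‖c n k‖ * wt r k) := hsw.prod
  have hle : ∀ k : ℤ, ‖∑' n, c n k‖ * wt r k ≤ ∑' n, ‖c n k‖ * wt r k := fun k => by
    rw [tsum_mul_right]
    exact mul_le_mul_of_nonneg_right (norm_tsum_le_tsum_norm (hk k)) (wt_pos r k).le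
  have hs : Summable (fun k : ℤ => ‖∑' n, c n k‖ * wt r k) :=
    Summable.of_nonneg_of_le (fun n => mul_nonneg (norm_nonneg _) (wt_pos r n).le) hle hfib
  refine ⟨hs, ?_, fun θ => ?_⟩
  · refine (hs.tsum_le_tsum hle hfib).trans ?_
    have e1 : ∑' k : ℤ, ∑' n, ‖c n k‖ * wt r k = ∑' p : ℤ × ℕ, ‖c p.2 p.1‖ * wt r p.1 :=
      (hsw.tsum_prod).symm
    have e2 : ∑' p : ℤ × ℕ, ‖c p.2 p.1‖ * wt r p.1 = ∑' p : ℕ × ℤ, ‖c p.1 p.2‖ * wt r p.2 :=
      (Equiv.prodComm ℤ ℕ).tsum_eq (fun p : ℕ × ℤ => ‖c p.1 p.2‖ * wt r p.2)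
    rw [e1, e2, hS.tsum_prod]
    have hS2 : Summable (fun n => ∑' k, ‖c n k‖ * wt r k) := hS.prod
    exact hS2.tsum_le_tsum (fun n => (h n).2.1) hM
  · have hp : Summable (fun p : ℕ × ℤ => c p.1 p.2 * ex p.2 θ) := by
      refine Summable.of_norm_bounded hS fun p => ?_
      rw [norm_mul, norm_ex]
      exact mul_le_mul_of_nonneg_left (one_le_wt hr _) (norm_nonneg _)
    have hp1 : HasSum (fun p : ℕ × ℤ => c p.1 p.2 * ex p.2 θ) (∑' n, f n θ) := by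
      have e : ∑' p : ℕ × ℤ, c p.1 p.2 * ex p.2 θ = ∑' n, f n θ := by
        rw [hp.tsum_prod]
        exact tsum_congr fun n => ((h n).2.2 θ).tsum_eq
      rw [← e]; exact hp.hasSum
    have hp2 : HasSum (fun p : ℤ × ℕ => c p.2 p.1 * ex p.1 θ) (∑' n, f n θ) :=
      (Equiv.prodComm ℤ ℕ).hasSum_iff.2 hp1
    refine hp2.prod_fiberwise fun k => ?_
    exact (hk k).of_norm.hasSum.mul_right (ex k θ)

theorem Rep.summable_pt {r : ℝ} (hr : 0 ≤ r) {M : ℕ → ℝ} {c : ℕ → ℤ → ℂ} {f : ℕ → ℝ → ℂ}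
    (h : ∀ n, Rep r (M n) (c n) (f n)) (hM : Summable M) (θ : ℝ) : Summable (fun n => f n θ) :=
  Summable.of_norm_bounded hM fun n => (h n).norm_le hr θ

/-- the derivative -/
theorem Rep.deriv {r M δ : ℝ} (hδ : 0 < δ) (hδr : δ ≤ r) {c : ℤ → ℂ} {f : ℝ → ℂ}
    (h : Rep r M c f) :
    ∃ f' : ℝ → ℂ, (∀ θ, HasDerivAt f (f' θ) θ) ∧
      ∀ δ, 0 < δ → δ ≤ r → Rep (r - δ) (M / δ) (fun k : ℤ => ((k : ℂ) * Complex.I) * c k) f' := by
  obtain ⟨h1, h2, h3⟩ := h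
  have key : ∀ δ, 0 < δ → ∀ k : ℤ, ‖((k : ℂ) * Complex.I) * c k‖ * wt (r - δ) k ≤ (‖c k‖ * wt r k) / δ := by
    intro δ hδ k
    rw [le_div_iff₀ hδ, norm_mul, norm_mul, Complex.norm_I, mul_one]
    have hk : ‖(k : ℂ)‖ = |(k : ℝ)| := by
      rw [← Complex.ofReal_intCast, Complex.norm_real, Real.norm_eq_abs]
    rw [hk]
    have hw : wt r k = wt (r - δ) k * Real.exp (δ * |(k : ℝ)|) := by
      rw [wt, wt, ← Real.exp_add]; congr 1; ring
    have hx : δ * |(k : ℝ)| ≤ Real.exp (δ * |(k : ℝ)|) := by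
      have := Real.add_one_le_exp (δ * |(k : ℝ)|); linarith
    rw [hw]
    calc |(k : ℝ)| * ‖c k‖ * wt (r - δ) k * δ = ‖c k‖ * (wt (r - δ) k * (δ * |(k : ℝ)|)) := by ring
      _ ≤ ‖c k‖ * (wt (r - δ) k * Real.exp (δ * |(k : ℝ)|)) :=
          mul_le_mul_of_nonneg_left (mul_le_mul_of_nonneg_left hx (wt_pos _ _).le) (norm_nonneg _)
  have hr' : 0 ≤ r - δ := by linarith
  have hsum : ∀ δ, 0 < δ → Summable (fun k : ℤ => ‖((k : ℂ) * Complex.I) * c k‖ * wt (r - δ) k) := fun δ hδ =>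
    Summable.of_nonneg_of_le (fun k => mul_nonneg (norm_nonneg _) (wt_pos _ k).le) (key δ hδ) (h1.div_const δ)
  have hr : 0 ≤ r := by linarith
  refine ⟨fun θ => ∑' k : ℤ, (((k : ℂ) * Complex.I) * c k) * ex k θ, fun θ => ?_, fun δ' hδ' hδr' => ⟨hsum δ' hδ', ?_, fun θ => ?_⟩⟩
  · have hd : HasDerivAt (fun θ => ∑' k, c k * ex k θ) (∑' k : ℤ, c k * (((k : ℂ) * Complex.I) * ex k θ)) θ := by
      refine hasDerivAt_tsum (u := fun k : ℤ => ‖((k : ℂ) * Complex.I) * c k‖ * wt (r - δ) k) (hsum δ hδ)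
        (fun k y => (ex_hasDerivAt k y).const_mul (c k)) (fun k y => ?_) (y₀ := 0) ?_ θ
      · have : ‖c k * (((k : ℂ) * Complex.I) * ex k y)‖ = ‖((k : ℂ) * Complex.I) * c k‖ := by
          simp only [norm_mul, norm_ex]; ring
        rw [this]
        exact le_mul_of_one_le_right (norm_nonneg _) (one_le_wt hr' k)
      · exact (h3 0).summable
    have e1 : (fun θ => ∑' k, c k * ex k θ) = f := by
      funext t; exact (h3 t).tsum_eq
    have e2 : ∑' k : ℤ, c k * (((k : ℂ) * Complex.I) * ex k θ) = ∑' k : ℤ, (((k : ℂ) * Complex.I) * c k) * ex k θ :=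
      tsum_congr fun k => by ring
    rw [e1, e2] at hd
    exact hd
  · refine ((hsum δ' hδ').tsum_le_tsum (key δ' hδ') (h1.div_const δ')).trans ?_
    rw [tsum_div_const]
    exact div_le_div_of_nonneg_right h2 hδ'.le
  · refine Summable.hasSum ?_
    refine Summable.of_norm_bounded (hsum δ hδ) fun k => ?_
    rw [norm_mul, norm_ex, mul_one]
    exact le_mul_of_one_le_right (norm_nonneg _) (one_le_wt hr' k)

/-- solution of the cohomological equation `β(θ+ω) - β(θ) = g(θ)` -/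
theorem Rep.cohom {r M ω : ℝ} (hr : 0 < r) (hω : ∀ k : ℤ, k ≠ 0 → 1 / |(k : ℝ)| ≤ ‖ex k ω - 1‖)
    {c : ℤ → ℂ} {g : ℝ → ℂ} (h : Rep r M c g) (h0 : c 0 = 0) :
    ∃ (β : ℝ → ℂ) (b : ℤ → ℂ), (∀ θ, β (θ + ω) - β θ = g θ) ∧
      ∀ δ, 0 < δ → δ ≤ r → Rep (r - δ) (M / δ) b β := by
  obtain ⟨h1, h2, h3⟩ := h
  let b : ℤ → ℂ := fun k => if k = 0 then 0 else c k / (ex k ω - 1)
  have hne : ∀ k : ℤ, k ≠ 0 → ex k ω - 1 ≠ 0 := fun k hk he => by
    have := hω k hk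
    rw [he, norm_zero] at this
    have hk' : 0 < |(k : ℝ)| := abs_pos.2 (by exact_mod_cast hk)
    have : 0 < 1 / |(k : ℝ)| := by positivity
    linarith
  have hb : ∀ k, ‖b k‖ ≤ |(k : ℝ)| * ‖c k‖ := fun k => by
    by_cases hk : k = 0
    · simp [b, hk]
    · have hk' : 0 < |(k : ℝ)| := abs_pos.2 (by exact_mod_cast hk)
      have hpos : 0 < ‖ex k ω - 1‖ := norm_pos_iff.2 (hne k hk)
      simp only [b, hk, if_false, norm_div]
      rw [div_le_iff₀ hpos]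
      have h5 := hω k hk
      rw [div_le_iff₀ hk'] at h5
      calc ‖c k‖ = ‖c k‖ * 1 := (mul_one _).symm
        _ ≤ ‖c k‖ * (‖ex k ω - 1‖ * |(k : ℝ)|) := mul_le_mul_of_nonneg_left h5 (norm_nonneg _)
        _ = _ := by ring
  have key : ∀ δ, 0 < δ → ∀ k : ℤ, ‖b k‖ * wt (r - δ) k ≤ (‖c k‖ * wt r k) / δ := by
    intro δ hδ k
    rw [le_div_iff₀ hδ]
    have hw : wt r k = wt (r - δ) k * Real.exp (δ * |(k : ℝ)|) := by
      rw [wt, wt, ← Real.exp_add]; congr 1; ring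
    have hx : δ * |(k : ℝ)| ≤ Real.exp (δ * |(k : ℝ)|) := by
      have := Real.add_one_le_exp (δ * |(k : ℝ)|); linarith
    rw [hw]
    calc ‖b k‖ * wt (r - δ) k * δ ≤ (|(k : ℝ)| * ‖c k‖) * wt (r - δ) k * δ := by
          gcongr
          · exact (wt_pos _ _).le
          · exact hb k
      _ = ‖c k‖ * (wt (r - δ) k * (δ * |(k : ℝ)|)) := by ring
      _ ≤ ‖c k‖ * (wt (r - δ) k * Real.exp (δ * |(k : ℝ)|)) :=
          mul_le_mul_of_nonneg_left (mul_le_mul_of_nonneg_left hx (wt_pos _ _).le) (norm_nonneg _)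
  have hsum : ∀ δ, 0 < δ → Summable (fun k => ‖b k‖ * wt (r - δ) k) := fun δ hδ =>
    Summable.of_nonneg_of_le (fun k => mul_nonneg (norm_nonneg _) (wt_pos _ k).le) (key δ hδ) (h1.div_const δ)
  have hbs : ∀ θ, Summable (fun k => b k * ex k θ) := fun θ => by
    refine Summable.of_norm_bounded (hsum r hr) fun k => ?_
    rw [norm_mul, norm_ex, mul_one]
    exact le_mul_of_one_le_right (norm_nonneg _) (one_le_wt (by linarith) k)
  refine ⟨fun θ => ∑' k, b k * ex k θ, b, fun θ => ?_, fun δ hδ hδr => ⟨hsum δ hδ, ?_, fun θ => (hbs θ).hasSum⟩⟩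
  · have hh := ((hbs (θ + ω)).hasSum.sub (hbs θ).hasSum)
    have he : (fun k => b k * ex k (θ + ω) - b k * ex k θ) = fun k => c k * ex k θ := by
      funext k
      by_cases hk : k = 0
      · simp [b, hk, h0]
      · simp only [b, hk, if_false]
        rw [ex_shift]
        field_simp [hne k hk]
    rw [he] at hh
    exact hh.unique (h3 θ)
  · refine ((hsum δ hδ).tsum_le_tsum (key δ hδ) (h1.div_const δ)).trans ?_
    rw [tsum_div_const]
    exact div_le_div_of_nonneg_right h2 hδ.le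

end Pool.Agent.Helper822.KAM
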