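import Pool.Agent.Helper822.KAM.Mul
import Pool.Agent.Helper822.KAM.Sum

namespace Pool.Agent.Helper822.KAM

open MeasureTheory

variable {r r' M M' N : ℝ} {f g : ℝ → ℝ}

theorem Rep.toBd {c : ℤ → ℂ} {F : ℝ → ℂ} (h : Rep r M c F) (e : ∀ θ, F θ = (f θ : ℂ)) : Bd r M f := by
  have : F = fun θ => (f θ : ℂ) := funext e
  rw [this] at h
  exact ⟨c, h⟩

theorem Bd.congr (h : Bd r M f) (e : ∀ θ, f θ = g θ) : Bd r M g := by
  have : f = g := funext e
  rwa [this] at h

theorem Bd.nonneg (h : Bd r M f) : 0 ≤ M := h.choose_spec.nonneg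

theorem Bd.mono (h : Bd r M f) (hr : r' ≤ r) (hM : M ≤ M') : Bd r' M' f :=
  ⟨_, h.choose_spec.mono hr hM⟩

theorem Bd.add (h : Bd r M f) (h' : Bd r N g) : Bd r (M + N) (f + g) := by
  obtain ⟨c, hc⟩ := h
  obtain ⟨d, hd⟩ := h'
  exact (hc.add hd).toBd fun θ => by rw [Pi.add_apply, Complex.ofReal_add]

theorem Bd.smul (h : Bd r M f) (a : ℝ) : Bd r (|a| * M) (fun θ => a * f θ) := by
  obtain ⟨c, hc⟩ := h
  have := hc.smul (a : ℂ)
  rw [Complex.norm_real, Real.norm_eq_abs] at this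
  exact this.toBd fun θ => by rw [Complex.ofReal_mul]

theorem Bd.neg (h : Bd r M f) : Bd r M (-f) := by
  have := h.smul (-1)
  rw [abs_neg, abs_one, one_mul] at this
  exact this.congr fun θ => by simp

theorem Bd.sub (h : Bd r M f) (h' : Bd r N g) : Bd r (M + N) (f - g) := by
  rw [sub_eq_add_neg]
  exact h.add h'.neg

theorem Bd.mul (hr : 0 ≤ r) (h : Bd r M f) (h' : Bd r N g) : Bd r (M * N) (f * g) := by
  obtain ⟨c, hc⟩ := h
  obtain ⟨d, hd⟩ := h'
  exact (hc.mul hr hd).toBd fun θ => by rw [Pi.mul_apply, Complex.ofReal_mul]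

theorem Bd.const (r a : ℝ) : Bd r |a| (fun _ => a) := by
  have := Rep.const r (a : ℂ)
  rw [Complex.norm_real, Real.norm_eq_abs] at this
  exact this.toBd fun θ => rfl

theorem Bd.shift (h : Bd r M f) (ω : ℝ) : Bd r M (fun θ => f (θ + ω)) :=
  ⟨_, h.choose_spec.shift ω⟩

theorem Bd.refl (h : Bd r M f) : Bd r M (fun θ => f (-θ)) :=
  ⟨_, h.choose_spec.refl⟩

theorem Bd.refl1 (h : Bd r M f) (ω : ℝ) : Bd r M (fun θ => f (-θ - ω)) :=
  ((h.refl).shift ω).congr fun θ => by congr 1; ring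

theorem Bd.abs_le (h : Bd r M f) (hr : 0 ≤ r) (θ : ℝ) : |f θ| ≤ M := by
  have := h.choose_spec.norm_le hr θ
  rwa [Complex.norm_real, Real.norm_eq_abs] at this

theorem ex_periodic (k : ℤ) (θ : ℝ) : ex k (θ + 2 * Real.pi) = ex k θ := by
  have h : ex k (2 * Real.pi) = 1 := by
    rw [ex, Complex.exp_eq_one_iff]
    exact ⟨k, by push_cast; ring⟩
  rw [ex_shift, h, one_mul]

theorem Bd.periodic (h : Bd r M f) (θ : ℝ) : f (θ + 2 * Real.pi) = f θ := by
  obtain ⟨c, hc⟩ := h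
  have h1 := hc.2.2 (θ + 2 * Real.pi)
  simp only [ex_periodic] at h1
  have h2 := h1.unique (hc.2.2 θ)
  exact Complex.ofReal_injective h2

theorem BC.re {F : ℝ → ℂ} (h : BC r M F) : Bd r M (fun θ => (F θ).re) := by
  obtain ⟨c, hc⟩ := h
  have h1 := (hc.add hc.conj).smul (1 / 2 : ℂ)
  have h2 : Rep r M _ _ := h1.mono le_rfl (by
    rw [norm_div, norm_one, Complex.norm_ofNat]
    linarith)
  refine h2.toBd fun θ => ?_
  rw [Complex.add_conj]
  push_cast
  ring

theorem Bd.deriv (h : Bd r M f) (hr : 0 < r) :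
    ∃ f' : ℝ → ℝ, (∀ θ, HasDerivAt f (f' θ) θ) ∧
      ∀ δ, 0 < δ → δ ≤ r → Bd (r - δ) (M / δ) f' := by
  obtain ⟨c, hc⟩ := h
  obtain ⟨F', hF, hF2⟩ := hc.deriv hr le_rfl
  refine ⟨fun θ => (F' θ).re, fun θ => ?_, fun δ hδ hδr => BC.re ⟨_, hF2 δ hδ hδr⟩⟩
  exact Complex.reCLM.hasFDerivAt.comp_hasDerivAt θ (hF θ)

theorem Bd.tsum (hr : 0 ≤ r) {Mn : ℕ → ℝ} {fn : ℕ → ℝ → ℝ} (h : ∀ n, Bd r (Mn n) (fn n))
    (hM : Summable Mn) :
    Bd r (∑' n, Mn n) (fun θ => ∑' n, fn n θ) ∧ ∀ θ, Summable (fun n => fn n θ) := by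
  choose c hc using h
  constructor
  · exact (Rep.tsum hr hc hM).toBd fun θ => by rw [Complex.ofReal_tsum]
  · intro θ
    have := Rep.summable_pt hr hc hM θ
    exact_mod_cast this

theorem Bd.pow (hr : 0 ≤ r) (h : Bd r M f) (n : ℕ) : Bd r (M ^ (n + 1)) (fun θ => f θ ^ (n + 1)) := by
  induction n with
  | zero => simpa using h
  | succ n ih =>
    have := ih.mul hr h
    exact this

theorem Bd.inv (hr : 0 ≤ r) (h : Bd r M f) (hM : M ≤ 1 / 2) :
    Bd r (2 * M) (fun θ => 1 / (1 + f θ) - 1) := by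
  have hM0 := h.nonneg
  have hg : HasSum (fun n : ℕ => M ^ (n + 1)) (M * (1 - M)⁻¹) := by
    have := (hasSum_geometric_of_lt_one hM0 (by linarith : M < 1)).mul_left M
    simpa only [pow_succ'] using this
  obtain ⟨h1, -⟩ := Bd.tsum hr (fun n => h.neg.pow hr n) hg.summable
  have h2 : Bd r (2 * M) (fun θ => ∑' n : ℕ, (-f) θ ^ (n + 1)) := by
    refine h1.mono le_rfl ?_
    rw [hg.tsum_eq]
    have : (1 - M)⁻¹ ≤ 2 := by
      rw [inv_le_comm₀ (by linarith) (by norm_num)]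
      linarith
    nlinarith
  refine h2.congr fun θ => ?_
  have ha : |f θ| ≤ 1 / 2 := (h.abs_le hr θ).trans hM
  have hx : |-f θ| < 1 := by rw [abs_neg]; linarith
  have h3 := (hasSum_geometric_of_abs_lt_one hx).mul_left (-f θ)
  have h4 : HasSum (fun n : ℕ => (-f) θ ^ (n + 1)) (-f θ * (1 - -f θ)⁻¹) := by
    simpa only [pow_succ', Pi.neg_apply] using h3
  rw [h4.tsum_eq]
  have hne : 1 + f θ ≠ 0 := by
    have := (_root_.abs_le.1 ha).1
    linarith
  rw [sub_neg_eq_add]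
  field_simp
  ring

/-- the mean value -/
noncomputable def avg (f : ℝ → ℝ) : ℝ := (2 * Real.pi)⁻¹ * ∫ θ in (0:ℝ)..(2 * Real.pi), f θ

theorem integral_ex (k : ℤ) (hk : k ≠ 0) : ∫ θ in (0:ℝ)..(2 * Real.pi), ex k θ = 0 := by
  have hk' : (k : ℂ) * Complex.I ≠ 0 := mul_ne_zero (by exact_mod_cast hk) Complex.I_ne_zero
  have h : ∀ θ ∈ Set.uIcc (0:ℝ) (2 * Real.pi), HasDerivAt (fun θ => ex k θ / ((k : ℂ) * Complex.I)) (ex k θ) θ := by
    intro θ _
    have := (ex_hasDerivAt k θ).div_const ((k : ℂ) * Complex.I)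
    rwa [mul_div_cancel_left₀ _ hk'] at this
  rw [intervalIntegral.integral_eq_sub_of_hasDerivAt h ((continuous_ex k).intervalIntegrable _ _)]
  have := ex_periodic k 0
  rw [zero_add] at this
  rw [this, sub_self]

theorem Rep.zero_eq (hr : 0 ≤ r) {c : ℤ → ℂ} (h : Rep r M c (fun θ => (f θ : ℂ))) : c 0 = (avg f : ℂ) := by
  obtain ⟨h1, h2, h3⟩ := h
  have hpi := Real.pi_pos
  have key : HasSum (fun k : ℤ => ∫ θ in (0:ℝ)..(2 * Real.pi), c k * ex k θ)
      (∫ θ in (0:ℝ)..(2 * Real.pi), (f θ : ℂ)) := by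
    refine intervalIntegral.hasSum_integral_of_dominated_convergence (fun k _ => ‖c k‖ * wt r k)
      (fun k => ((continuous_ex k).const_mul (c k)).aestronglyMeasurable) (fun k => ?_) ?_ ?_ ?_
    · refine Filter.Eventually.of_forall fun θ _ => ?_
      rw [norm_mul, norm_ex]
      exact mul_le_mul_of_nonneg_left (one_le_wt hr k) (norm_nonneg _)
    · exact Filter.Eventually.of_forall fun θ _ => h1
    · exact intervalIntegrable_const
    · exact Filter.Eventually.of_forall fun θ _ => h3 θ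
  have e : ∀ k : ℤ, ∫ θ in (0:ℝ)..(2 * Real.pi), c k * ex k θ = if k = 0 then c 0 * (2 * Real.pi) else 0 := by
    intro k
    rw [intervalIntegral.integral_const_mul]
    by_cases hk : k = 0
    · subst hk
      simp [ex_zero]
    · rw [integral_ex k hk, mul_zero, if_neg hk]
  simp only [e] at key
  have h5 := key.unique (hasSum_ite_eq 0 (c 0 * (2 * Real.pi)))
  rw [intervalIntegral.integral_ofReal] at h5
  rw [avg]
  push_cast
  rw [h5]
  have : (Real.pi : ℂ) ≠ 0 := by exact_mod_cast hpi.ne'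
  field_simp

theorem Bd.cont (h : Bd r M f) (hr : 0 ≤ r) : Continuous f := by
  obtain ⟨c, h1, h2, h3⟩ := h
  have : Continuous (fun θ => (f θ : ℂ)) := by
    have e : (fun θ => (f θ : ℂ)) = fun θ => ∑' k, c k * ex k θ := by
      funext θ; exact (h3 θ).tsum_eq.symm
    rw [e]
    refine continuous_tsum (fun k => (continuous_ex k).const_mul (c k)) h1 fun k θ => ?_
    rw [norm_mul, norm_ex]
    exact mul_le_mul_of_nonneg_left (one_le_wt hr k) (norm_nonneg _)
  have h5 := Complex.continuous_re.comp this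
  exact h5.congr fun θ => by simp

theorem avg_add (hf : Continuous f) (hg : Continuous g) : avg (f + g) = avg f + avg g := by
  rw [avg, avg, avg, ← mul_add, ← intervalIntegral.integral_add (hf.intervalIntegrable _ _)
    (hg.intervalIntegrable _ _)]
  rfl

theorem avg_sub (hf : Continuous f) (hg : Continuous g) : avg (f - g) = avg f - avg g := by
  rw [avg, avg, avg, ← mul_sub, ← intervalIntegral.integral_sub (hf.intervalIntegrable _ _)
    (hg.intervalIntegrable _ _)]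
  rfl

theorem avg_smul (a : ℝ) : avg (fun θ => a * f θ) = a * avg f := by
  rw [avg, avg, intervalIntegral.integral_const_mul]
  ring

theorem avg_const (a : ℝ) : avg (fun _ => a) = a := by
  have hpi := Real.pi_pos
  rw [avg, intervalIntegral.integral_const, sub_zero, smul_eq_mul]
  field_simp

theorem abs_avg_le (h : ∀ θ, |f θ| ≤ M) : |avg f| ≤ M := by
  have hpi := Real.pi_pos
  rw [avg, abs_mul, abs_of_pos (by positivity)]
  have := intervalIntegral.norm_integral_le_of_norm_le_const (a := 0) (b := 2 * Real.pi) (C := M) (f := f)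
    (fun θ _ => by rw [Real.norm_eq_abs]; exact h θ)
  rw [Real.norm_eq_abs, sub_zero, abs_of_pos (by positivity : 0 < 2 * Real.pi)] at this
  rw [inv_mul_le_iff₀ (by positivity)]
  linarith

theorem Bd.avg_refl1 (h : Bd r M f) (hr : 0 ≤ r) (ω : ℝ) : avg (fun θ => f (-θ - ω)) = avg f := by
  obtain ⟨c, hc⟩ := h
  have h1 := hc.zero_eq hr
  have h2 := (hc.refl).shift ω
  have h3 : Rep r M (fun k => c (-k) * ex k ω) (fun θ => ((f (-θ - ω) : ℝ) : ℂ)) := by
    have e : (fun θ => ((f (-θ - ω) : ℝ) : ℂ)) = fun θ => ((f (-(θ + ω)) : ℝ) : ℂ) := by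
      funext θ; congr 2; ring
    rw [e]; exact h2
  have h4 := h3.zero_eq hr
  simp only [neg_zero, ex_zero, mul_one] at h4
  rw [h1] at h4
  exact_mod_cast h4.symm

theorem Bd.avg_odd (h : Bd r M f) (hr : 0 ≤ r) {ω : ℝ} (ho : ∀ θ, f (-θ - ω) = - f θ) : avg f = 0 := by
  have h1 := h.avg_refl1 hr ω
  have h2 : avg (fun θ => f (-θ - ω)) = - avg f := by
    have : (fun θ => f (-θ - ω)) = fun θ => (-1) * f θ := by
      funext θ; rw [ho]; ring
    rw [this, avg_smul]; ring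
  linarith

/-- real cohomological equation, even solution for `ρ₁`-odd right hand side -/
theorem Bd.cohom_even {ω : ℝ} (hr : 0 < r) (hω : ∀ k : ℤ, k ≠ 0 → 1 / |(k : ℝ)| ≤ ‖ex k ω - 1‖)
    (h : Bd r M g) (ho : ∀ θ, g (-θ - ω) = - g θ) :
    ∃ β : ℝ → ℝ, (∀ θ, β (θ + ω) - β θ = g θ) ∧ (∀ θ, β (-θ) = β θ) ∧
      ∀ δ, 0 < δ → δ ≤ r → Bd (r - δ) (M / δ) β := by
  have ha := h.avg_odd hr.le ho
  obtain ⟨c, hc⟩ := h
  have h0 : c 0 = 0 := by rw [hc.zero_eq hr.le, ha, Complex.ofReal_zero]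
  obtain ⟨B, b, hB, hB2⟩ := hc.cohom hr hω h0
  refine ⟨fun θ => ((B θ).re + (B (-θ)).re) / 2, fun θ => ?_, fun θ => by simp only [neg_neg]; ring, ?_⟩
  · have e1 := congrArg Complex.re (hB θ)
    have e2 := congrArg Complex.re (hB (-θ - ω))
    rw [Complex.sub_re, Complex.ofReal_re, sub_add_cancel] at e2
    rw [Complex.sub_re, Complex.ofReal_re] at e1
    rw [ho] at e2
    have e3 : -(θ + ω) = -θ - ω := by ring
    simp only [e3]
    linarith
  · intro δ hδ hδr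
    have h1 : Bd (r - δ) (M / δ) (fun θ => (B θ).re) := BC.re ⟨_, hB2 δ hδ hδr⟩
    have h2 := (h1.add h1.refl).smul (1 / 2)
    rw [abs_of_pos (by norm_num : (0:ℝ) < 1 / 2)] at h2
    refine (h2.mono le_rfl (by linarith)).congr fun θ => ?_
    simp only [Pi.add_apply]
    ring

/-- real cohomological equation, odd solution for `ρ₁`-even right hand side with mean zero -/
theorem Bd.cohom_odd {ω : ℝ} (hr : 0 < r) (hω : ∀ k : ℤ, k ≠ 0 → 1 / |(k : ℝ)| ≤ ‖ex k ω - 1‖)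
    (h : Bd r M g) (ho : ∀ θ, g (-θ - ω) = g θ) (ha : avg g = 0) :
    ∃ α : ℝ → ℝ, (∀ θ, α (θ + ω) - α θ = g θ) ∧ (∀ θ, α (-θ) = - α θ) ∧
      ∀ δ, 0 < δ → δ ≤ r → Bd (r - δ) (M / δ) α := by
  obtain ⟨c, hc⟩ := h
  have h0 : c 0 = 0 := by rw [hc.zero_eq hr.le, ha, Complex.ofReal_zero]
  obtain ⟨B, b, hB, hB2⟩ := hc.cohom hr hω h0
  refine ⟨fun θ => ((B θ).re - (B (-θ)).re) / 2, fun θ => ?_, fun θ => by simp only [neg_neg]; ring, ?_⟩
  · have e1 := congrArg Complex.re (hB θ)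
    have e2 := congrArg Complex.re (hB (-θ - ω))
    rw [Complex.sub_re, Complex.ofReal_re, sub_add_cancel] at e2
    rw [Complex.sub_re, Complex.ofReal_re] at e1
    rw [ho] at e2
    have e3 : -(θ + ω) = -θ - ω := by ring
    simp only [e3]
    linarith
  · intro δ hδ hδr
    have h1 : Bd (r - δ) (M / δ) (fun θ => (B θ).re) := BC.re ⟨_, hB2 δ hδ hδr⟩
    have h2 := (h1.sub h1.refl).smul (1 / 2)
    rw [abs_of_pos (by norm_num : (0:ℝ) < 1 / 2)] at h2
    refine (h2.mono le_rfl (by linarith)).congr fun θ => ?_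
    simp only [Pi.sub_apply]
    ring

end Pool.Agent.Helper822.KAM
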