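import Pool.Agent.Helper822.KAM.Basic

namespace Pool.Agent.Helper822.KAM

theorem Rep.mul {r M N : ℝ} (hr : 0 ≤ r) {c d : ℤ → ℂ} {f g : ℝ → ℂ} (h : Rep r M c f)
    (h' : Rep r N d g) :
    Rep r (M * N) (fun n => ∑' j, c j * d (n - j)) (fun θ => f θ * g θ) := by
  have hM := h.nonneg
  obtain ⟨h1, h2, h3⟩ := h
  obtain ⟨h1', h2', h3'⟩ := h'
  -- the equivalence (n,j) ↦ (j, n-j)
  let ψ : ℤ × ℤ ≃ ℤ × ℤ :=
    { toFun := fun p => (p.2, p.1 - p.2)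
      invFun := fun p => (p.1 + p.2, p.1)
      left_inv := fun p => by ext <;> simp
      right_inv := fun p => by ext <;> simp }
  have hprod : Summable (fun p : ℤ × ℤ => (‖c p.1‖ * wt r p.1) * (‖d p.2‖ * wt r p.2)) :=
    h1.mul_of_nonneg h1' (fun k => mul_nonneg (norm_nonneg _) (wt_pos r k).le)
      (fun k => mul_nonneg (norm_nonneg _) (wt_pos r k).le)
  have hG : Summable (fun p : ℤ × ℤ => (‖c p.2‖ * wt r p.2) * (‖d (p.1 - p.2)‖ * wt r (p.1 - p.2))) :=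
    ψ.summable_iff.2 hprod
  have hHle : ∀ p : ℤ × ℤ, ‖c p.2 * d (p.1 - p.2)‖ * wt r p.1 ≤
      (‖c p.2‖ * wt r p.2) * (‖d (p.1 - p.2)‖ * wt r (p.1 - p.2)) := fun p => by
    have hw : wt r p.1 ≤ wt r p.2 * wt r (p.1 - p.2) := by
      have := wt_add hr p.2 (p.1 - p.2)
      simpa using this
    rw [norm_mul]
    calc ‖c p.2‖ * ‖d (p.1 - p.2)‖ * wt r p.1 ≤ ‖c p.2‖ * ‖d (p.1 - p.2)‖ * (wt r p.2 * wt r (p.1 - p.2)) :=
          mul_le_mul_of_nonneg_left hw (mul_nonneg (norm_nonneg _) (norm_nonneg _))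
      _ = _ := by ring
  have hH0 : ∀ p : ℤ × ℤ, 0 ≤ ‖c p.2 * d (p.1 - p.2)‖ * wt r p.1 := fun p =>
    mul_nonneg (norm_nonneg _) (wt_pos r _).le
  have hH : Summable (fun p : ℤ × ℤ => ‖c p.2 * d (p.1 - p.2)‖ * wt r p.1) :=
    Summable.of_nonneg_of_le hH0 hHle hG
  have hHn : ∀ n : ℤ, Summable (fun j : ℤ => ‖c j * d (n - j)‖ * wt r n) := fun n =>
    hH.comp_injective (i := fun j : ℤ => (n, j)) (fun a b hab => (Prod.mk.inj hab).2)
  have hcn : ∀ n : ℤ, Summable (fun j : ℤ => ‖c j * d (n - j)‖) := fun n => by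
    have := (hHn n).mul_right ((wt r n)⁻¹)
    refine this.congr fun j => ?_
    rw [mul_assoc, mul_inv_cancel₀ (wt_pos r n).ne', mul_one]
  have hfib : Summable (fun n : ℤ => ∑' j, ‖c j * d (n - j)‖ * wt r n) := hH.prod
  have hle : ∀ n : ℤ, ‖∑' j, c j * d (n - j)‖ * wt r n ≤ ∑' j, ‖c j * d (n - j)‖ * wt r n := fun n => by
    rw [tsum_mul_right]
    exact mul_le_mul_of_nonneg_right (norm_tsum_le_tsum_norm (hcn n)) (wt_pos r n).le
  have hs : Summable (fun n : ℤ => ‖∑' j, c j * d (n - j)‖ * wt r n) :=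
    Summable.of_nonneg_of_le (fun n => mul_nonneg (norm_nonneg _) (wt_pos r n).le) hle hfib
  refine ⟨hs, ?_, fun θ => ?_⟩
  · refine (hs.tsum_le_tsum hle hfib).trans ?_
    have e1 : ∑' n : ℤ, ∑' j, ‖c j * d (n - j)‖ * wt r n =
        ∑' p : ℤ × ℤ, ‖c p.2 * d (p.1 - p.2)‖ * wt r p.1 := (hH.tsum_prod).symm
    rw [e1]
    refine (hH.tsum_le_tsum hHle hG).trans ?_
    have e2 : ∑' p : ℤ × ℤ, (‖c p.2‖ * wt r p.2) * (‖d (p.1 - p.2)‖ * wt r (p.1 - p.2)) =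
        ∑' p : ℤ × ℤ, (‖c p.1‖ * wt r p.1) * (‖d p.2‖ * wt r p.2) := ψ.tsum_eq
          (fun p : ℤ × ℤ => (‖c p.1‖ * wt r p.1) * (‖d p.2‖ * wt r p.2))
    rw [e2, ← h1.tsum_mul_tsum h1' hprod]
    exact mul_le_mul h2 h2' (tsum_nonneg fun k => mul_nonneg (norm_nonneg _) (wt_pos r k).le) hM
  · have hn1 : ∀ k, ‖c k * ex k θ‖ ≤ ‖c k‖ * wt r k := fun k => by
      rw [norm_mul, norm_ex]
      exact mul_le_mul_of_nonneg_left (one_le_wt hr k) (norm_nonneg _)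
    have hn2 : ∀ k, ‖d k * ex k θ‖ ≤ ‖d k‖ * wt r k := fun k => by
      rw [norm_mul, norm_ex]
      exact mul_le_mul_of_nonneg_left (one_le_wt hr k) (norm_nonneg _)
    have hp : HasSum (fun p : ℤ × ℤ => (c p.1 * ex p.1 θ) * (d p.2 * ex p.2 θ)) (f θ * g θ) := by
      refine (h3 θ).mul (h3' θ) ?_
      refine Summable.of_norm_bounded hprod fun p => ?_
      rw [norm_mul]
      exact mul_le_mul (hn1 _) (hn2 _) (norm_nonneg _) (mul_nonneg (norm_nonneg _) (wt_pos r _).le)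
    have hq := ψ.hasSum_iff.2 hp
    have hq2 : HasSum (fun p : ℤ × ℤ => c p.2 * d (p.1 - p.2) * ex p.1 θ) (f θ * g θ) := by
      refine hq.congr_fun ?_
      intro p
      have : ex p.1 θ = ex p.2 θ * ex (p.1 - p.2) θ := by
        rw [← ex_add]; congr 1; ring
      simp only [ψ, Function.comp, Equiv.coe_fn_mk]
      rw [this]; ring
    refine hq2.prod_fiberwise fun n => ?_
    have := (hcn n).of_norm.hasSum.mul_right (ex n θ)
    exact this

end Pool.Agent.Helper822.KAM
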